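import Pool.Agent.TRF.Shr

/-!
# TRF/Jb: the binding
-/

open Complex Set Filter
open scoped Topology ContDiff Quaternion Manifold

namespace Pool.Agent.TRF
open Pool.Agent.CSG Pool.Agent.TS

noncomputable section

theorem zz_ss_inj {x y : E3} (h1 : zz x = zz y) (h2 : ss x = ss y) : x = y := by
  obtain ⟨h3, h4⟩ := zp_inj h1
  simp only [ss] at h2
  exact E3_ext (by linarith) h3 h4

/-- the point with given `zz`, `ss` -/
def Pz (a : ℝ) (z : ℂ) : E3 :=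
  pt (a + (z.re - z.im / om.im * om.re)) (z.re - z.im / om.im * om.re) (z.im / om.im)

theorem zz_Pz (a : ℝ) (z : ℂ) : zz (Pz a z) = z := by
  have hne := om_im_pos.ne'
  simp only [zz, Pz, pt_one', pt_two']
  apply Complex.ext
  · simp [zp]
  · simp [zp]; field_simp

theorem ss_Pz (a : ℝ) (z : ℂ) : ss (Pz a z) = a := by simp [ss, Pz]

theorem ra_ne : (ra : ℂ) ≠ 0 := by exact_mod_cast ra_pos.ne'

/-- the framing of the axis, as a linear equivalence -/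
def PtL (t : ℝ) : E3 ≃ₗ[ℝ] E3 where
  toFun y := Pz (y 0) (ra * ee (t / 6) * (y 1 + y 2 * I))
  map_add' x y := by
    apply zz_ss_inj
    · have : ∀ a b : E3, zz (a + b) = zz a + zz b := by
        intro a b; simp only [zz, zp]; simp; ring
      rw [this, zz_Pz, zz_Pz, zz_Pz]; simp; ring
    · have : ∀ a b : E3, ss (a + b) = ss a + ss b := by
        intro a b; simp only [ss]; simp; ring
      rw [this, ss_Pz, ss_Pz, ss_Pz]; simp
  map_smul' c x := by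
    apply zz_ss_inj
    · have : ∀ a : E3, zz (c • a) = c * zz a := by
        intro a; simp only [zz, zp]; simp; ring
      rw [RingHom.id_apply, this, zz_Pz, zz_Pz]; simp; ring
    · have : ∀ a : E3, ss (c • a) = c * ss a := by
        intro a; simp only [ss]; simp; ring
      rw [RingHom.id_apply, this, ss_Pz, ss_Pz]; simp
  invFun x := pt (ss x) ((ra : ℂ)⁻¹ * ee (-(t / 6)) * zz x).re ((ra : ℂ)⁻¹ * ee (-(t / 6)) * zz x).im
  left_inv y := by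
    have h1 : (ra : ℂ)⁻¹ * ee (-(t / 6)) * (ra * ee (t / 6) * (y 1 + y 2 * I)) = y 1 + y 2 * I := by
      have h2 : ee (-(t / 6)) * ee (t / 6) = 1 := by rw [← ee_add, neg_add_cancel, ee_zero]
      have h3 := ra_ne
      field_simp
      linear_combination (y 1 + y 2 * I : ℂ) * h2
    simp only [zz_Pz, ss_Pz, h1]
    apply E3_ext <;> simp
  right_inv x := by
    have h1 : (ra : ℂ) * ee (t / 6) * ((ra : ℂ)⁻¹ * ee (-(t / 6)) * zz x) = zz x := by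
      have h2 : ee (-(t / 6)) * ee (t / 6) = 1 := by rw [← ee_add, neg_add_cancel, ee_zero]
      have h3 := ra_ne
      field_simp
      linear_combination (zz x) * h2
    have h4 : ((((ra : ℂ)⁻¹ * ee (-(t / 6)) * zz x).re : ℝ) : ℂ) +
        ((((ra : ℂ)⁻¹ * ee (-(t / 6)) * zz x).im : ℝ) : ℂ) * I =
        (ra : ℂ)⁻¹ * ee (-(t / 6)) * zz x := Complex.re_add_im _
    apply zz_ss_inj
    · simp only [zz_Pz, pt_one', pt_two']
      rw [h4, h1]
    · simp only [ss_Pz, pt_zero']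

/-- the framing of the axis -/
def Pt (t : ℝ) : E3 ≃L[ℝ] E3 := (PtL t).toContinuousLinearEquiv

theorem Pt_apply (t : ℝ) (y : E3) : Pt t y = Pz (y 0) (ra * ee (t / 6) * (y 1 + y 2 * I)) := rfl

theorem zz_Pt (t : ℝ) (y : E3) : zz (Pt t y) = ra * ee (t / 6) * (y 1 + y 2 * I) := by
  rw [Pt_apply, zz_Pz]

theorem ss_Pt (t : ℝ) (y : E3) : ss (Pt t y) = y 0 := by rw [Pt_apply, ss_Pz]

theorem contDiff_Pz {V : Type*} [NormedAddCommGroup V] [NormedSpace ℝ V] {f : V → ℝ} {g : V → ℂ}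
    (hf : ContDiff ℝ ∞ f) (hg : ContDiff ℝ ∞ g) : ContDiff ℝ ∞ fun v => Pz (f v) (g v) := by
  have hb : ContDiff ℝ ∞ fun v => (g v).im / om.im := (Complex.imCLM.contDiff.comp hg).div_const _
  have ha : ContDiff ℝ ∞ fun v => (g v).re - (g v).im / om.im * om.re :=
    (Complex.reCLM.contDiff.comp hg).sub (hb.mul contDiff_const)
  exact contDiff_pt (hf.add ha) ha hb

theorem Pt_smooth : ContDiff ℝ ∞ fun q : ℝ × E3 => Pt q.1 q.2 := by
  have h : ∀ i, ContDiff ℝ ∞ fun q : ℝ × E3 => q.2 i := fun i =>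
    (contDiff_E3_apply i).comp contDiff_snd
  have he : ContDiff ℝ ∞ fun q : ℝ × E3 => ee (q.1 / 6) :=
    contDiff_ee.comp (contDiff_fst.div_const _)
  have hy : ContDiff ℝ ∞ fun q : ℝ × E3 => ((q.2 1 : ℝ) : ℂ) + ((q.2 2 : ℝ) : ℂ) * I :=
    (Complex.ofRealCLM.contDiff.comp (h 1)).add
      ((Complex.ofRealCLM.contDiff.comp (h 2)).mul contDiff_const)
  exact contDiff_Pz (h 0) ((contDiff_const.mul he).mul hy)

theorem Pt_mon (t : ℝ) (z : E3) : act C0 (Pt (t + 1) z) = Pt t z := by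
  apply zz_ss_inj
  · rw [zz_act, zz_Pt, zz_Pt]
    have h1 : ee ((t + 1) / 6) = om * ee (t / 6) := by
      rw [om_eq_ee, ← ee_add]; congr 1; ring
    have h2 := om_ne_zero
    rw [h1]
    field_simp
  · rw [ss_act, ss_Pt, ss_Pt]

theorem Pt_ax (t a : ℝ) : Pt t (pt a 0 0) = pt a 0 0 := by
  apply zz_ss_inj
  · rw [zz_Pt]; simp [zz, zp]
  · rw [ss_Pt]; simp [ss]

theorem Pz_bound {a : ℝ} {z : ℂ} (h : ‖z‖ < 1 / 128) : |Pz a z 1| < 1 / 8 ∧ |Pz a z 2| < 1 / 8 := by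
  have h1 := (Complex.abs_re_le_norm z)
  have h2 := (Complex.abs_im_le_norm z)
  have h3 : (1 : ℝ) / 2 < om.im := by
    rw [om_im]
    have : (1 : ℝ) < Real.sqrt 3 := by
      rw [Real.lt_sqrt (by norm_num)]; norm_num
    linarith
  have h4 : |z.im / om.im| < 1 / 64 := by
    rw [abs_div, abs_of_pos om_im_pos, div_lt_iff₀ om_im_pos]
    linarith
  have h5 : |z.re - z.im / om.im * om.re| < 1 / 32 := by
    rw [om_re]
    have := abs_sub (z.re) (z.im / om.im * (1 / 2))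
    rw [abs_mul, abs_of_pos (by norm_num : (0 : ℝ) < 1 / 2)] at this
    linarith
  constructor
  · simp only [Pz, pt_one']; linarith
  · simp only [Pz, pt_two']; linarith

theorem norm_Pt_lt {t y₁ y₂ : ℝ} (h : y₁ ^ 2 + y₂ ^ 2 < 1) :
    ‖(ra : ℂ) * ee (t / 6) * (y₁ + y₂ * I)‖ < 1 / 128 := by
  have h1 : ‖(y₁ + y₂ * I : ℂ)‖ ^ 2 < 1 := by
    rw [← Complex.normSq_eq_norm_sq, Complex.normSq_add_mul_I]; exact h
  have h2 : ‖(y₁ + y₂ * I : ℂ)‖ < 1 := by nlinarith [norm_nonneg (y₁ + y₂ * I : ℂ)]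
  rw [norm_mul, norm_mul, norm_ee, mul_one, Complex.norm_real, Real.norm_of_nonneg ra_pos.le]
  have := ra_lt
  have := ra_pos
  nlinarith [norm_nonneg (y₁ + y₂ * I : ℂ)]

theorem Pt_size (t a y₁ y₂ : ℝ) (h : y₁ ^ 2 + y₂ ^ 2 < 1) :
    |Pt t (pt a y₁ y₂) 1| < 1 / 8 ∧ |Pt t (pt a y₁ y₂) 2| < 1 / 8 := by
  rw [Pt_apply]
  apply Pz_bound
  simp only [pt_one', pt_two']
  exact norm_Pt_lt h

theorem bt_small {b : ℝ} (h : |b| < 1 / 8) : bt b = 1 := by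
  obtain ⟨h1, h2⟩ := abs_lt.mp h
  rw [bt]
  apply FFp_bt_one
  by_cases h0 : 0 ≤ b
  · left
    rw [Int.fract_eq_self.mpr ⟨h0, by linarith⟩]; linarith
  · right
    push Not at h0
    have h3 : Int.fract b = b + 1 := by
      rw [Int.fract_eq_iff]
      exact ⟨by linarith, by linarith, -1, by push_cast; ring⟩
    rw [h3]; linarith

theorem Sh_small {x : E3} (t : ℝ) (h : |x 2| < 1 / 8) : Sh x t = x := by
  apply E3_ext
  · simp
  · simp [sx, bt_small h]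
  · simp

variable (e : ℤ)

/-- the binding chart -/
def jb (p : ℝ × ℝ × ℂ) : X4 := TT Gam e (kc p.1 (ra ^ 5 * ra * p.2.2)) p.2.1

theorem jb_per (θ x : ℝ) (ζ : ℂ) (a b : ℤ) : jb e (θ + a, x + b, ζ) = jb e (θ, x, ζ) := by
  simp only [jb]
  rw [kc_per, TT_int qloop_Gam]

theorem six_lt {ζ : ℂ} (h : ‖ζ‖ < 1) : ‖(ra ^ 5 * ra * ζ : ℂ)‖ < rad := by
  have h0 := ra_pos
  have h1 := ra_lt
  have h2 : ra ^ 5 ≤ 1 := pow_le_one₀ h0.le (by linarith)
  rw [norm_mul, norm_mul, norm_pow, Complex.norm_real, Real.norm_of_nonneg h0.le]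
  have h3 : rad = 2 * ra := by unfold ra; ring
  have h4 : ra ^ 5 * ra ≤ 1 * ra := mul_le_mul_of_nonneg_right h2 h0.le
  have h5 : 0 ≤ ra ^ 5 * ra := by positivity
  have h6 : ra ^ 5 * ra * ‖ζ‖ ≤ ra ^ 5 * ra * 1 := mul_le_mul_of_nonneg_left h.le h5
  linarith

theorem kc_ne_Gam (θ s : ℝ) {ζ : ℂ} (h : ‖ζ‖ < 1) : kc θ (ra ^ 5 * ra * ζ) ≠ Gam s := by
  intro heq
  by_cases h0 : ζ = 0
  · rw [h0, mul_zero] at heq
    exact kc_zero_ne_HH θ (zp_half_U0 _) _ heq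
  have hr0 := ra_pos
  have hr1 := ra_lt
  have hn : 0 < ‖ζ‖ := norm_pos_iff.mpr h0
  obtain ⟨μ, hμ, t, ht0, ht1, ht⟩ := polar_exists h0 one_ne_zero
  have hμn : ‖ζ‖ = μ ^ 6 := by
    rw [ht, norm_mul, norm_mul, norm_ee, norm_pow, Complex.norm_real, Real.norm_of_nonneg hμ.le]
    simp
  replace ht : ζ = (‖ζ‖ : ℂ) * ee t := by
    rw [hμn]
    conv_lhs => rw [ht]
    push_cast; ring
  have h1 : (ra ^ 5 * ra * ζ : ℂ) = ra ^ 5 * ((ra * ‖ζ‖ : ℝ) : ℂ) * ee t := by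
    conv_lhs => rw [ht]
    push_cast; ring
  have hle : ra * ‖ζ‖ ≤ ra := by nlinarith
  rw [h1, HH_glue θ t (by positivity) hle] at heq
  set z : ℂ := ((ra * ‖ζ‖ : ℝ) : ℂ) * ee (t / 6) * ee θ with hz
  have hzn : ‖z‖ = ra * ‖ζ‖ := by
    rw [hz, norm_mul, norm_mul, norm_ee, norm_ee, Complex.norm_real,
      Real.norm_of_nonneg (by positivity)]; ring
  have hzl : ‖z‖ < 1 / 128 := by rw [hzn]; linarith
  have hzb := (Pz_bound (a := 0) hzl)
  have hzz : zp (Pz 0 z 1) (Pz 0 z 2) = z := zz_Pz 0 z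
  have hzU : z ∈ U0 := by
    intro hmem
    rw [← hzz, zp_mem] at hmem
    obtain ⟨⟨m, hm⟩, ⟨n, hn'⟩⟩ := hmem
    obtain ⟨⟨a1, a2⟩, ⟨b1, b2⟩⟩ := hzb.imp abs_lt.mp abs_lt.mp
    have e1 : m = 0 := by
      have c1 : (m : ℝ) < 1 := by linarith
      have c2 : (-1 : ℝ) < m := by linarith
      have c3 : m < 1 := by exact_mod_cast c1
      have c4 : -1 < m := by exact_mod_cast c2
      omega
    have e2 : n = 0 := by
      have c1 : (n : ℝ) < 1 := by linarith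
      have c2 : (-1 : ℝ) < n := by linarith
      have c3 : n < 1 := by exact_mod_cast c1
      have c4 : -1 < n := by exact_mod_cast c2
      omega
    have hz0 : z = 0 := by
      rw [← hzz, hm, hn', e1, e2]; simp [zp]
    rw [hz0, norm_zero] at hzn
    have : 0 < ra * ‖ζ‖ := by positivity
    linarith
  obtain ⟨_, h3⟩ := HH_inj hzU (zp_half_U0 _) ht0 ht1 (by norm_num) (by norm_num) heq
  rw [← hzz, zp_sub, zp_mem] at h3
  obtain ⟨_, ⟨n, hn'⟩⟩ := h3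
  obtain ⟨_, ⟨b1, b2⟩⟩ := hzb.imp abs_lt.mp abs_lt.mp
  have c1 : (n : ℝ) < 1 := by linarith
  have c2 : (0 : ℝ) < n := by linarith
  have c3 : n < 1 := by exact_mod_cast c1
  have c4 : 0 < n := by exact_mod_cast c2
  omega

theorem jb_inj {θ x θ' x' : ℝ} {ζ ζ' : ℂ} (h : ‖ζ‖ < 1) (h' : ‖ζ'‖ < 1)
    (heq : jb e (θ, x, ζ) = jb e (θ', x', ζ')) :
    (∃ a : ℤ, θ' = θ + a) ∧ (∃ b : ℤ, x' = x + b) ∧ ζ' = ζ := by
  obtain ⟨h1, n, hn⟩ := TT_inj qloop_Gam e (norm_kc θ (six_lt h)) (norm_kc θ' (six_lt h'))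
    (kc_ne_Gam θ x h) (kc_ne_Gam θ' x' h') heq
  obtain ⟨h2, m, hm⟩ := kc_inj (six_lt h) (six_lt h') h1
  have hr := ra_ne
  refine ⟨⟨-m, by push_cast; linarith⟩, ⟨-n, by push_cast; linarith⟩, ?_⟩
  have h3 : (ra : ℂ) ^ 5 * ra ≠ 0 := mul_ne_zero (pow_ne_zero _ hr) hr
  exact (mul_left_cancel₀ h3 h2).symm

/-- reordering of the coordinates -/
def ReE : (ℝ × ℝ × ℂ) ≃ ((ℝ × ℂ) × ℝ) where
  toFun p := ((p.1, ra ^ 5 * ra * p.2.2), p.2.1)
  invFun q := (q.1.1, q.2, (ra ^ 5 * ra : ℂ)⁻¹ * q.1.2)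
  left_inv := by
    rintro ⟨a, b, c⟩
    have hr := ra_ne
    simp only
    congr 2
    field_simp
  right_inv := by
    rintro ⟨⟨a, b⟩, c⟩
    have hr := ra_ne
    simp only
    congr 2
    field_simp

theorem ReE_ld (p : ℝ × ℝ × ℂ) :
    IsLocalDiffeomorphAt 𝓘(ℝ, ℝ × ℝ × ℂ) 𝓘(ℝ, (ℝ × ℂ) × ℝ) ∞ ReE p := by
  apply ld_of_perm
  · exact (contDiff_fst.prodMk (contDiff_const.mul (contDiff_snd.comp contDiff_snd))).prodMk
      (contDiff_fst.comp contDiff_snd)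
  · exact (contDiff_fst.comp contDiff_fst).prodMk (contDiff_snd.prodMk
      (contDiff_const.mul (contDiff_snd.comp contDiff_fst)))

theorem jb_loc (θ x : ℝ) {ζ : ℂ} (h : ‖ζ‖ < 1) :
    IsLocalDiffeomorphAt 𝓘(ℝ, ℝ × ℝ × ℂ) (𝓡 4) ∞ (jb e) (θ, x, ζ) := by
  have h1 := TT_ld qloop_Gam e (V := ℝ × ℂ) (by simp) (fun p : ℝ × ℂ => kc p.1 p.2)
    (θ, ra ^ 5 * ra * ζ) x (by
      have ho : ∀ᶠ p : ℝ × ℂ in 𝓝 (θ, (ra ^ 5 * ra * ζ : ℂ)), ‖p.2‖ < rad :=
        (isOpen_lt (by fun_prop) continuous_const).mem_nhds (six_lt h)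
      filter_upwards [ho] with p hp
      exact ⟨contDiffAt_kc _ hp, norm_kc _ hp⟩) (kc_imm θ (six_lt h)) (kc_ne_Gam θ x h)
  exact IsLocalDiffeomorphAt.comp (hf := ReE_ld (θ, x, ζ)) (hg := h1) ..

theorem jb_glue (θ x t s : ℝ) (hs : 0 < s) (hs1 : s < 1) :
    jb e (θ, x, s * ex t) = H0 e (Pt t (pt x (s * Real.cos (2 * Real.pi * θ))
      (s * Real.sin (2 * Real.pi * θ))), t) := by
  have hr0 := ra_pos
  have hc : (s * Real.cos (2 * Real.pi * θ)) ^ 2 + (s * Real.sin (2 * Real.pi * θ)) ^ 2 < 1 := by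
    have := Real.cos_sq_add_sin_sq (2 * Real.pi * θ)
    have : (s * Real.cos (2 * Real.pi * θ)) ^ 2 + (s * Real.sin (2 * Real.pi * θ)) ^ 2 = s ^ 2 := by
      linear_combination s ^ 2 * this
    rw [this]; nlinarith
  have hsz := Pt_size t x _ _ hc
  set y : E3 := pt x (s * Real.cos (2 * Real.pi * θ)) (s * Real.sin (2 * Real.pi * θ)) with hy
  have h1 : zz (Pt t y) = ((ra * s : ℝ) : ℂ) * ee (t / 6) * ee θ := by
    rw [zz_Pt]
    have h2 : ((y 1 : ℝ) : ℂ) + ((y 2 : ℝ) : ℂ) * I = s * ee θ := by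
      have e1 : ee θ = Complex.exp ((2 * Real.pi * θ : ℝ) * I) := by
        rw [ee]; congr 1; push_cast; ring
      rw [e1, hy, pt_one', pt_two', Complex.exp_mul_I]
      push_cast; ring
    rw [h2]; push_cast; ring
  have h3 : ss (Pt t y) = x := by rw [ss_Pt, hy, pt_zero']
  simp only [H0, Hb]
  rw [Sh_small t hsz.2, h1, h3]
  simp only [jb]
  have h4 : (ra ^ 5 * ra * (s * ex t) : ℂ) = ra ^ 5 * ((ra * s : ℝ) : ℂ) * ee t := by
    have : ex t = ee t := by rw [ex, ee]; congr 1; push_cast; ring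
    rw [this]; push_cast; ring
  rw [h4, HH_glue θ t (by positivity) (by nlinarith)]

end

end Pool.Agent.TRF
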