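import Pool.Agent.TRF.TubN
import Pool.Agent.TRF.Jb

/-!
# TRF/Main: the base case
-/

open Complex Set Filter
open scoped Topology ContDiff Quaternion Manifold

namespace Pool.Agent.TRF
open Pool.Agent.CSG Pool.Agent.TS

noncomputable section

variable (e : ℤ)

/-- `(y, ζ) ↦ (y, -conj ζ)` -/
def ncD : (T2 × ℂ) ≃ₘ^∞⟮(𝓡 2).prod 𝓘(ℝ, ℂ), (𝓡 2).prod 𝓘(ℝ, ℂ)⟯ (T2 × ℂ) :=
  (Diffeomorph.refl (𝓡 2) T2 ∞).prodCongr
    ((Complex.conjCLE.trans (ContinuousLinearEquiv.neg ℝ)).toDiffeomorph)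

theorem ncD_apply (y : T2) (ζ : ℂ) : ncD (y, ζ) = (y, -(starRingEnd ℂ) ζ) := rfl

theorem jcP_loc (y : S2) {ζ : ℂ} (h : ‖ζ‖ < 1) :
    IsLocalDiffeomorphAt ((𝓡 2).prod 𝓘(ℝ, ℂ)) (𝓡 4) ∞ jcP (y, ζ) := by
  have h1 : IsLocalDiffeomorphAt ((𝓡 2).prod 𝓘(ℝ, ℂ)) (𝓡 4) ∞ jc (ncD (y, ζ)) := by
    rw [ncD_apply]
    exact jc_ld y (by rw [norm_neg, RCLike.norm_conj]; exact h)
  have h2 := ncD.isLocalDiffeomorph (y, ζ)
  exact IsLocalDiffeomorphAt.comp (hf := h2) (hg := h1) ..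

theorem jcP_inj {y y' : S2} {ζ ζ' : ℂ} (h : ‖ζ‖ < 1) (h' : ‖ζ'‖ < 1)
    (heq : jcP (y, ζ) = jcP (y', ζ')) : y = y' ∧ ζ = ζ' := by
  have h1 := jc_inj (by rw [norm_neg, RCLike.norm_conj]; exact h)
    (by rw [norm_neg, RCLike.norm_conj]; exact h') heq
  refine ⟨h1.1, ?_⟩
  have h2 := neg_injective h1.2
  exact (starRingEnd ℂ).injective h2

theorem jcP_zero (y : S2) : jcP (y, 0) = jc (y, 0) := by simp [jcP]

theorem wc_jc_zero (y : T2) : wc (jc (y, 0) : E5) = 0 := by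
  rw [coe_jc (by rw [norm_zero]; exact one_pos), wc_jv]

theorem H0_ne {x : E3} {t : ℝ} (h0 : 0 ≤ t) (h1 : t < 1) (hx : OffAx x) (hC : ¬ OnC x t) :
    HH (zz (Sh x t)) t ≠ Gam (ss (Sh x t)) := fun h =>
  hC (onC_Sh.mp ((onC_iff (offAx_Sh.mpr hx) (by linarith) (by linarith)).mpr h))

theorem base_disjb (θ x₀ : ℝ) {x : E3} {t : ℝ} (hx : OffAx x) (hC : ¬ OnC x t) (h0 : 0 ≤ t)
    (h1 : t < 1) : jb e (θ, x₀, 0) ≠ H0 e (x, t) := by
  intro h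
  have hU : zz (Sh x t) ∈ U0 := offAx_iff.mp (offAx_Sh.mpr hx)
  have hz : ‖(0 : ℂ)‖ < 1 := by rw [norm_zero]; exact one_pos
  obtain ⟨h2, _⟩ := TT_inj qloop_Gam e (norm_kc θ (six_lt hz)) (norm_HH hU t)
    (kc_ne_Gam θ x₀ hz) (H0_ne h0 h1 hx hC) h
  rw [mul_zero] at h2
  exact kc_zero_ne_HH θ hU t h2

theorem base_disjc (y : S2) {x : E3} {t : ℝ} (hx : OffAx x) (hC : ¬ OnC x t) (h0 : 0 ≤ t)
    (h1 : t < 1) : jcP (y, 0) ≠ H0 e (x, t) := by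
  intro h
  have hU : zz (Sh x t) ∈ U0 := offAx_iff.mp (offAx_Sh.mpr hx)
  have h2 := wc_TT_ne qloop_Gam e (norm_HH hU t) (H0_ne h0 h1 hx hC)
  rw [jcP_zero] at h
  have h3 : wc (H0 e (x, t) : E5) = 0 := by rw [← h]; exact wc_jc_zero y
  exact h2 h3

theorem base_disjbc (y : S2) (θ x₀ : ℝ) : jcP (y, 0) ≠ jb e (θ, x₀, 0) := by
  intro h
  have hz : ‖(0 : ℂ)‖ < 1 := by rw [norm_zero]; exact one_pos
  have h2 := wc_TT_ne qloop_Gam e (norm_kc θ (six_lt hz)) (kc_ne_Gam θ x₀ hz)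
  rw [jcP_zero] at h
  have h3 : wc (jb e (θ, x₀, 0) : E5) = 0 := by rw [← h]; exact wc_jc_zero y
  exact h2 h3

theorem base_cover (q : X4) : (∃ θ x₀, q = jb e (θ, x₀, 0)) ∨ (∃ y, q = jcP (y, 0)) ∨
    ∃ x t, OffAx x ∧ ¬ OnC x t ∧ 0 ≤ t ∧ t < 1 ∧ q = H0 e (x, t) := by
  by_cases hw : wc (q : E5) = 0
  · obtain ⟨n, hn⟩ := jc_cover q hw
    exact Or.inr (Or.inl ⟨n, by rw [jcP_zero]; exact hn⟩)
  obtain ⟨q', hq', s, _, _, hne, hT⟩ := TT_cover qloop_Gam e q hw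
  rcases HH_cover hq' with ⟨z, hz, t, h0, h1, h⟩ | ⟨x, hx⟩
  · right; right
    obtain ⟨⟨x, t'⟩, hp⟩ := DqE.surjective ((z, t), s)
    have e1 : zz (Sh x t') = z := congrArg (fun p : (ℂ × ℝ) × ℝ => p.1.1) hp
    have e2 : t' = t := congrArg (fun p : (ℂ × ℝ) × ℝ => p.1.2) hp
    have e3 : ss (Sh x t') = s := congrArg (fun p : (ℂ × ℝ) × ℝ => p.2) hp
    subst e2
    have hoff : OffAx (Sh x t') := by rw [offAx_iff, e1]; exact hz
    refine ⟨x, t', offAx_Sh.mp hoff, ?_, h0, h1, ?_⟩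
    · intro hC
      apply hne
      rw [← h, ← e1, ← e3]
      exact (onC_iff hoff (by linarith) (by linarith)).mp (onC_Sh.mpr hC)
    · rw [← hT, ← h]
      simp only [H0, Hb]
      rw [e1, e3]
  · left
    refine ⟨x, s, ?_⟩
    simp only [jb]
    rw [mul_zero, hx, hT]

/-- the base case -/
def baseD : PDlin C0 X4 where
  H := H0 e
  jb := jb e
  jc := jcP
  P := Pt
  δ := del e
  f := ft e
  N := Nt e
  H_loc x t h0 h1 hx hC := H0_loc e h0 h1 hx hC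
  H_per x t m _ _ _ := H0_per e x t m
  H_mon x t h0 h1 _ := H0_mon e x h0 h1
  H_inj x y s t hx hxC hy hyC hs hs1 ht ht1 h := H0_inj e hx hxC hy hyC hs hs1 ht ht1 h
  P_smooth := Pt_smooth
  P_mon := Pt_mon
  P_ax := Pt_ax
  P_size t a y₁ y₂ h := by
    have := Pt_size t a y₁ y₂ h
    exact ⟨by linarith [this.1], by linarith [this.2]⟩
  jb_per := jb_per e
  jb_loc θ x ζ h := jb_loc e θ x h
  jb_inj θ x ζ θ' x' ζ' h h' heq := jb_inj e h h' heq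
  jc_loc y ζ h := jcP_loc y h
  jc_inj y y' ζ ζ' h h' heq := jcP_inj h h' heq
  glueb θ x t s _ _ hs hs1 := jb_glue e θ x t s hs hs1
  δ_pos := del_pos e
  δ_lt := by have := del_le e; linarith
  f_smooth u v h := contDiffAt_ft e h
  f_per := ft_per e
  f_zero := ft_zero e
  f_ne u v h hv := ft_ne e h hv
  f_lt u v h := ft_lt e h
  N_smooth := Nt_smooth e
  f_deriv := Nt_deriv e
  gluec u v h hv := ft_glue e u h hv
  disjb θ x₀ x t hx hC h0 h1 := base_disjb e θ x₀ hx hC h0 h1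
  disjc y x t hx hC h0 h1 := base_disjc e y hx hC h0 h1
  disjbc := base_disjbc e
  cover := base_cover e

/-- The 4-sphere carries two P-data over the trefoil monodromy which differ by one twist of the tube -/
theorem base_lin : ∃ D₀ D₁ : PDlin C0 X4, ∀ u z, D₁.N u z = cmul (ee (1 / 2 - u)) (D₀.N u z) := by
  refine ⟨baseD 0, baseD 1, fun u z => ?_⟩
  have := Nt_rel 1 u z
  rw [Int.cast_one, one_mul] at this
  exact this

/-- more generally, all twists -/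
theorem baseD_rel (u : ℝ) (z : E3) :
    (baseD e).N u z = cmul (ee (e * (1 / 2 - u))) ((baseD 0).N u z) := Nt_rel e u z

end

end Pool.Agent.TRF
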