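import Pool.Agent.TRF.Hmap

/-!
# TRF/Col: Laurent expansion at the lattice points: `z ^ 2 ℘ z = Gf (z ^ 6)`,
`z ^ 3 ℘' z = - 2 Kf (z ^ 6)`
-/

open Complex PeriodPair Set Filter
open scoped Topology ContDiff Quaternion

namespace Pool.Agent.TRF

noncomputable section

/-- coefficients -/
def gc (k : ℕ) : ℂ := (6 * k + 5) * L0.G (6 * k + 6)

theorem hasSum_wpe {z : ℂ} (hz : ‖z‖ < 1) :
    HasSum (fun k : ℕ => gc k * z ^ (6 * k + 4)) (℘[L0 - (0 : ℂ)] z) := by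
  have h1 := L0.weierstrassPExceptSeries_hasSum 0 z 0 (by
    intro l hl
    rw [sub_zero, sub_zero]
    exact lt_of_lt_of_le hz (one_le_norm l.2 hl))
  have hinj : Function.Injective (fun k : ℕ => 6 * k + 4) := by
    intro a b h; simp only at h; omega
  have h2 := (hinj.hasSum_iff (f := fun i => (L0.weierstrassPExceptSeries 0 0).coeff i * (z - 0) ^ i)
    (a := ℘[L0 - (0 : ℂ)] z) ?_).mpr h1
  · refine h2.congr_fun ?_ |> fun h => h
    intro k
    simp only [Function.comp, sub_zero, PeriodPair.weierstrassPExceptSeries,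
      FormalMultilinearSeries.coeff_ofScalars]
    simp only [show ¬ (6 * k + 4 = 0) by omega, if_false]
    rw [show 6 * k + 4 + 2 = 6 * k + 6 by ring]
    have e : (((6 * k + 4 : ℕ) : ℂ) + 1) = 6 * k + 5 := by push_cast; ring
    rw [e]
    simp [gc]
  · intro i hi
    have h6 : i = 0 ∨ ¬ 6 ∣ (i + 2) := by
      by_cases h0 : i = 0
      · exact Or.inl h0
      · right
        rintro ⟨m, hm⟩
        apply hi
        refine ⟨m - 1, ?_⟩
        simp only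
        omega
    simp only [sub_zero, PeriodPair.weierstrassPExceptSeries,
      FormalMultilinearSeries.coeff_ofScalars]
    rcases h6 with h0 | h6
    · subst h0; simp
    · have hG := G_om (i + 2) h6
      by_cases h0 : i = 0
      · subst h0; simp
      · simp [h0, hG]

theorem exists_sixth (Z : ℂ) : ∃ z : ℂ, z ^ 6 = Z := by
  obtain ⟨z, hz⟩ := IsAlgClosed.exists_pow_nat_eq Z (by norm_num : 0 < 6)
  exact ⟨z, hz⟩

theorem summable_gc {r : ℝ} (hr0 : 0 ≤ r) (hr : r < 1) :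
    Summable (fun k : ℕ => ‖gc k‖ * r ^ (k + 1)) := by
  by_cases h0 : r = 0
  · subst h0
    refine summable_of_ne_finset_zero (s := ∅) ?_
    intro k _
    simp
  have hr0' : 0 < r := lt_of_le_of_ne hr0 (Ne.symm h0)
  set s : ℝ := r ^ (1 / 6 : ℝ) with hs
  have hs6 : s ^ 6 = r := by
    rw [hs, ← Real.rpow_natCast, ← Real.rpow_mul hr0]; norm_num
  have hs0 : 0 < s := Real.rpow_pos_of_pos hr0' _
  have hs1 : s < 1 := Real.rpow_lt_one hr0 hr (by norm_num)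
  have h1 := (hasSum_wpe (z := (s : ℂ)) (by
    rw [Complex.norm_real, Real.norm_of_nonneg hs0.le]; exact hs1)).summable.norm
  have h2 := h1.mul_left (s ^ 2)
  refine h2.congr fun k => ?_
  rw [norm_mul, norm_pow, Complex.norm_real, Real.norm_of_nonneg hs0.le, ← hs6]
  ring

/-- `z ^ 2 ℘ z` as a function of `z ^ 6` -/
def Gf (Z : ℂ) : ℂ := 1 + ∑' k : ℕ, gc k * Z ^ (k + 1)

theorem differentiableOn_Gf : DifferentiableOn ℂ Gf (Metric.ball 0 1) := by
  intro Z hZ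
  have hZ' : ‖Z‖ < 1 := by simpa using hZ
  obtain ⟨r, hr1, hr2⟩ := exists_between hZ'
  have hr0 : 0 ≤ r := (norm_nonneg Z).trans hr1.le
  have h1 : DifferentiableOn ℂ (fun w : ℂ => ∑' k : ℕ, gc k * w ^ (k + 1)) (Metric.ball 0 r) := by
    refine differentiableOn_tsum_of_summable_norm (summable_gc hr0 hr2) ?_ Metric.isOpen_ball ?_
    · intro k
      fun_prop
    · intro k w hw
      have hw' : ‖w‖ ≤ r := by
        have : ‖w‖ < r := by simpa using hw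
        exact this.le
      rw [norm_mul, norm_pow]
      gcongr
  have h2 : DifferentiableAt ℂ (fun w : ℂ => ∑' k : ℕ, gc k * w ^ (k + 1)) Z :=
    (h1 Z (by simpa using hr1)).differentiableAt (Metric.isOpen_ball.mem_nhds (by simpa using hr1))
  exact ((differentiableAt_const 1).add h2).differentiableWithinAt

theorem analyticOn_Gf : AnalyticOnNhd ℂ Gf (Metric.ball 0 1) :=
  differentiableOn_Gf.analyticOnNhd Metric.isOpen_ball

theorem Gf_zero : Gf 0 = 1 := by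
  rw [Gf]
  have : (fun k : ℕ => gc k * (0 : ℂ) ^ (k + 1)) = fun _ => 0 := by
    ext k; simp
  rw [this, tsum_zero, add_zero]

theorem wp_eq_Gf {z : ℂ} (hz : ‖z‖ < 1) (hz0 : z ≠ 0) : ℘[L0] z = Gf (z ^ 6) / z ^ 2 := by
  rw [wp_near_zero, Gf]
  have h1 := (hasSum_wpe hz).mul_left (z ^ 2)
  have h2 : HasSum (fun k : ℕ => gc k * (z ^ 6) ^ (k + 1)) (z ^ 2 * ℘[L0 - (0 : ℂ)] z) := by
    refine h1.congr_fun ?_ |> fun h => h
    intro k
    rw [← pow_mul]
    ring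
  rw [h2.tsum_eq]
  field_simp
  ring

/-- `z ^ 3 ℘' z / (-2)` as a function of `z ^ 6` -/
def Kf (Z : ℂ) : ℂ := Gf Z - 3 * Z * deriv Gf Z

theorem analyticOn_Kf : AnalyticOnNhd ℂ Kf (Metric.ball 0 1) := by
  intro Z hZ
  have h1 := analyticOn_Gf Z hZ
  have h2 := h1.deriv
  unfold Kf
  fun_prop

theorem Kf_zero : Kf 0 = 1 := by rw [Kf, Gf_zero]; ring

theorem mem_U0_of_norm {z : ℂ} (hz : ‖z‖ < 1) (hz0 : z ≠ 0) : z ∈ U0 := by
  intro h
  have := one_le_norm h hz0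
  linarith

theorem wpd_eq_Kf {z : ℂ} (hz : ‖z‖ < 1) (hz0 : z ≠ 0) : ℘'[L0] z = -2 * Kf (z ^ 6) / z ^ 3 := by
  have hU := mem_U0_of_norm hz hz0
  have h1 := wp_hasDerivAt hU
  have hz6 : ‖z ^ 6‖ < 1 := by
    rw [norm_pow]; exact pow_lt_one₀ (norm_nonneg _) hz (by norm_num)
  have h2 : HasDerivAt Gf (deriv Gf (z ^ 6)) (z ^ 6) :=
    (analyticOn_Gf _ (by simpa using hz6)).differentiableAt.hasDerivAt
  have h3 : HasDerivAt (fun w : ℂ => w ^ 6) (6 * z ^ 5) z := by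
    have := hasDerivAt_pow 6 z
    simpa using this
  have h4 := h2.comp z h3
  have h5 : HasDerivAt (fun w : ℂ => w ^ 2) (2 * z) z := by
    have := hasDerivAt_pow 2 z
    simpa using this
  have h6 := h4.div h5 (pow_ne_zero 2 hz0)
  have h7 : ℘[L0] =ᶠ[𝓝 z] ((Gf ∘ fun w : ℂ => w ^ 6) / fun w : ℂ => w ^ 2) := by
    have ho : ∀ᶠ w in 𝓝 z, ‖w‖ < 1 ∧ w ≠ 0 := by
      refine (continuous_norm.continuousAt.eventually_lt continuousAt_const hz).and ?_
      exact continuousAt_id.eventually_ne hz0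
    filter_upwards [ho] with w hw
    exact wp_eq_Gf hw.1 hw.2
  have h8 := h1.unique (h6.congr_of_eventuallyEq h7)
  rw [h8, Kf]
  simp only [Function.comp]
  field_simp
  ring

theorem KG_rel {Z : ℂ} (hZ : ‖Z‖ < 1) : Kf Z ^ 2 = Gf Z ^ 3 - L0.g₃ / 4 * Z := by
  by_cases h0 : Z = 0
  · rw [h0, Kf_zero, Gf_zero]; ring
  obtain ⟨z, hz⟩ := exists_sixth Z
  have hz0 : z ≠ 0 := by rintro rfl; apply h0; rw [← hz]; norm_num
  have hz1 : ‖z‖ < 1 := by
    by_contra h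
    push Not at h
    have : 1 ≤ ‖Z‖ := by rw [← hz, norm_pow]; exact one_le_pow₀ h
    linarith
  have h1 := wp_sq z (mem_U0_of_norm hz1 hz0)
  rw [wp_eq_Gf hz1 hz0, wpd_eq_Kf hz1 hz0, hz] at h1
  rw [← hz] at h1 ⊢
  field_simp at h1
  linear_combination h1 / 4

theorem KG_wronski {Z : ℂ} (hZ : ‖Z‖ < 1) (hK : Kf Z ≠ 0) :
    2 * Gf Z * deriv Kf Z - 3 * Kf Z * deriv Gf Z = -L0.g₃ / 4 := by
  have hmem : Z ∈ Metric.ball (0 : ℂ) 1 := by simpa using hZ
  have h1 := (analyticOn_Gf Z hmem).differentiableAt.hasDerivAt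
  have h2 := (analyticOn_Kf Z hmem).differentiableAt.hasDerivAt
  have h3 := h2.fun_pow 2
  have h4 := (h1.fun_pow 3).sub ((hasDerivAt_id Z).const_mul (L0.g₃ / 4))
  have h5 : (fun Z => Kf Z ^ 2) =ᶠ[𝓝 Z] ((fun Z => Gf Z ^ 3) - fun Z => L0.g₃ / 4 * id Z) := by
    filter_upwards [Metric.isOpen_ball.mem_nhds hmem] with w hw
    exact KG_rel (by simpa using hw)
  have h6 := h3.unique (h4.congr_of_eventuallyEq h5)
  have h7 := KG_rel hZ
  have h8 : Kf Z = Gf Z - 3 * Z * deriv Gf Z := rfl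
  norm_num at h6
  apply mul_left_cancel₀ hK
  have e1 : Gf Z * (2 * Kf Z * deriv Kf Z) = Gf Z * (3 * Gf Z ^ 2 * deriv Gf Z - L0.g₃ / 4) := by
    rw [h6]
  have e2 : 3 * Kf Z ^ 2 * deriv Gf Z = 3 * (Gf Z ^ 3 - L0.g₃ / 4 * Z) * deriv Gf Z := by rw [h7]
  linear_combination e1 - e2 + (L0.g₃ / 4) * h8

/-- a radius on which `Gf` and `Kf` do not vanish -/
theorem exists_rad : ∃ ε : ℝ, 0 < ε ∧ ε < 1 / 64 ∧ ∀ Z : ℂ, ‖Z‖ < ε → Gf Z ≠ 0 ∧ Kf Z ≠ 0 := by
  have h0 : (0 : ℂ) ∈ Metric.ball (0 : ℂ) 1 := by simp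
  have h1 : ∀ᶠ Z in 𝓝 (0 : ℂ), Gf Z ≠ 0 := by
    apply (analyticOn_Gf 0 h0).continuousAt.eventually_ne
    rw [Gf_zero]; exact one_ne_zero
  have h2 : ∀ᶠ Z in 𝓝 (0 : ℂ), Kf Z ≠ 0 := by
    apply (analyticOn_Kf 0 h0).continuousAt.eventually_ne
    rw [Kf_zero]; exact one_ne_zero
  obtain ⟨δ, hδ, h⟩ := Metric.eventually_nhds_iff.mp (h1.and h2)
  refine ⟨min δ (1 / 65), by positivity, ?_, ?_⟩
  · exact lt_of_le_of_lt (min_le_right _ _) (by norm_num)
  · intro Z hZ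
    apply h
    rw [dist_zero_right]
    exact lt_of_lt_of_le hZ (min_le_left _ _)

end

end Pool.Agent.TRF
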