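import Pool.Agent.TRF.StrC

/-!
# TRF/JC: the neighbourhood `S² × D²` of the sphere `{w = 0}` in `S⁴`
-/

open scoped Manifold ContDiff Topology Quaternion
open Set Filter Metric

namespace Pool.Agent.TRF

noncomputable section

theorem chart_smooth_n (n : ℕ) (v w : sphere (0 : EuclideanSpace ℝ (Fin (n + 1))) 1)
    (hw : w ∈ (chartAt (EuclideanSpace ℝ (Fin n)) v).source) :
    ∃ g : EuclideanSpace ℝ (Fin (n + 1)) → EuclideanSpace ℝ (Fin n), ContDiffAt ℝ ∞ g w ∧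
      ∀ u : sphere (0 : EuclideanSpace ℝ (Fin (n + 1))) 1,
        g u = chartAt (EuclideanSpace ℝ (Fin n)) v u := by
  have := Fact.mk (@finrank_euclideanSpace_fin ℝ _ (n + 1))
  let U : _ ≃ₗᵢ[ℝ] _ :=
    (OrthonormalBasis.fromOrthogonalSpanSingleton (𝕜 := ℝ) n
        (ne_zero_of_mem_unit_sphere (-v))).repr
  refine ⟨fun x => U (stereoToFun ((-v : sphere (0 : EuclideanSpace ℝ (Fin (n + 1))) 1) :
    EuclideanSpace ℝ (Fin (n + 1))) x), ?_, ?_⟩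
  · have h1 : ContDiffAt ℝ ∞ (stereoToFun ((-v : sphere (0 : EuclideanSpace ℝ (Fin (n + 1))) 1) :
        EuclideanSpace ℝ (Fin (n + 1)))) (w : EuclideanSpace ℝ (Fin (n + 1))) := by
      have h2 := (contDiffOn_stereoToFun (n := ∞)
        (v := ((-v : sphere (0 : EuclideanSpace ℝ (Fin (n + 1))) 1) :
          EuclideanSpace ℝ (Fin (n + 1)))))
      apply h2.contDiffAt
      have hopen : IsOpen {x : EuclideanSpace ℝ (Fin (n + 1)) |
          innerSL ℝ ((-v : sphere (0 : EuclideanSpace ℝ (Fin (n + 1))) 1) :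
            EuclideanSpace ℝ (Fin (n + 1))) x ≠ (1 : ℝ)} :=
        isOpen_ne_fun (innerSL ℝ ((-v : sphere (0 : EuclideanSpace ℝ (Fin (n + 1))) 1) :
            EuclideanSpace ℝ (Fin (n + 1)))).continuous continuous_const
      apply hopen.mem_nhds
      have h3 : w ∈ (stereographic' n (-v)).source := hw
      rw [stereographic'_source] at h3
      intro h4
      apply h3
      simp only [mem_singleton_iff]
      symm
      rw [sphere_ext_iff]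
      exact h4
    exact U.contDiff.contDiffAt.comp (w : EuclideanSpace ℝ (Fin (n + 1))) h1
  · intro u
    rfl

theorem cmd_coe_sphere (n : ℕ) : ContMDiff (𝓡 n) 𝓘(ℝ, EuclideanSpace ℝ (Fin (n + 1))) ∞
    ((↑) : sphere (0 : EuclideanSpace ℝ (Fin (n + 1))) 1 → EuclideanSpace ℝ (Fin (n + 1))) := by
  have := Fact.mk (@finrank_euclideanSpace_fin ℝ _ (n + 1))
  exact contMDiff_coe_sphere

theorem cmd_sphere {E' : Type*} [NormedAddCommGroup E'] [NormedSpace ℝ E'] {H' : Type*}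
    [TopologicalSpace H'] {I : ModelWithCorners ℝ E' H'} {M : Type*} [TopologicalSpace M]
    [ChartedSpace H' M] (n : ℕ)
    {f : M → sphere (0 : EuclideanSpace ℝ (Fin (n + 1))) 1} {x : M}
    (h : ContMDiffAt I 𝓘(ℝ, EuclideanSpace ℝ (Fin (n + 1))) ∞
      (fun y => (f y : EuclideanSpace ℝ (Fin (n + 1)))) x) : ContMDiffAt I (𝓡 n) ∞ f x := by
  rw [contMDiffAt_iff_target]
  constructor
  · rw [Topology.IsInducing.subtypeVal.continuousAt_iff]
    exact h.continuousAt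
  · obtain ⟨g, hg1, hg2⟩ := chart_smooth_n n (f x) (f x) (mem_chart_source _ (f x))
    have h1 : (extChartAt (𝓡 n) (f x)) ∘ f = g ∘ fun y => (f y : EuclideanSpace ℝ (Fin (n + 1))) := by
      ext1 z
      simp only [Function.comp]
      rw [hg2]
      rfl
    rw [h1]
    exact ContMDiffAt.comp x hg1.contMDiffAt h

abbrev F3 := EuclideanSpace ℝ (Fin 3)
/-- the unit sphere of `ℝ³` -/
abbrev T2 := sphere (0 : F3) 1

/-- vector `(√(1 - |w|²) n, w)` -/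
def jv (n : F3) (w : ℂ) : E5 :=
  WithLp.toLp 2 ![Real.sqrt (1 - ‖w‖ ^ 2) * n 0, Real.sqrt (1 - ‖w‖ ^ 2) * n 1,
    Real.sqrt (1 - ‖w‖ ^ 2) * n 2, w.re, w.im]

theorem norm_sq_F3 (n : F3) : ‖n‖ ^ 2 = n 0 ^ 2 + n 1 ^ 2 + n 2 ^ 2 := by
  rw [EuclideanSpace.norm_eq, Real.sq_sqrt (by positivity)]
  simp [Fin.sum_univ_three]

theorem norm_jv {n : F3} (hn : ‖n‖ = 1) {w : ℂ} (hw : ‖w‖ < 1) : ‖jv n w‖ = 1 := by
  have h0 := norm_sq_F3 n
  rw [hn] at h0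
  have h1 : 0 ≤ 1 - ‖w‖ ^ 2 := by nlinarith [norm_nonneg w]
  have h2 := Real.sq_sqrt h1
  have h3 : w.re ^ 2 + w.im ^ 2 = ‖w‖ ^ 2 := by
    rw [← Complex.normSq_eq_norm_sq, Complex.normSq_apply]; ring
  rw [EuclideanSpace.norm_eq, Real.sqrt_eq_one]
  simp only [jv, Fin.sum_univ_five, Real.norm_eq_abs, sq_abs]
  simp
  nlinarith

theorem wc_jv (n : F3) (w : ℂ) : wc (jv n w) = w := by
  apply Complex.ext <;> simp [wc, jv]

/-- the collar of the 2-sphere -/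
def jc (p : T2 × ℂ) : X4 := toS (jv p.1 p.2)

theorem norm_T2 (n : T2) : ‖(n : F3)‖ = 1 := by simp

theorem coe_jc {n : T2} {w : ℂ} (hw : ‖w‖ < 1) : (jc (n, w) : E5) = jv n w :=
  coe_toS (norm_jv (norm_T2 n) hw)

/-- junk-valued projection to `S²` -/
def toT (v : F3) : T2 :=
  if h : ‖v‖ = 1 then ⟨v, by simpa using h⟩ else ⟨EuclideanSpace.single 0 1, by simp⟩

theorem coe_toT {v : F3} (h : ‖v‖ = 1) : ((toT v : T2) : F3) = v := by
  rw [toT, dif_pos h]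

/-- the inverse vector -/
def nv (y : E5) : F3 := WithLp.toLp 2 ![(Real.sqrt (1 - ‖wc y‖ ^ 2))⁻¹ * y 0,
  (Real.sqrt (1 - ‖wc y‖ ^ 2))⁻¹ * y 1, (Real.sqrt (1 - ‖wc y‖ ^ 2))⁻¹ * y 2]

theorem nv_jv (n : F3) {w : ℂ} (hw : ‖w‖ < 1) : nv (jv n w) = n := by
  have h1 : 0 < 1 - ‖w‖ ^ 2 := by nlinarith [norm_nonneg w]
  have h2 := Real.sqrt_pos.mpr h1
  ext i
  rw [nv, wc_jv]
  fin_cases i
  · simp [jv]; field_simp
  · simp [jv]; field_simp
  · simp [jv]; field_simp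

theorem norm_nv (y : X4) (hy : ‖wc (y : E5)‖ < 1) : ‖nv (y : E5)‖ = 1 := by
  have h0 := sq_sum_X4 y
  have h1 : 0 < 1 - ‖wc (y : E5)‖ ^ 2 := by nlinarith [norm_nonneg (wc (y : E5))]
  have h2 := Real.sq_sqrt h1.le
  have h3 := Real.sqrt_pos.mpr h1
  have h4 : ‖nv (y : E5)‖ ^ 2 = 1 := by
    rw [norm_sq_F3]
    simp only [nv]
    simp
    field_simp
    rw [h2]
    linarith
  nlinarith [norm_nonneg (nv (y : E5))]

theorem jv_nv (y : X4) (hy : ‖wc (y : E5)‖ < 1) : jv (nv (y : E5)) (wc (y : E5)) = y := by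
  have h1 : 0 < 1 - ‖wc (y : E5)‖ ^ 2 := by nlinarith [norm_nonneg (wc (y : E5))]
  have h3 := Real.sqrt_pos.mpr h1
  ext i
  rw [jv]
  fin_cases i
  · simp [nv]; field_simp
  · simp [nv]; field_simp
  · simp [nv]; field_simp
  · simp [wc]
  · simp [wc]

theorem jc_inj {n n' : T2} {w w' : ℂ} (hw : ‖w‖ < 1) (hw' : ‖w'‖ < 1)
    (h : jc (n, w) = jc (n', w')) : n = n' ∧ w = w' := by
  have h1 : (jc (n, w) : E5) = jc (n', w') := by rw [h]
  rw [coe_jc hw, coe_jc hw'] at h1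
  constructor
  · apply Subtype.ext
    rw [← nv_jv (n : F3) hw, h1, nv_jv _ hw']
  · rw [← wc_jv (n : F3) w, h1, wc_jv]

theorem jc_cover (y : X4) (hy : wc (y : E5) = 0) : ∃ n : T2, y = jc (n, 0) := by
  have h0 : ‖wc (y : E5)‖ < 1 := by rw [hy, norm_zero]; exact one_pos
  refine ⟨⟨nv (y : E5), by simpa using norm_nv y h0⟩, ?_⟩
  apply Subtype.ext
  rw [coe_jc (by rw [norm_zero]; exact one_pos)]
  have := jv_nv y h0
  rw [hy] at this
  exact this.symm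

theorem contDiffAt_sqw {w : ℂ} (hw : ‖w‖ < 1) :
    ContDiffAt ℝ ∞ (fun w : ℂ => Real.sqrt (1 - ‖w‖ ^ 2)) w := by
  have h1 : 0 < 1 - ‖w‖ ^ 2 := by nlinarith [norm_nonneg w]
  have h2 : ContDiffAt ℝ ∞ (fun w : ℂ => 1 - ‖w‖ ^ 2) w :=
    contDiffAt_const.sub (contDiff_id.norm_sq ℝ).contDiffAt
  exact h2.sqrt h1.ne'

theorem contDiffAt_jv {n : F3} {w : ℂ} (hw : ‖w‖ < 1) :
    ContDiffAt ℝ ∞ (fun p : F3 × ℂ => jv p.1 p.2) (n, w) := by
  have hs : ContDiffAt ℝ ∞ (fun p : F3 × ℂ => Real.sqrt (1 - ‖p.2‖ ^ 2)) (n, w) :=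
    ContDiffAt.comp (n, w) (g := fun w : ℂ => Real.sqrt (1 - ‖w‖ ^ 2)) (f := Prod.snd)
      (contDiffAt_sqw hw) contDiffAt_snd
  have hc : ∀ i : Fin 3, ContDiffAt ℝ ∞ (fun p : F3 × ℂ => p.1 i) (n, w) := fun i =>
    ContDiffAt.comp (n, w) (g := fun p : F3 => p i) (f := Prod.fst)
      (contDiff_euclidean.mp contDiff_id i).contDiffAt contDiffAt_fst
  have hr : ContDiffAt ℝ ∞ (fun p : F3 × ℂ => p.2.re) (n, w) :=
    (Complex.reCLM.contDiff.contDiffAt).comp (n, w) contDiffAt_snd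
  have hi : ContDiffAt ℝ ∞ (fun p : F3 × ℂ => p.2.im) (n, w) :=
    (Complex.imCLM.contDiff.contDiffAt).comp (n, w) contDiffAt_snd
  rw [contDiffAt_euclidean]
  intro i
  fin_cases i
  · exact hs.mul (hc 0)
  · exact hs.mul (hc 1)
  · exact hs.mul (hc 2)
  · exact hr
  · exact hi

theorem contDiffAt_nv {y : E5} (hy : ‖wc y‖ < 1) : ContDiffAt ℝ ∞ nv y := by
  have h1 : 0 < 1 - ‖wc y‖ ^ 2 := by nlinarith [norm_nonneg (wc y)]
  have hs : ContDiffAt ℝ ∞ (fun y : E5 => (Real.sqrt (1 - ‖wc y‖ ^ 2))⁻¹) y := by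
    have h2 := ContDiffAt.comp y (g := fun w : ℂ => Real.sqrt (1 - ‖w‖ ^ 2)) (f := wc)
      (contDiffAt_sqw hy) contDiff_wc.contDiffAt
    exact h2.inv (Real.sqrt_pos.mpr h1).ne'
  have hc : ∀ i : Fin 5, ContDiffAt ℝ ∞ (fun p : E5 => p i) y := fun i =>
    (contDiff_euclidean.mp contDiff_id i).contDiffAt
  rw [contDiffAt_euclidean]
  intro i
  fin_cases i
  · exact hs.mul (hc 0)
  · exact hs.mul (hc 1)
  · exact hs.mul (hc 2)

/-- `jc` as a partial diffeomorphism -/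
def jcPD : PartialDiffeomorph ((𝓡 2).prod 𝓘(ℝ, ℂ)) (𝓡 4) (T2 × ℂ) X4 ∞ where
  toFun := jc
  invFun := fun y => (toT (nv (y : E5)), wc (y : E5))
  source := {p | ‖p.2‖ < 1}
  target := {y | ‖wc (y : E5)‖ < 1}
  map_source' := by
    rintro ⟨n, w⟩ hw
    have hw' : ‖w‖ < 1 := hw
    show ‖wc (jc (n, w) : E5)‖ < 1
    rw [coe_jc hw', wc_jv]
    exact hw'
  map_target' := fun y hy => hy
  left_inv' := by
    rintro ⟨n, w⟩ hw
    have hw' : ‖w‖ < 1 := hw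
    simp only [coe_jc hw', nv_jv _ hw', wc_jv]
    refine Prod.ext ?_ rfl
    apply Subtype.ext
    exact coe_toT (norm_T2 n)
  right_inv' := by
    intro y hy
    apply Subtype.ext
    have hy' : ‖wc (y : E5)‖ < 1 := hy
    rw [coe_jc hy', coe_toT (norm_nv y hy')]
    exact jv_nv y hy'
  open_source := isOpen_lt (by fun_prop) continuous_const
  open_target := isOpen_lt (by
    have := contDiff_wc.continuous
    fun_prop) continuous_const
  contMDiffOn_toFun := by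
    rintro ⟨n, w⟩ hw
    have hw' : ‖w‖ < 1 := hw
    apply ContMDiffAt.contMDiffWithinAt
    apply cmd_sphere 4
    have h1 : ContMDiffAt ((𝓡 2).prod 𝓘(ℝ, ℂ)) 𝓘(ℝ, F3 × ℂ) ∞
        (fun p : T2 × ℂ => ((p.1 : F3), p.2)) (n, w) := by
      rw [contMDiffAt_prod_module_iff]
      exact ⟨((cmd_coe_sphere 2).contMDiffAt).comp (n, w) contMDiffAt_fst, contMDiffAt_snd⟩
    have h2 := ContMDiffAt.comp (n, w) (g := fun p : F3 × ℂ => jv p.1 p.2)
      (f := fun p : T2 × ℂ => ((p.1 : F3), p.2)) (contDiffAt_jv hw').contMDiffAt h1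
    refine h2.congr_of_eventuallyEq ?_
    have ho : ∀ᶠ p : T2 × ℂ in 𝓝 (n, w), ‖p.2‖ < 1 :=
      (isOpen_lt (by fun_prop) continuous_const).mem_nhds hw'
    filter_upwards [ho] with p hp
    exact coe_jc hp
  contMDiffOn_invFun := by
    intro y hy
    have hy' : ‖wc (y : E5)‖ < 1 := hy
    apply ContMDiffAt.contMDiffWithinAt
    have hcoe : ContMDiffAt (𝓡 4) 𝓘(ℝ, E5) ∞ ((↑) : X4 → E5) y := (cmd_coe_sphere 4) y
    apply ContMDiffAt.prodMk
    · apply cmd_sphere 2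
      have h1 := ContMDiffAt.comp y (contDiffAt_nv hy').contMDiffAt hcoe
      refine h1.congr_of_eventuallyEq ?_
      have ho : ∀ᶠ z : X4 in 𝓝 y, ‖wc (z : E5)‖ < 1 := by
        refine (isOpen_lt (f := fun z : X4 => ‖wc (z : E5)‖) ?_ continuous_const).mem_nhds hy'
        have := contDiff_wc.continuous
        fun_prop
      filter_upwards [ho] with z hz
      exact coe_toT (norm_nv z hz)
    · exact ContMDiffAt.comp y contDiff_wc.contDiffAt.contMDiffAt hcoe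

theorem jc_ld (n : T2) {w : ℂ} (hw : ‖w‖ < 1) :
    IsLocalDiffeomorphAt ((𝓡 2).prod 𝓘(ℝ, ℂ)) (𝓡 4) ∞ jc (n, w) :=
  ⟨jcPD, hw, fun _ _ => rfl⟩

/-- the unit quaternion at distance `2 r` from `1` in direction `n` -/
def qn (n : F3) (r : ℝ) : ℍ[ℝ] :=
  ⟨1 - 2 * r ^ 2, 2 * r * Real.sqrt (1 - r ^ 2) * n 0, 2 * r * Real.sqrt (1 - r ^ 2) * n 1,
    2 * r * Real.sqrt (1 - r ^ 2) * n 2⟩

theorem norm_qn {n : F3} (hn : ‖n‖ = 1) {r : ℝ} (hr0 : 0 ≤ r) (hr : r < 1) : ‖qn n r‖ = 1 := by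
  have h0 := norm_sq_F3 n
  rw [hn] at h0
  have h1 : 0 ≤ 1 - r ^ 2 := by nlinarith
  have h2 := Real.sq_sqrt h1
  have h3 : ‖qn n r‖ ^ 2 = 1 := by
    rw [norm_sq_quat]
    simp only [qn]
    have h4 : (n 0 ^ 2 + n 1 ^ 2 + n 2 ^ 2) = 1 := by linarith
    linear_combination (4 * r ^ 2 * (n 0 ^ 2 + n 1 ^ 2 + n 2 ^ 2)) * h2 +
      (4 * r ^ 2 * (1 - r ^ 2)) * h4
  nlinarith [norm_nonneg (qn n r)]

theorem norm_one_sub_qn {n : F3} (hn : ‖n‖ = 1) {r : ℝ} (hr0 : 0 ≤ r) (hr : r < 1) :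
    ‖1 - qn n r‖ = 2 * r := by
  have h1 := norm_one_sub_sq (norm_qn hn hr0 hr)
  have h2 : ‖1 - qn n r‖ ^ 2 = (2 * r) ^ 2 := by
    rw [h1]; simp only [qn]; ring
  exact (pow_left_inj₀ (norm_nonneg _) (by positivity) (by norm_num)).mp h2

theorem thv_qn {n : F3} (hn : ‖n‖ = 1) {r : ℝ} (hr0 : 0 < r) (hr : r < 1) {c : ℂ} (hc : ‖c‖ = 1) :
    thv (qn n r) c = jv n (r * c) := by
  have h1 := norm_one_sub_qn hn hr0.le hr
  have h2 : ‖(r : ℂ) * c‖ = r := by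
    rw [norm_mul, hc, mul_one, Complex.norm_real, Real.norm_of_nonneg hr0.le]
  ext i
  rw [thv, jv, h1, h2]
  fin_cases i
  · simp [qn]; field_simp
  · simp [qn]; field_simp
  · simp [qn]; field_simp
  · simp; ring
  · simp; ring

/-- gluing of the collar `jc` with `TT` -/
theorem jc_glue {Γ : ℝ → ℍ[ℝ]} (hΓ : QLoop Γ) (e : ℤ) (n : T2) {r : ℝ} (hr0 : 0 < r) (hr : r < 1)
    (s : ℝ) : jc (n, r * ee s) = TT Γ e (Γ s * star (rho e s) * qn n r * rho e s) s := by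
  rw [jc, TT, str_inv' hΓ, thv_qn (norm_T2 n) hr0 hr (norm_ee s)]

end

end Pool.Agent.TRF
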