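import Pool.Agent.TRF.HH
import Pool.Agent.TRF.JC
import Pool.Agent.TS.PLin

/-!
# TRF/Gam: the surgered curve, the map `Hb` and its properties

Coordinates `x = (x 0, x 1, x 2)` of `R^3`; `zz x = x 1 + x 2 om ∈ ℂ`, `ss x = x 0 - x 1`.
`Hb e (x, t) = TT Γ e (HH (zz x) t) (ss x)`.
-/

open Complex Set Filter
open scoped Topology ContDiff Quaternion Manifold

namespace Pool.Agent.TRF
open Pool.Agent.CSG Pool.Agent.TS

noncomputable section

/-- point of the plane -/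
def zp (a b : ℝ) : ℂ := (a : ℂ) + (b : ℂ) * om

theorem om_im : om.im = Real.sqrt 3 / 2 := rfl
theorem om_re : om.re = 1 / 2 := rfl
theorem om_im_pos : 0 < om.im := by rw [om_im]; positivity

theorem zp_inj {a b a' b' : ℝ} (h : zp a b = zp a' b') : a = a' ∧ b = b' := by
  have h1 := congrArg Complex.im h
  have h2 := congrArg Complex.re h
  simp [zp] at h1 h2
  have hb : b = b' := by
    rcases h1 with h | h
    · exact h
    · exact absurd h om_im_pos.ne'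
  subst hb
  exact ⟨by linarith, rfl⟩

theorem zp_mem {a b : ℝ} : zp a b ∈ L0.lattice ↔ (∃ m : ℤ, a = m) ∧ ∃ n : ℤ, b = n := by
  rw [mem_Lam]
  constructor
  · rintro ⟨m, n, h⟩
    have h1 : zp m n = zp a b := by simpa [zp] using h
    obtain ⟨h2, h3⟩ := zp_inj h1
    exact ⟨⟨m, h2.symm⟩, ⟨n, h3.symm⟩⟩
  · rintro ⟨⟨m, rfl⟩, ⟨n, rfl⟩⟩
    exact ⟨m, n, by simp [zp]⟩

theorem zp_surj (z : ℂ) : ∃ a b : ℝ, zp a b = z := by
  refine ⟨z.re - z.im / om.im * om.re, z.im / om.im, ?_⟩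
  have := om_im_pos.ne'
  apply Complex.ext
  · simp [zp]
  · simp [zp]; field_simp

theorem zp_sub (a b a' b' : ℝ) : zp a b - zp a' b' = zp (a - a') (b - b') := by
  simp only [zp]; push_cast; ring

theorem zp_add (a b a' b' : ℝ) : zp a b + zp a' b' = zp (a + a') (b + b') := by
  simp only [zp]; push_cast; ring

theorem om_inv_mul_zp (a b : ℝ) : om⁻¹ * zp a b = zp (a + b) (-a) := by
  have h := om_sq
  have h0 := om_ne_zero
  simp only [zp]
  field_simp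
  push_cast
  linear_combination (a : ℂ) * h

/-- the surgered curve -/
def Gam (s : ℝ) : ℍ[ℝ] := HH (zp (1 / 2 - s) (1 / 2)) (1 / 2)

theorem zp_half_U0 (a : ℝ) : zp a (1 / 2) ∈ U0 := by
  intro h
  obtain ⟨_, n, hn⟩ := zp_mem.mp h
  have h2 : ((2 * n : ℤ) : ℝ) = 1 := by push_cast; linarith
  have h3 : (2 * n : ℤ) = 1 := by exact_mod_cast h2
  omega

theorem contDiff_zp {V : Type*} [NormedAddCommGroup V] [NormedSpace ℝ V] {f g : V → ℝ}
    (hf : ContDiff ℝ ∞ f) (hg : ContDiff ℝ ∞ g) : ContDiff ℝ ∞ fun v => zp (f v) (g v) := by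
  unfold zp
  exact (Complex.ofRealCLM.contDiff.comp hf).add
    ((Complex.ofRealCLM.contDiff.comp hg).mul contDiff_const)

theorem qloop_Gam : QLoop Gam where
  smooth := by
    rw [contDiff_iff_contDiffAt]
    intro s
    have h1 : ContDiffAt ℝ ∞ (fun s : ℝ => (zp (1 / 2 - s) (1 / 2), (1 / 2 : ℝ))) s :=
      ((contDiff_zp (contDiff_const.sub contDiff_id) contDiff_const).contDiffAt).prodMk
        contDiffAt_const
    exact ContDiffAt.comp s (g := fun p : ℂ × ℝ => HH p.1 p.2)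
      (f := fun s : ℝ => (zp (1 / 2 - s) (1 / 2), (1 / 2 : ℝ)))
      (contDiffAt_HH (zp_half_U0 _) _) h1
  unit s := norm_HH (zp_half_U0 _) _
  per s := by
    have h1 : zp (1 / 2 - (s + 1)) (1 / 2) = zp (1 / 2 - s) (1 / 2) + (-1 : ℂ) := by
      simp only [zp]; push_cast; ring
    rw [Gam, h1, HH_per _ _ (neg_mem one_mem_lattice), Gam]

/-- the page coordinate -/
def zz (x : E3) : ℂ := zp (x 1) (x 2)
/-- the fibre coordinate -/
def ss (x : E3) : ℝ := x 0 - x 1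

theorem offAx_iff {x : E3} : OffAx x ↔ zz x ∈ U0 := by
  rw [OffAx, U0, Set.mem_ofPred_eq, zz, zp_mem]

/-- the matrix of the monodromy -/
def C0 : Matrix (Fin 3) (Fin 3) ℤ := !![1, 0, 1; 0, 1, 1; 0, -1, 0]

theorem act_C0 (x : E3) : act C0 x = pt (x 0 + x 2) (x 1 + x 2) (-x 1) := by
  ext i
  fin_cases i <;> simp [act, C0, Fin.sum_univ_three, pt]

theorem zz_act (x : E3) : zz (act C0 x) = om⁻¹ * zz x := by
  rw [act_C0, zz, zz, om_inv_mul_zp]; simp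

theorem ss_act (x : E3) : ss (act C0 x) = ss x := by
  rw [act_C0, ss, ss]; simp

/-- `Γ` is on the page at time `1/2` only -/
theorem HH_eq_Gam {z : ℂ} (hz : z ∈ U0) {t : ℝ} (ht : -(1 / 8) < t) (ht1 : t < 9 / 8) {s : ℝ}
    (h : HH z t = Gam s) : t = 1 / 2 ∧ zp (1 / 2 - s) (1 / 2) - z ∈ L0.lattice := by
  have key : ∀ {z : ℂ}, z ∈ U0 → ∀ {t : ℝ}, 0 ≤ t → t < 1 → HH z t = Gam s →
      t = 1 / 2 ∧ zp (1 / 2 - s) (1 / 2) - z ∈ L0.lattice := by
    intro z hz t h0 h1 h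
    exact HH_inj hz (zp_half_U0 _) h0 h1 (by norm_num) (by norm_num) h
  have hU : ∀ {z : ℂ}, z ∈ U0 → om * z ∈ U0 := by
    intro z hz hh; exact hz (om_mul_mem_iff.mp hh)
  have hU' : ∀ {z : ℂ}, z ∈ U0 → om⁻¹ * z ∈ U0 := by
    intro z hz hh
    apply hz
    rw [← om_mul_mem_iff, ← mul_assoc, mul_inv_cancel₀ om_ne_zero, one_mul] at hh
    exact hh
  by_cases h0 : 0 ≤ t
  · by_cases h1 : t < 1
    · exact key hz h0 h1 h
    · exfalso
      push Not at h1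
      have h2 : HH (om⁻¹ * z) (t - 1) = Gam s := by
        rw [HH_mon]; rw [sub_add_cancel]; exact h
      have := (key (hU' hz) (by linarith) (by linarith) h2).1
      linarith
  · exfalso
    push Not at h0
    have h2 : HH (om * z) (t + 1) = Gam s := by rw [HH_om]; exact h
    have := (key (hU hz) (by linarith) (by linarith) h2).1
    linarith

theorem onC_iff {x : E3} (hx : OffAx x) {t : ℝ} (ht : -(1 / 8) < t) (ht1 : t < 9 / 8) :
    OnC x t ↔ HH (zz x) t = Gam (ss x) := by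
  constructor
  · rintro ⟨rfl, ⟨a, ha⟩, ⟨b, hb⟩⟩
    have h1 : zz x = zp (1 / 2 - ss x) (1 / 2) + zp a b := by
      rw [zz, zp_add, ss]; congr 1 <;> linarith
    have h2 : zp a b ∈ L0.lattice := zp_mem.mpr ⟨⟨a, rfl⟩, ⟨b, rfl⟩⟩
    rw [h1, HH_per _ _ h2, Gam]
  · intro h
    obtain ⟨h1, h2⟩ := HH_eq_Gam (offAx_iff.mp hx) ht ht1 h
    rw [zz, zp_sub, ss, zp_mem] at h2
    obtain ⟨⟨m, hm⟩, ⟨n, hn⟩⟩ := h2
    refine ⟨h1, ⟨-m, ?_⟩, ⟨-n, ?_⟩⟩
    · push_cast; linarith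
    · push_cast; linarith

variable (e : ℤ)

/-- the basic map -/
def Hb (p : E3 × ℝ) : X4 := TT Gam e (HH (zz p.1) p.2) (ss p.1)

theorem Hb_per (x : E3) (t : ℝ) (m : Fin 3 → ℤ) : Hb e (x + vec m, t) = Hb e (x, t) := by
  have h1 : zz (x + vec m) = zz x + zp (m 1) (m 2) := by
    rw [zz, zz, zp_add]; rfl
  have h2 : ss (x + vec m) = ss x + ((m 0 - m 1 : ℤ) : ℝ) := by
    simp only [ss]
    have e0 : (x + vec m) 0 = x 0 + (m 0 : ℝ) := rfl
    have e1 : (x + vec m) 1 = x 1 + (m 1 : ℝ) := rfl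
    rw [e0, e1]; push_cast; ring
  have h3 : zp (m 1) (m 2) ∈ L0.lattice := zp_mem.mpr ⟨⟨m 1, rfl⟩, ⟨m 2, rfl⟩⟩
  simp only [Hb]
  rw [h1, h2, HH_per _ _ h3, TT_int qloop_Gam]

theorem Hb_mon (x : E3) (t : ℝ) : Hb e (act C0 x, t) = Hb e (x, t + 1) := by
  simp only [Hb]
  rw [zz_act, ss_act, HH_mon]

theorem Hb_inj {x y : E3} {s t : ℝ} (hx : OffAx x) (hxC : ¬ OnC x s) (hy : OffAx y)
    (hyC : ¬ OnC y t) (hs : 0 ≤ s) (hs1 : s < 1) (ht : 0 ≤ t) (ht1 : t < 1)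
    (h : Hb e (x, s) = Hb e (y, t)) : s = t ∧ ∃ m, y = x + vec m := by
  rw [onC_iff hx (by linarith) (by linarith)] at hxC
  rw [onC_iff hy (by linarith) (by linarith)] at hyC
  obtain ⟨h1, n, hn⟩ := TT_inj qloop_Gam e (norm_HH (offAx_iff.mp hx) _)
    (norm_HH (offAx_iff.mp hy) _) hxC hyC h
  obtain ⟨h2, h3⟩ := HH_inj (offAx_iff.mp hx) (offAx_iff.mp hy) hs hs1 ht ht1 h1
  refine ⟨h2, ?_⟩
  rw [zz, zz, zp_sub, zp_mem] at h3
  obtain ⟨⟨a, ha⟩, ⟨b, hb⟩⟩ := h3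
  simp only [ss] at hn
  refine ⟨![a - n, a, b], ?_⟩
  ext i
  fin_cases i
  · show y 0 = x 0 + (((a - n : ℤ)) : ℝ)
    push_cast; linarith
  · show y 1 = x 1 + (a : ℝ)
    linarith
  · show y 2 = x 2 + (b : ℝ)
    linarith

end

end Pool.Agent.TRF
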