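import Pool.Agent.TRF.PsiR

/-!
# TRF/HH: the open book with linear collar: `HH z t = hh (psi z) t`
-/

open Complex Set Filter
open scoped Topology ContDiff Quaternion

namespace Pool.Agent.TRF

noncomputable section

open Classical in
/-- radial reparametrisation of the plane, periodic under the lattice -/
def psi (z : ℂ) : ℂ :=
  if h : ∃ l ∈ L0.lattice, ‖z - l‖ < 1 / 2 then
    Classical.choose h + radC (z - Classical.choose h) else z

theorem lat_unique {z l l' : ℂ} (hl : l ∈ L0.lattice) (hl' : l' ∈ L0.lattice)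
    (h : ‖z - l‖ < 1 / 2) (h' : ‖z - l'‖ < 1 / 2) : l = l' := by
  by_contra hne
  have h1 : l - l' ∈ L0.lattice := sub_mem hl hl'
  have h2 := one_le_norm h1 (sub_ne_zero.mpr hne)
  have h3 : ‖l - l'‖ ≤ ‖z - l'‖ + ‖z - l‖ := by
    have : l - l' = (z - l') - (z - l) := by ring
    rw [this]; exact norm_sub_le _ _
  linarith

theorem psi_eq {z l : ℂ} (hl : l ∈ L0.lattice) (h : ‖z - l‖ < 1 / 2) : psi z = l + radC (z - l) := by
  have hex : ∃ l ∈ L0.lattice, ‖z - l‖ < 1 / 2 := ⟨l, hl, h⟩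
  have hc := Classical.choose_spec hex
  have e : Classical.choose hex = l := lat_unique hc.1 hl hc.2 h
  rw [psi, dif_pos hex, e]

theorem psi_far {z : ℂ} (h : ∀ l ∈ L0.lattice, 2 * ra ≤ ‖z - l‖) : psi z = z := by
  by_cases hex : ∃ l ∈ L0.lattice, ‖z - l‖ < 1 / 2
  · obtain ⟨l, hl, hl2⟩ := hex
    rw [psi_eq hl hl2, radC_large (h l hl)]; ring
  · rw [psi, dif_neg hex]

theorem psi_add (z : ℂ) {m : ℂ} (hm : m ∈ L0.lattice) : psi (z + m) = psi z + m := by
  by_cases hex : ∃ l ∈ L0.lattice, ‖z - l‖ < 1 / 2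
  · obtain ⟨l, hl, hl2⟩ := hex
    have h2 : ‖z + m - (l + m)‖ < 1 / 2 := by
      rw [show z + m - (l + m) = z - l by ring]; exact hl2
    rw [psi_eq hl hl2, psi_eq (add_mem hl hm) h2, show z + m - (l + m) = z - l by ring]; ring
  · have h1 : ∀ l ∈ L0.lattice, 2 * ra ≤ ‖z - l‖ := by
      intro l hl
      by_contra hc
      exact hex ⟨l, hl, by have := ra_lt; linarith⟩
    rw [psi_far h1, psi_far]
    intro l hl
    have := h1 (l - m) (sub_mem hl hm)
    rwa [show z - (l - m) = z + m - l by ring] at this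

theorem psi_om (z : ℂ) : psi (om * z) = om * psi z := by
  by_cases hex : ∃ l ∈ L0.lattice, ‖z - l‖ < 1 / 2
  · obtain ⟨l, hl, hl2⟩ := hex
    have h2 : ‖om * z - om * l‖ < 1 / 2 := by
      rw [← mul_sub, norm_mul, om_norm, one_mul]; exact hl2
    rw [psi_eq hl hl2, psi_eq (om_mul_mem hl) h2, ← mul_sub, radC_rot om_norm]; ring
  · have h1 : ∀ l ∈ L0.lattice, 2 * ra ≤ ‖z - l‖ := by
      intro l hl
      by_contra hc
      exact hex ⟨l, hl, by have := ra_lt; linarith⟩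
    rw [psi_far h1, psi_far]
    intro l hl
    have hl' : om⁻¹ * l ∈ L0.lattice := by
      rw [← om_mul_mem_iff, ← mul_assoc, mul_inv_cancel₀ om_ne_zero, one_mul]; exact hl
    have := h1 _ hl'
    have e : om * z - l = om * (z - om⁻¹ * l) := by
      rw [mul_sub, ← mul_assoc, mul_inv_cancel₀ om_ne_zero, one_mul]
    rw [e, norm_mul, om_norm, one_mul]; exact this

/-- a point of `U0` is either near a lattice point or far from all of them -/
theorem near_or_far (z : ℂ) : (∃ l ∈ L0.lattice, ‖z - l‖ < 1 / 2) ∨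
    ∀ l ∈ L0.lattice, 1 / 2 ≤ ‖z - l‖ := by
  by_cases hex : ∃ l ∈ L0.lattice, ‖z - l‖ < 1 / 2
  · exact Or.inl hex
  · right
    intro l hl
    by_contra hc
    exact hex ⟨l, hl, by linarith⟩

theorem psi_near {z l : ℂ} (hz : z ∈ U0) (hl : l ∈ L0.lattice) (h : ‖z - l‖ < 1 / 2) :
    ‖psi z - l‖ < 1 / 2 ∧ psi z - l ≠ 0 := by
  have hne : z - l ≠ 0 := by
    intro h0
    apply hz
    rw [sub_eq_zero] at h0
    rw [h0]; exact hl
  rw [psi_eq hl h, add_sub_cancel_left]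
  refine ⟨?_, radC_ne hne⟩
  rw [norm_radC hne]
  exact phR_lt_half (norm_pos_iff.mpr hne) h

theorem mem_U0_near {w l : ℂ} (hl : l ∈ L0.lattice) (h : ‖w - l‖ < 1 / 2) (hne : w - l ≠ 0) :
    w ∈ U0 := by
  intro hw
  have h1 := one_le_norm (sub_mem hw hl) hne
  linarith

theorem psi_U0 {z : ℂ} (hz : z ∈ U0) : psi z ∈ U0 := by
  rcases near_or_far z with ⟨l, hl, h⟩ | h
  · obtain ⟨h1, h2⟩ := psi_near hz hl h
    exact mem_U0_near hl h1 h2
  · rw [psi_far fun l hl => by have := h l hl; have := ra_lt; linarith]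
    exact hz

theorem psi_inj {z z' : ℂ} (hz : z ∈ U0) (hz' : z' ∈ U0) (h : psi z = psi z') : z = z' := by
  have key : ∀ {z z' : ℂ}, z ∈ U0 → z' ∈ U0 → psi z = psi z' →
      (∃ l ∈ L0.lattice, ‖z - l‖ < 1 / 2) → z = z' := by
    rintro z z' hz hz' h ⟨l, hl, hn⟩
    obtain ⟨h1, h2⟩ := psi_near hz hl hn
    have hnz : z - l ≠ 0 := by
      intro h0; apply hz; rw [sub_eq_zero] at h0; rw [h0]; exact hl
    rcases near_or_far z' with ⟨l', hl', hn'⟩ | hf
    · obtain ⟨h1', h2'⟩ := psi_near hz' hl' hn'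
      rw [← h] at h1'
      have e := lat_unique hl hl' h1 h1'
      subst e
      have hnz' : z' - l ≠ 0 := by
        intro h0; apply hz'; rw [sub_eq_zero] at h0; rw [h0]; exact hl
      rw [psi_eq hl hn, psi_eq hl hn'] at h
      have := radC_inj hnz hnz' (add_left_cancel h)
      linear_combination this
    · exfalso
      have h3 : psi z' = z' := psi_far fun l hl => by have := hf l hl; have := ra_lt; linarith
      rw [h, h3] at h1
      have := hf l hl
      linarith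
  rcases near_or_far z with hn | hf
  · exact key hz hz' h hn
  · rcases near_or_far z' with hn' | hf'
    · exact (key hz' hz h.symm hn').symm
    · rw [psi_far fun l hl => by have := hf l hl; have := ra_lt; linarith,
        psi_far fun l hl => by have := hf' l hl; have := ra_lt; linarith] at h
      exact h

theorem psi_inj_mod {z z' : ℂ} (hz : z ∈ U0) (hz' : z' ∈ U0) (h : psi z' - psi z ∈ L0.lattice) :
    z' - z ∈ L0.lattice := by
  have h1 : psi z' = psi (z + (psi z' - psi z)) := by rw [psi_add _ h]; ring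
  have hz2 : z + (psi z' - psi z) ∈ U0 := by
    intro hh
    apply hz
    have := sub_mem hh h
    rwa [add_sub_cancel_right] at this
  have h2 := psi_inj hz' hz2 h1
  rw [h2, add_sub_cancel_left]
  exact h

theorem psi_surj {w : ℂ} (hw : w ∈ U0) : ∃ z ∈ U0, psi z = w := by
  rcases near_or_far w with ⟨l, hl, hn⟩ | hf
  · have hnz : w - l ≠ 0 := by
      intro h0; apply hw; rw [sub_eq_zero] at h0; rw [h0]; exact hl
    obtain ⟨v, hv, hv2⟩ := radC_surj hnz
    have hvn : ‖v‖ < 1 / 2 := by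
      by_contra hc
      push Not at hc
      have h1 : ‖w - l‖ = phR ‖v‖ := by rw [← hv2, norm_radC hv]
      rw [phR_large (by have := ra_lt; linarith)] at h1
      linarith
    refine ⟨l + v, ?_, ?_⟩
    · apply mem_U0_near hl
      · rw [add_sub_cancel_left]; exact hvn
      · rw [add_sub_cancel_left]; exact hv
    · rw [psi_eq hl (by rw [add_sub_cancel_left]; exact hvn), add_sub_cancel_left, hv2]; ring
  · exact ⟨w, hw, psi_far fun l hl => by have := hf l hl; have := ra_lt; linarith⟩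

theorem psi_local {z : ℂ} (hz : z ∈ U0) : (∃ l ∈ L0.lattice, z - l ≠ 0 ∧
    psi =ᶠ[𝓝 z] fun w => l + radC (w - l)) ∨ psi =ᶠ[𝓝 z] fun w => w := by
  rcases near_or_far z with ⟨l, hl, hn⟩ | hf
  · left
    refine ⟨l, hl, ?_, ?_⟩
    · intro h0; apply hz; rw [sub_eq_zero] at h0; rw [h0]; exact hl
    · have : ∀ᶠ w in 𝓝 z, ‖w - l‖ < 1 / 2 :=
        (isOpen_lt (f := fun w : ℂ => ‖w - l‖) (by fun_prop) continuous_const).mem_nhds hn
      filter_upwards [this] with w hw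
      exact psi_eq hl hw
  · right
    have : ∀ᶠ w in 𝓝 z, ‖w - z‖ < 1 / 4 := by
      have := (isOpen_lt (f := fun w : ℂ => ‖w - z‖) (by fun_prop)
        (continuous_const (y := (1 / 4 : ℝ)))).mem_nhds (x := z) (by simp)
      exact this
    filter_upwards [this] with w hw
    apply psi_far
    intro l hl
    have h1 := hf l hl
    have h2 : ‖z - l‖ ≤ ‖w - l‖ + ‖w - z‖ := by
      have : z - l = (w - l) - (w - z) := by ring
      rw [this]; exact norm_sub_le _ _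
    have := ra_lt
    linarith

theorem contDiffAt_psi {z : ℂ} (hz : z ∈ U0) : ContDiffAt ℝ ∞ psi z := by
  rcases psi_local hz with ⟨l, hl, hne, he⟩ | he
  · refine ContDiffAt.congr_of_eventuallyEq ?_ he
    exact contDiffAt_const.add (ContDiffAt.comp z (g := radC) (f := fun w => w - l)
      (contDiffAt_radC hne) (contDiffAt_id.sub contDiffAt_const))
  · exact ContDiffAt.congr_of_eventuallyEq contDiffAt_id he

theorem psi_imm {z : ℂ} (hz : z ∈ U0) (v : ℂ) (hv : fderiv ℝ psi z v = 0) : v = 0 := by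
  rcases psi_local hz with ⟨l, hl, hne, he⟩ | he
  · rw [he.fderiv_eq] at hv
    have h1 : fderiv ℝ (fun w => l + radC (w - l)) z = fderiv ℝ radC (z - l) := by
      rw [fderiv_const_add]
      have h2 : fderiv ℝ (radC ∘ fun w => w - l) z =
          (fderiv ℝ radC (z - l)).comp (fderiv ℝ (fun w : ℂ => w - l) z) :=
        fderiv_comp z ((contDiffAt_radC hne).differentiableAt (by simp)) (by fun_prop)
      have h3 : fderiv ℝ (fun w : ℂ => w - l) z = ContinuousLinearMap.id ℝ ℂ := by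
        rw [fderiv_sub_const]; exact fderiv_id'
      rw [h3, ContinuousLinearMap.comp_id] at h2
      exact h2
    rw [h1] at hv
    exact radC_imm hne v hv
  · rw [he.fderiv_eq] at hv
    simpa using hv

/-- the open book with linear collar -/
def HH (z : ℂ) (t : ℝ) : ℍ[ℝ] := hh (psi z) t

theorem norm_HH {z : ℂ} (hz : z ∈ U0) (t : ℝ) : ‖HH z t‖ = 1 := norm_hh (psi_U0 hz) t

theorem HH_per (z : ℂ) (t : ℝ) {l : ℂ} (hl : l ∈ L0.lattice) : HH (z + l) t = HH z t := by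
  rw [HH, psi_add z hl, hh_per _ _ hl, HH]

theorem HH_om (z : ℂ) (t : ℝ) : HH (om * z) (t + 1) = HH z t := by
  rw [HH, psi_om, hh_om, HH]

theorem HH_mon (z : ℂ) (t : ℝ) : HH (om⁻¹ * z) t = HH z (t + 1) := by
  rw [← HH_om (om⁻¹ * z) t, ← mul_assoc, mul_inv_cancel₀ om_ne_zero, one_mul]

theorem contDiffAt_HH {z : ℂ} (hz : z ∈ U0) (t : ℝ) :
    ContDiffAt ℝ ∞ (fun p : ℂ × ℝ => HH p.1 p.2) (z, t) := by
  have h1 : ContDiffAt ℝ ∞ (fun p : ℂ × ℝ => (psi p.1, p.2)) (z, t) :=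
    (ContDiffAt.comp (z, t) (g := psi) (f := Prod.fst) (contDiffAt_psi hz) contDiffAt_fst).prodMk
      contDiffAt_snd
  exact ContDiffAt.comp (z, t) (g := fun p : ℂ × ℝ => hh p.1 p.2)
    (f := fun p : ℂ × ℝ => (psi p.1, p.2)) (contDiffAt_hh (psi_U0 hz) t) h1

theorem HH_imm {z : ℂ} (hz : z ∈ U0) (t : ℝ) (v : ℂ × ℝ)
    (h : fderiv ℝ (fun p : ℂ × ℝ => HH p.1 p.2) (z, t) v = 0) : v = 0 := by
  have hp : DifferentiableAt ℝ psi z := (contDiffAt_psi hz).differentiableAt (by simp)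
  have h1 : HasFDerivAt (fun p : ℂ × ℝ => (psi p.1, p.2))
      (((fderiv ℝ psi z).comp (ContinuousLinearMap.fst ℝ ℂ ℝ)).prod
        (ContinuousLinearMap.snd ℝ ℂ ℝ)) (z, t) := by
    have h2 : HasFDerivAt (psi ∘ Prod.fst) ((fderiv ℝ psi z).comp
      (ContinuousLinearMap.fst ℝ ℂ ℝ)) ((z, t) : ℂ × ℝ) :=
      HasFDerivAt.comp (z, t) (f := (Prod.fst : ℂ × ℝ → ℂ)) hp.hasFDerivAt hasFDerivAt_fst
    exact h2.prodMk hasFDerivAt_snd
  have hh1 : HasFDerivAt (fun p : ℂ × ℝ => hh p.1 p.2)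
      (fderiv ℝ (fun p : ℂ × ℝ => hh p.1 p.2) (psi z, t)) (psi z, t) :=
    ((contDiffAt_hh (psi_U0 hz) t).differentiableAt (by simp)).hasFDerivAt
  have h3 := (HasFDerivAt.comp (z, t) (f := fun p : ℂ × ℝ => (psi p.1, p.2)) hh1 h1).fderiv
  have h4 : fderiv ℝ (fun p : ℂ × ℝ => HH p.1 p.2) (z, t) =
      (fderiv ℝ (fun p : ℂ × ℝ => hh p.1 p.2) (psi z, t)).comp
        (((fderiv ℝ psi z).comp (ContinuousLinearMap.fst ℝ ℂ ℝ)).prod
        (ContinuousLinearMap.snd ℝ ℂ ℝ)) := h3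
  rw [h4] at h
  have h5 := hh_imm (psi_U0 hz) t _ h
  have h6 := congrArg Prod.fst h5
  have h7 := congrArg Prod.snd h5
  simp at h6 h7
  exact Prod.ext (psi_imm hz v.1 h6) h7

theorem HH_inj {z z' : ℂ} (hz : z ∈ U0) (hz' : z' ∈ U0) {t t' : ℝ} (ht : 0 ≤ t) (ht1 : t < 1)
    (ht' : 0 ≤ t') (ht1' : t' < 1) (h : HH z t = HH z' t') : t = t' ∧ z' - z ∈ L0.lattice := by
  obtain ⟨h1, h2⟩ := hh_inj (psi_U0 hz) (psi_U0 hz') ht ht1 ht' ht1' h
  exact ⟨h1, psi_inj_mod hz hz' h2⟩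

theorem HH_cover {q : ℍ[ℝ]} (hq : ‖q‖ = 1) :
    (∃ z ∈ U0, ∃ t : ℝ, 0 ≤ t ∧ t < 1 ∧ HH z t = q) ∨ ∃ x : ℝ, kc x 0 = q := by
  rcases sphere_cover hq with ⟨w, hw, t, h0, h1, h⟩ | h
  · left
    obtain ⟨z, hz, rfl⟩ := psi_surj hw
    exact ⟨z, hz, t, h0, h1, h⟩
  · exact Or.inr h

theorem kc_zero_ne_HH (x : ℝ) {z : ℂ} (hz : z ∈ U0) (t : ℝ) : kc x 0 ≠ HH z t :=
  kc_zero_ne_hh x (psi_U0 hz) t

/-- linear gluing of the collar -/
theorem HH_glue (x t : ℝ) {ρ : ℝ} (h0 : 0 < ρ) (h1 : ρ ≤ ra) :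
    kc x (ra ^ 5 * ρ * ee t) = HH (ρ * ee (t / 6) * ee x) t := by
  have hra := ra_lt
  have hr0 := ra_pos
  have hρ5 : 0 < ra ^ 5 * ρ := by positivity
  have hlt : ra ^ 5 * ρ < rad := by
    have : ra ^ 5 ≤ 1 := pow_le_one₀ hr0.le (by linarith)
    have h2 : ra ^ 5 * ρ ≤ 1 * ρ := mul_le_mul_of_nonneg_right this h0.le
    have h3 : rad = 2 * ra := by unfold ra; ring
    linarith
  have h2 := kc_glue x t hρ5 hlt
  have e1 : ((ra ^ 5 * ρ : ℝ) : ℂ) = (ra : ℂ) ^ 5 * (ρ : ℂ) := by push_cast; ring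
  rw [e1] at h2
  rw [h2, HH]
  have e2 : (ra ^ 5 * ρ) ^ (1 / 6 : ℝ) = sr ρ := by
    rw [sr, Real.mul_rpow (by positivity) h0.le, ← Real.rpow_natCast, ← Real.rpow_mul hr0.le]
    norm_num
  rw [e2]
  congr 1
  have hn : ‖(ρ : ℂ) * ee (t / 6) * ee x‖ = ρ := by
    rw [norm_mul, norm_mul, norm_ee, norm_ee, Complex.norm_real, Real.norm_of_nonneg h0.le]; ring
  have h3 : psi ((ρ : ℂ) * ee (t / 6) * ee x) = 0 + radC ((ρ : ℂ) * ee (t / 6) * ee x - 0) :=
    psi_eq (zero_mem _) (by rw [sub_zero, hn]; linarith)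
  rw [h3, sub_zero, zero_add, radC, hn, phR_small h1]
  push_cast
  have : (ρ : ℂ) ≠ 0 := by exact_mod_cast h0.ne'
  field_simp

end

end Pool.Agent.TRF
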