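import Pool.Agent.TRF.Nrm

/-!
# TRF/Ker: the kernel of the derivative of `Dn`
-/

open Complex Set Filter
open scoped Topology ContDiff Quaternion

namespace Pool.Agent.TRF

noncomputable section

theorem Dn_ker {p v : ℂ × ℂ} (hp : p ≠ 0) (h : fderiv ℝ Dn p v = 0) :
    ∃ c : ℝ, v = (((3 * c : ℝ) : ℂ) * p.1, ((2 * c : ℝ) : ℂ) * p.2) := by
  -- the curve
  have hP : HasDerivAt (fun τ : ℝ => p + τ • v) v 0 := by
    have := ((hasDerivAt_id (0 : ℝ)).smul_const v).const_add p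
    simpa using this
  have hP0 : p + (0 : ℝ) • v = p := by simp
  have hs : ∃ s' : ℝ, HasDerivAt (fun τ : ℝ => sc (p + τ • v)) s' 0 := by
    have h1 : DifferentiableAt ℝ sc (p + (0 : ℝ) • v) := by
      rw [hP0]; exact (contDiffAt_sc hp).differentiableAt (by simp)
    have h2 := h1.hasFDerivAt.comp_hasDerivAt 0 hP
    exact ⟨_, h2⟩
  obtain ⟨s', hs'⟩ := hs
  have hN : ∃ c₁ : ℝ, HasDerivAt (fun τ : ℝ => ‖ww (p + τ • v)‖) c₁ 0 := by
    have h2 : ContDiffAt ℝ ∞ (fun p => ‖ww p‖) (p + (0 : ℝ) • v) := by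
      rw [hP0]; exact (contDiffAt_ww hp).norm ℝ (ww_ne_zero hp)
    have h3 := (h2.differentiableAt (by simp)).hasFDerivAt.comp_hasDerivAt 0 hP
    exact ⟨_, h3⟩
  obtain ⟨c₁, hc₁⟩ := hN
  have hD : HasDerivAt (fun τ : ℝ => Dn (p + τ • v)) 0 0 := by
    have h1 : DifferentiableAt ℝ Dn (p + (0 : ℝ) • v) := by
      rw [hP0]; exact (contDiffAt_Dn hp).differentiableAt (by simp)
    have h2 := h1.hasFDerivAt.comp_hasDerivAt 0 hP
    rw [hP0, h] at h2
    exact h2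
  have hw1 : HasDerivAt (fun τ : ℝ => ww (p + τ • v)) (c₁ • Dn p) 0 := by
    have h1 := hc₁.smul hD
    rw [hP0, smul_zero, zero_add] at h1
    refine h1.congr_of_eventuallyEq ?_
    have h2 : ∀ᶠ τ in 𝓝 (0 : ℝ), p + τ • v ≠ 0 := by
      have : ContinuousAt (fun τ : ℝ => p + τ • v) 0 := hP.continuousAt
      apply this.eventually_ne
      rw [hP0]; exact hp
    filter_upwards [h2] with τ hτ
    simp only [Pi.smul_apply']
    rw [Dn, smul_smul, mul_inv_cancel₀ (norm_ne_zero_iff.mpr (ww_ne_zero hτ)), one_smul]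
  set N := ‖ww p‖ with hNdef
  have hN0 : 0 < N := norm_pos_iff.mpr (ww_ne_zero hp)
  set c := c₁ / N with hcdef
  have hw1' : HasDerivAt (fun τ : ℝ => ww (p + τ • v)) (c • ww p) 0 := by
    convert hw1 using 1
    rw [Dn, smul_smul, hcdef]
    rfl
  have hs0 := sc_pos hp
  have ha : HasDerivAt (fun τ : ℝ => (p + τ • v).1) v.1 0 := by
    have := (ContinuousLinearMap.fst ℝ ℂ ℂ).hasFDerivAt.comp_hasDerivAt (0 : ℝ) hP
    exact this
  have hb : HasDerivAt (fun τ : ℝ => (p + τ • v).2) v.2 0 := by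
    have := (ContinuousLinearMap.snd ℝ ℂ ℂ).hasFDerivAt.comp_hasDerivAt (0 : ℝ) hP
    exact this
  have hsi : HasDerivAt (fun τ : ℝ => (((sc (p + τ • v))⁻¹ : ℝ) : ℂ))
      ((-s' / (sc p) ^ 2 : ℝ) : ℂ) 0 := by
    have h1 : sc (p + (0 : ℝ) • v) ≠ 0 := by rw [hP0]; exact hs0.ne'
    have h2 := (hs'.fun_inv h1).ofReal_comp
    simpa only [hP0] using h2
  have hw2 : HasDerivAt (fun τ : ℝ => ww (p + τ • v))
      (qq (((-s' / (sc p) ^ 2 : ℝ) : ℂ) * p.1 + (((sc p)⁻¹ : ℝ) : ℂ) * v.1) v.2) 0 := by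
    have h1 := hsi.mul ha
    have h2 := h1.prodMk hb
    have h3 := qqL.hasFDerivAt.comp_hasDerivAt (0 : ℝ) h2
    simpa only [hP0] using! h3
  have hcomp := hw1'.unique hw2
  have hcc : c • ww p = qq ((c : ℂ) * ((((sc p)⁻¹ : ℝ) : ℂ) * p.1)) ((c : ℂ) * p.2) := by
    rw [ww, qq_smul]
  rw [hcc] at hcomp
  obtain ⟨e1, e2⟩ := qq_inj hcomp
  -- `v.1 = (c + s'/s) a`
  have hsC : ((sc p : ℝ) : ℂ) ≠ 0 := by exact_mod_cast hs0.ne'
  set x := s' / sc p with hx
  have e1' : v.1 = ((c + x : ℝ) : ℂ) * p.1 := by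
    rw [hx]
    push_cast at e1 ⊢
    field_simp at e1 ⊢
    linear_combination -e1
  -- derivative of `s ^ 12`
  have hpow : HasDerivAt (fun τ : ℝ => sc (p + τ • v) ^ 12) (12 * sc p ^ 11 * s') 0 := by
    have := hs'.fun_pow 12
    simpa [hP0] using this
  have hn : HasDerivAt (fun τ : ℝ => n6 (p + τ • v))
      (2 * ‖p.1‖ ^ 2 * (2 * inner ℝ p.1 v.1) + 3 * (‖p.2‖ ^ 2) ^ 2 * (2 * inner ℝ p.2 v.2)) 0 := by
    have h1 := (ha.norm_sq).pow 2
    have h2 := (hb.norm_sq).pow 3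
    have h3 := h1.add h2
    simp only [hP0] at h3
    convert! h3 using 1
    norm_num
  have he : (fun τ : ℝ => n6 (p + τ • v)) = fun τ : ℝ => sc (p + τ • v) ^ 12 := by
    ext τ; rw [sc_pow]
  rw [he] at hn
  have e3 := hpow.unique hn
  have i1 : inner ℝ p.1 v.1 = (c + x) * ‖p.1‖ ^ 2 := by
    rw [e1', ← real_inner_self_eq_norm_sq]
    rw [show ((c + x : ℝ) : ℂ) * p.1 = (c + x) • p.1 by simp]
    rw [real_inner_smul_right]
  have i2 : inner ℝ p.2 v.2 = c * ‖p.2‖ ^ 2 := by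
    rw [← e2, ← real_inner_self_eq_norm_sq]
    rw [show (c : ℂ) * p.2 = c • p.2 by simp]
    rw [real_inner_smul_right]
  rw [i1, i2] at e3
  have e4 := sc_pow p
  rw [n6] at e4
  have hxs : s' = x * sc p := by rw [hx]; field_simp
  set α := (‖p.1‖ ^ 2) ^ 2 with hα
  set β := (‖p.2‖ ^ 2) ^ 3 with hβ
  have e5 : 12 * x * (α + β) = 4 * (c + x) * α + 6 * c * β := by
    rw [← e4, hα, hβ]
    rw [hxs] at e3
    linear_combination e3
  have hpos : 0 < 4 * α + 6 * β := by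
    have := n6_pos hp
    rw [n6] at this
    have h1 : 0 ≤ α := by positivity
    have h2 : 0 ≤ β := by positivity
    linarith
  have e6 : (2 * x - c) * (4 * α + 6 * β) = 0 := by linear_combination e5
  have e7 : 2 * x - c = 0 := (mul_eq_zero.mp e6).resolve_right hpos.ne'
  refine ⟨x, Prod.ext ?_ ?_⟩
  · simp only
    rw [e1']
    congr 2
    linarith
  · simp only
    rw [← e2]
    congr 2
    linarith

end

end Pool.Agent.TRF
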