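import Pool.Agent.TRF.Wp
import Pool.Agent.TRF.Ker

/-!
# TRF/Hmap: the open book `hh : (ℂ - Λ) × ℝ → S³`
-/

open Complex PeriodPair Set Filter
open scoped Topology ContDiff Quaternion

namespace Pool.Agent.TRF

noncomputable section

/-- `e^{2 π i x}` -/
def ee (x : ℝ) : ℂ := Complex.exp (2 * Real.pi * x * I)

theorem ee_add (x y : ℝ) : ee (x + y) = ee x * ee y := by
  rw [ee, ee, ee, ← Complex.exp_add]; congr 1; push_cast; ring

theorem ee_zero : ee 0 = 1 := by simp [ee]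

theorem ee_ne_zero (x : ℝ) : ee x ≠ 0 := Complex.exp_ne_zero _

theorem ee_one : ee 1 = 1 := by
  rw [ee]; push_cast; rw [mul_one]; exact Complex.exp_two_pi_mul_I

theorem ee_half : ee (1 / 2) = -1 := by
  rw [ee]
  rw [show (2 * Real.pi * ((1 / 2 : ℝ) : ℂ) * I : ℂ) = Real.pi * I by push_cast; ring]
  exact Complex.exp_pi_mul_I

theorem ee_int (n : ℤ) : ee n = 1 := by
  rw [ee]
  rw [show (2 * Real.pi * ((n : ℝ) : ℂ) * I : ℂ) = n * (2 * Real.pi * I) by push_cast; ring]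
  exact Complex.exp_int_mul_two_pi_mul_I n

theorem norm_ee (x : ℝ) : ‖ee x‖ = 1 := by
  rw [ee, show (2 * Real.pi * x * I : ℂ) = ((2 * Real.pi * x : ℝ) : ℂ) * I by push_cast; ring]
  exact Complex.norm_exp_ofReal_mul_I _

theorem ee_pow (x : ℝ) (n : ℕ) : ee x ^ n = ee (n * x) := by
  rw [ee, ee, ← Complex.exp_nat_mul]; congr 1; push_cast; ring

theorem ee_eq_iff {x y : ℝ} : ee x = ee y ↔ ∃ n : ℤ, x = y + n := by
  rw [ee, ee, Complex.exp_eq_exp_iff_exists_int]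
  constructor
  · rintro ⟨n, hn⟩
    refine ⟨n, ?_⟩
    have h1 : (2 * Real.pi * I : ℂ) ≠ 0 := by simp [Real.pi_ne_zero]
    have h2 : (2 * Real.pi * I : ℂ) * (x - (y + n)) = 0 := by linear_combination hn
    rcases mul_eq_zero.mp h2 with h | h
    · exact absurd h h1
    · have h3 : ((x : ℝ) : ℂ) = ((y + n : ℝ) : ℂ) := by
        push_cast; linear_combination h
      exact_mod_cast h3
  · rintro ⟨n, hn⟩
    exact ⟨n, by rw [hn]; push_cast; ring⟩

theorem om_eq_ee : om = ee (1 / 6) := by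
  rw [om_eq_exp, ee]; congr 1; push_cast; ring

theorem contDiff_ee : ContDiff ℝ ∞ ee := by
  unfold ee
  have h1 : ContDiff ℝ ∞ fun x : ℝ => (2 * Real.pi * x * I : ℂ) := by
    have : ContDiff ℝ ∞ fun x : ℝ => (x : ℂ) := Complex.ofRealCLM.contDiff
    fun_prop
  exact h1.cexp

theorem hasDerivAt_ee (x : ℝ) : HasDerivAt ee (2 * Real.pi * I * ee x) x := by
  have h1 : HasDerivAt (fun x : ℝ => (2 * Real.pi * x * I : ℂ)) (2 * Real.pi * I) x := by
    have h2 := ((Complex.ofRealCLM.hasDerivAt (x := x)).const_mul (2 * Real.pi : ℂ)).mul_const I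
    refine h2.congr_deriv ?_
    simp
  have h3 := h1.cexp
  refine h3.congr_deriv ?_
  rw [ee]; ring

/-- the map to `ℂ²` -/
def gam (z : ℂ) (t : ℝ) : ℂ × ℂ := (ee (t / 2) * ℘'[L0] z / 2, ee (t / 3) * ℘[L0] z)

/-- the equation of the trefoil -/
def ff (p : ℂ × ℂ) : ℂ := p.1 ^ 2 - p.2 ^ 3

theorem ff_gam {z : ℂ} (hz : z ∈ U0) (t : ℝ) : ff (gam z t) = ee t * (-L0.g₃ / 4) := by
  have h1 := wp_sq z hz
  have h2 : ee (t / 2) ^ 2 = ee t := by rw [ee_pow]; congr 1; push_cast; ring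
  have h3 : ee (t / 3) ^ 3 = ee t := by rw [ee_pow]; congr 1; push_cast; ring
  simp only [ff, gam]
  rw [mul_pow, div_pow, mul_pow, h2, h3, h1]
  ring

theorem ff_gam_ne {z : ℂ} (hz : z ∈ U0) (t : ℝ) : ff (gam z t) ≠ 0 := by
  rw [ff_gam hz]
  exact mul_ne_zero (ee_ne_zero _) (div_ne_zero (neg_ne_zero.mpr g3_ne_zero) (by norm_num))

theorem ff_zero : ff 0 = 0 := by simp [ff]

theorem gam_ne_zero {z : ℂ} (hz : z ∈ U0) (t : ℝ) : gam z t ≠ 0 := by
  intro h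
  apply ff_gam_ne hz t
  rw [h, ff_zero]

theorem ff_weight (μ : ℝ) (p : ℂ × ℂ) :
    ff ((μ : ℂ) ^ 3 * p.1, (μ : ℂ) ^ 2 * p.2) = (μ : ℂ) ^ 6 * ff p := by
  simp only [ff]; ring

/-- the open book -/
def hh (z : ℂ) (t : ℝ) : ℍ[ℝ] := Dn (gam z t)

theorem norm_hh {z : ℂ} (hz : z ∈ U0) (t : ℝ) : ‖hh z t‖ = 1 := norm_Dn (gam_ne_zero hz t)

theorem hh_per (z : ℂ) (t : ℝ) {l : ℂ} (hl : l ∈ L0.lattice) : hh (z + l) t = hh z t := by
  have h1 := L0.weierstrassP_add_coe z ⟨l, hl⟩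
  have h2 := L0.derivWeierstrassP_add_coe z ⟨l, hl⟩
  simp only at h1 h2
  rw [hh, hh, gam, gam, h1, h2]

theorem hh_mon (z : ℂ) (t : ℝ) : hh z (t + 1) = hh (om⁻¹ * z) t := by
  have h1 := wp_om (om⁻¹ * z)
  have h2 := wpd_om (om⁻¹ * z)
  rw [← mul_assoc, mul_inv_cancel₀ om_ne_zero, one_mul] at h1 h2
  have e1 : ee ((t + 1) / 2) = - ee (t / 2) := by
    rw [add_div, ee_add, ee_half]; ring
  have e2 : ee ((t + 1) / 3) = om ^ 2 * ee (t / 3) := by
    rw [add_div, ee_add, om_eq_ee, ee_pow]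
    rw [show ((2 : ℕ) : ℝ) * (1 / 6) = 1 / 3 by norm_num]
    ring
  rw [hh, hh, gam, gam, e1, e2, ← h1]
  have h2' : ℘'[L0] (om⁻¹ * z) = -℘'[L0] z := by rw [h2, neg_neg]
  rw [h2']
  congr 2
  · ring
  · ring

theorem hh_om (z : ℂ) (t : ℝ) : hh (om * z) (t + 1) = hh z t := by
  rw [hh_mon, ← mul_assoc, inv_mul_cancel₀ om_ne_zero, one_mul]

theorem contDiffAt_gam {z : ℂ} (hz : z ∈ U0) (t : ℝ) :
    ContDiffAt ℝ ∞ (fun p : ℂ × ℝ => gam p.1 p.2) (z, t) := by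
  have h1 : ContDiffAt ℝ ∞ ℘[L0] z :=
    ((wp_analytic z hz).contDiffAt (n := ∞)).restrict_scalars ℝ
  have h2 : ContDiffAt ℝ ∞ ℘'[L0] z :=
    ((wpd_analytic z hz).contDiffAt (n := ∞)).restrict_scalars ℝ
  have h3 : ContDiffAt ℝ ∞ (fun p : ℂ × ℝ => ℘[L0] p.1) (z, t) :=
    ContDiffAt.comp (z, t) (g := ℘[L0]) (f := Prod.fst) h1 contDiffAt_fst
  have h4 : ContDiffAt ℝ ∞ (fun p : ℂ × ℝ => ℘'[L0] p.1) (z, t) :=
    ContDiffAt.comp (z, t) (g := ℘'[L0]) (f := Prod.fst) h2 contDiffAt_fst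
  have h5 : ∀ c : ℝ, ContDiffAt ℝ ∞ (fun p : ℂ × ℝ => ee (p.2 / c)) (z, t) := fun c =>
    (contDiff_ee.contDiffAt).comp (z, t) (contDiffAt_snd.div_const c)
  exact (((h5 2).mul h4).div_const 2).prodMk ((h5 3).mul h3)

theorem contDiffAt_hh {z : ℂ} (hz : z ∈ U0) (t : ℝ) :
    ContDiffAt ℝ ∞ (fun p : ℂ × ℝ => hh p.1 p.2) (z, t) :=
  (contDiffAt_Dn (gam_ne_zero hz t)).comp (z, t) (contDiffAt_gam hz t)

theorem hh_imm {z : ℂ} (hz : z ∈ U0) (t : ℝ) (v : ℂ × ℝ)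
    (h : fderiv ℝ (fun p : ℂ × ℝ => hh p.1 p.2) (z, t) v = 0) : v = 0 := by
  have hg := contDiffAt_gam hz t
  have hgd := hg.differentiableAt (by simp)
  have hDd : DifferentiableAt ℝ Dn (gam z t) :=
    (contDiffAt_Dn (gam_ne_zero hz t)).differentiableAt (by simp)
  have h1 : fderiv ℝ (fun p : ℂ × ℝ => hh p.1 p.2) (z, t) =
      (fderiv ℝ Dn (gam z t)).comp (fderiv ℝ (fun p : ℂ × ℝ => gam p.1 p.2) (z, t)) :=
    fderiv_comp (z, t) (f := fun p : ℂ × ℝ => gam p.1 p.2) (g := Dn) hDd hgd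
  rw [h1] at h
  obtain ⟨c, hc⟩ := Dn_ker (gam_ne_zero hz t) h
  -- the curve
  have hP : HasDerivAt (fun τ : ℝ => ((z, t) : ℂ × ℝ) + τ • v) v 0 := by
    have := ((hasDerivAt_id (0 : ℝ)).smul_const v).const_add ((z, t) : ℂ × ℝ)
    simpa using this
  have hP0 : ((z, t) : ℂ × ℝ) + (0 : ℝ) • v = (z, t) := by simp
  have hgc : HasDerivAt (fun τ : ℝ => gam (z + τ * v.1) (t + τ * v.2))
      (fderiv ℝ (fun p : ℂ × ℝ => gam p.1 p.2) (z, t) v) 0 := by
    have h2 : HasFDerivAt (fun p : ℂ × ℝ => gam p.1 p.2)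
      (fderiv ℝ (fun p : ℂ × ℝ => gam p.1 p.2) (z, t)) (((z, t) : ℂ × ℝ) + (0 : ℝ) • v) := by
      rw [hP0]; exact hgd.hasFDerivAt
    have h3 := h2.comp_hasDerivAt 0 hP
    refine h3.congr_of_eventuallyEq (Eventually.of_forall fun τ => ?_)
    simp
  rw [show (fderiv ℝ (fun p : ℂ × ℝ => gam p.1 p.2) (z, t)) v = _ from hc] at hgc
  have ht : HasDerivAt (fun τ : ℝ => t + τ * v.2) v.2 0 := by
    have := ((hasDerivAt_id (0 : ℝ)).mul_const v.2).const_add t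
    simpa using this
  have hzc : HasDerivAt (fun τ : ℝ => z + τ * v.1) v.1 0 := by
    have h2 := ((Complex.ofRealCLM.hasDerivAt (x := (0 : ℝ))).mul_const v.1).const_add z
    simpa using! h2
  have hU : ∀ᶠ τ : ℝ in 𝓝 (0 : ℝ), z + (τ : ℂ) * v.1 ∈ U0 := by
    apply hzc.continuousAt.eventually_mem
    simpa using isOpen_U0.mem_nhds hz
  -- component derivatives
  have hg1 : HasDerivAt (fun τ : ℝ => (gam (z + τ * v.1) (t + τ * v.2)).1)
      (((3 * c : ℝ) : ℂ) * (gam z t).1) 0 := by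
    have := (ContinuousLinearMap.fst ℝ ℂ ℂ).hasFDerivAt.comp_hasDerivAt (0 : ℝ) hgc
    exact this
  have hg2 : HasDerivAt (fun τ : ℝ => (gam (z + τ * v.1) (t + τ * v.2)).2)
      (((2 * c : ℝ) : ℂ) * (gam z t).2) 0 := by
    have := (ContinuousLinearMap.snd ℝ ℂ ℂ).hasFDerivAt.comp_hasDerivAt (0 : ℝ) hgc
    exact this
  have hz0 : z + ((0 : ℝ) : ℂ) * v.1 = z := by simp
  have ht0 : t + 0 * v.2 = t := by simp
  -- derivative of f
  have hf1 : HasDerivAt (fun τ : ℝ => ff (gam (z + τ * v.1) (t + τ * v.2)))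
      (((6 * c : ℝ) : ℂ) * ff (gam z t)) 0 := by
    have h2 := (hg1.fun_pow 2).sub (hg2.fun_pow 3)
    rw [hz0, ht0] at h2
    refine h2.congr_deriv ?_
    simp only [ff]
    push_cast
    ring
  have heet : HasDerivAt (fun τ : ℝ => ee (t + τ * v.2)) (v.2 * (2 * Real.pi * I * ee t)) 0 := by
    have h2 : HasDerivAt ee (2 * Real.pi * I * ee t) (t + 0 * v.2) := by
      rw [ht0]; exact hasDerivAt_ee t
    have h3 := h2.scomp (0 : ℝ) ht
    simpa using! h3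
  have hf2 : HasDerivAt (fun τ : ℝ => ff (gam (z + τ * v.1) (t + τ * v.2)))
      (v.2 * (2 * Real.pi * I) * ff (gam z t)) 0 := by
    have h2 := heet.mul_const (-L0.g₃ / 4)
    have h3 : v.2 * (2 * Real.pi * I * ee t) * (-L0.g₃ / 4) =
      v.2 * (2 * Real.pi * I) * ff (gam z t) := by rw [ff_gam hz]; ring
    rw [h3] at h2
    refine h2.congr_of_eventuallyEq ?_
    filter_upwards [hU] with τ hτ
    rw [ff_gam hτ]
  have e1 := mul_right_cancel₀ (ff_gam_ne hz t) (hf1.unique hf2)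
  have e2 := congrArg Complex.im e1
  have e3 := congrArg Complex.re e1
  simp at e2 e3
  have hv2 : v.2 = 0 := e2
  -- then `v.1 = 0`
  subst e3
  have hex1 : ee ((t + 0 * v.2) / 2) = ee (t / 2) := by rw [ht0]
  have hg1' : HasDerivAt (fun τ : ℝ => (gam (z + τ * v.1) (t + τ * v.2)).1)
      (ee (t / 2) * (v.1 * deriv ℘'[L0] z) / 2) 0 := by
    have h2 : HasDerivAt ℘'[L0] (deriv ℘'[L0] z) (z + ((0 : ℝ) : ℂ) * v.1) := by
      rw [hz0]; exact (wpd_analytic z hz).differentiableAt.hasDerivAt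
    have h3 := h2.scomp (0 : ℝ) hzc
    have h4 := (h3.const_mul (ee (t / 2))).div_const 2
    refine h4.congr_of_eventuallyEq (Eventually.of_forall fun τ => ?_)
    simp only [gam, hv2, mul_zero, add_zero, Function.comp]
  have hg2' : HasDerivAt (fun τ : ℝ => (gam (z + τ * v.1) (t + τ * v.2)).2)
      (ee (t / 3) * (v.1 * ℘'[L0] z)) 0 := by
    have h2 : HasDerivAt ℘[L0] (℘'[L0] z) (z + ((0 : ℝ) : ℂ) * v.1) := by
      rw [hz0]; exact wp_hasDerivAt hz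
    have h3 := h2.scomp (0 : ℝ) hzc
    have h4 := h3.const_mul (ee (t / 3))
    refine h4.congr_of_eventuallyEq (Eventually.of_forall fun τ => ?_)
    simp only [gam, hv2, mul_zero, add_zero, Function.comp]
  have k1 := hg1.unique hg1'
  have k2 := hg2.unique hg2'
  have hv1 : v.1 = 0 := by
    rcases wpd_or hz with hw | hw
    · simp at k2
      rcases k2 with k | k | k
      · exact absurd k (ee_ne_zero _)
      · exact k
      · exact absurd k hw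
    · have k3 : ee (t / 2) * (v.1 * deriv ℘'[L0] z) = 0 := by
        have k4 : (0 : ℂ) = ee (t / 2) * (v.1 * deriv ℘'[L0] z) / 2 := by
          rw [← k1]; simp
        linear_combination -2 * k4
      rcases mul_eq_zero.mp k3 with k | k
      · exact absurd k (ee_ne_zero _)
      · exact (mul_eq_zero.mp k).resolve_right hw
  exact Prod.ext hv1 hv2

theorem hh_inj {z z' : ℂ} (hz : z ∈ U0) (hz' : z' ∈ U0) {t t' : ℝ} (ht : 0 ≤ t) (ht1 : t < 1)
    (ht' : 0 ≤ t') (ht1' : t' < 1) (h : hh z t = hh z' t') : t = t' ∧ z' - z ∈ L0.lattice := by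
  obtain ⟨μ, hμ, e⟩ := Dn_inj (gam_ne_zero hz t) (gam_ne_zero hz' t') h
  have h1 : ff (gam z t) = (μ : ℂ) ^ 6 * ff (gam z' t') := by
    rw [e, ff_weight]
  rw [ff_gam hz, ff_gam hz'] at h1
  have hg : (-L0.g₃ / 4) ≠ 0 := div_ne_zero (neg_ne_zero.mpr g3_ne_zero) (by norm_num)
  have h2 : ee t = (μ : ℂ) ^ 6 * ee t' := mul_right_cancel₀ hg (by linear_combination h1)
  have h3 : μ = 1 := by
    have := congrArg norm h2
    rw [norm_mul, norm_ee, norm_ee, norm_pow, Complex.norm_real, Real.norm_of_nonneg hμ.le,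
      mul_one] at this
    exact (pow_eq_one_iff_of_nonneg hμ.le (by norm_num)).mp this.symm
  subst h3
  simp only [ofReal_one, one_pow, one_mul] at h2 e
  obtain ⟨n, hn⟩ := ee_eq_iff.mp h2
  have hn0 : n = 0 := by
    have h4 : (n : ℝ) < 1 := by linarith
    have h5 : (-1 : ℝ) < n := by linarith
    have h6 : n < 1 := by exact_mod_cast h4
    have h7 : -1 < n := by exact_mod_cast h5
    omega
  subst hn0
  have htt : t = t' := by rw [hn]; simp
  subst htt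
  refine ⟨rfl, ?_⟩
  have e1 := congrArg Prod.fst e
  have e2 := congrArg Prod.snd e
  simp only [gam] at e1 e2
  apply curve_inj hz hz'
  · exact mul_left_cancel₀ (ee_ne_zero _) e2
  · have : ee (t / 2) / 2 ≠ 0 := div_ne_zero (ee_ne_zero _) (by norm_num)
    apply mul_left_cancel₀ this
    linear_combination e1

/-- every `c ≠ 0` is `μ ^ 6 e^{2 π i t} c₀` -/
theorem polar_exists {c c₀ : ℂ} (hc : c ≠ 0) (hc₀ : c₀ ≠ 0) :
    ∃ μ : ℝ, 0 < μ ∧ ∃ t : ℝ, 0 ≤ t ∧ t < 1 ∧ c = (μ : ℂ) ^ 6 * (ee t * c₀) := by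
  have h1 : c / c₀ ≠ 0 := div_ne_zero hc hc₀
  have h2 := norm_pos_iff.mpr h1
  refine ⟨‖c / c₀‖ ^ (1 / 6 : ℝ), Real.rpow_pos_of_pos h2 _, Int.fract (arg (c / c₀) / (2 * Real.pi)),
    Int.fract_nonneg _, Int.fract_lt_one _, ?_⟩
  have h3 : (‖c / c₀‖ ^ (1 / 6 : ℝ)) ^ 6 = ‖c / c₀‖ := by
    rw [← Real.rpow_natCast, ← Real.rpow_mul h2.le]; norm_num
  have h4 : ee (Int.fract (arg (c / c₀) / (2 * Real.pi))) = ee (arg (c / c₀) / (2 * Real.pi)) := by
    rw [ee_eq_iff]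
    refine ⟨-⌊arg (c / c₀) / (2 * Real.pi)⌋, ?_⟩
    rw [Int.fract]; push_cast; ring
  have h5 : ee (arg (c / c₀) / (2 * Real.pi)) = Complex.exp (arg (c / c₀) * I) := by
    rw [ee]; congr 1
    have : (Real.pi : ℂ) ≠ 0 := by exact_mod_cast Real.pi_ne_zero
    push_cast
    field_simp
  have h6 : (((‖c / c₀‖ ^ (1 / 6 : ℝ) : ℝ)) : ℂ) ^ 6 = (‖c / c₀‖ : ℂ) := by
    rw [← Complex.ofReal_pow, h3]
  rw [h4, h5, h6, ← mul_assoc, Complex.norm_mul_exp_arg_mul_I, div_mul_cancel₀ c hc₀]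

/-- the complement of the trefoil is covered by `hh` -/
theorem hh_cover {p : ℂ × ℂ} (hp : ff p ≠ 0) : ∃ z ∈ U0, ∃ t : ℝ, 0 ≤ t ∧ t < 1 ∧ hh z t = Dn p := by
  have hg : (-L0.g₃ / 4) ≠ 0 := div_ne_zero (neg_ne_zero.mpr g3_ne_zero) (by norm_num)
  obtain ⟨μ, hμ, t, ht, ht1, e⟩ := polar_exists hp hg
  have hμC : (μ : ℂ) ≠ 0 := by exact_mod_cast hμ.ne'
  set a : ℂ := 2 * p.1 / ((μ : ℂ) ^ 3 * ee (t / 2)) with ha
  set b : ℂ := p.2 / ((μ : ℂ) ^ 2 * ee (t / 3)) with hb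
  have h2 : ee (t / 2) ^ 2 = ee t := by rw [ee_pow]; congr 1; push_cast; ring
  have h3 : ee (t / 3) ^ 3 = ee t := by rw [ee_pow]; congr 1; push_cast; ring
  have hab : a ^ 2 = 4 * b ^ 3 - L0.g₃ := by
    have e2 := ee_ne_zero (t / 2)
    have e3 := ee_ne_zero (t / 3)
    have e0 := ee_ne_zero t
    rw [ha, hb, div_pow, div_pow, mul_pow, mul_pow, mul_pow, h2, h3, ← pow_mul, ← pow_mul]
    simp only [ff] at e
    field_simp
    norm_num
    linear_combination 4 * e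
  obtain ⟨z, hz, hzb, hza⟩ := curve_surj hab
  refine ⟨z, hz, t, ht, ht1, ?_⟩
  rw [hh]
  have : p = ((μ : ℂ) ^ 3 * (gam z t).1, (μ : ℂ) ^ 2 * (gam z t).2) := by
    have e2 := ee_ne_zero (t / 2)
    have e3 := ee_ne_zero (t / 3)
    simp only [gam, hza, hzb, ha, hb]
    refine Prod.ext ?_ ?_
    · simp only
      field_simp
    · simp only
      field_simp
  rw [this, Dn_weight hμ]

end

end Pool.Agent.TRF
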