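import Pool.Agent.TRF.Col

/-!
# TRF/Kc: the collar of the binding
-/

open Complex PeriodPair Set Filter
open scoped Topology ContDiff Quaternion

namespace Pool.Agent.TRF

noncomputable section

/-- the radius of the collar (in the variable `Q = r ^ 6 e^{2 π i t}`) -/
def rad : ℝ := Classical.choose exists_rad

theorem rad_pos : 0 < rad := (Classical.choose_spec exists_rad).1

theorem rad_lt : rad < 1 / 64 := (Classical.choose_spec exists_rad).2.1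

theorem Gf_ne {Z : ℂ} (h : ‖Z‖ < rad) : Gf Z ≠ 0 := ((Classical.choose_spec exists_rad).2.2 Z h).1

theorem Kf_ne {Z : ℂ} (h : ‖Z‖ < rad) : Kf Z ≠ 0 := ((Classical.choose_spec exists_rad).2.2 Z h).2

theorem norm_lt_one_of_rad {Z : ℂ} (h : ‖Z‖ < rad) : ‖Z‖ < 1 := by
  have := rad_lt; linarith

/-- collar in `ℂ²` -/
def pc (x : ℝ) (Q : ℂ) : ℂ × ℂ :=
  (-ee (-(3 * x)) * Kf (Q * ee (6 * x)), ee (-(2 * x)) * Gf (Q * ee (6 * x)))

/-- collar in the sphere -/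
def kc (x : ℝ) (Q : ℂ) : ℍ[ℝ] := Dn (pc x Q)

theorem norm_mul_ee (Q : ℂ) (x : ℝ) : ‖Q * ee x‖ = ‖Q‖ := by rw [norm_mul, norm_ee, mul_one]

theorem ff_pc (x : ℝ) {Q : ℂ} (hQ : ‖Q‖ < rad) : ff (pc x Q) = -L0.g₃ / 4 * Q := by
  have h1 := KG_rel (Z := Q * ee (6 * x)) (by rw [norm_mul_ee]; exact norm_lt_one_of_rad hQ)
  have e1 : ee (-(3 * x)) ^ 2 * ee (6 * x) = 1 := by
    rw [ee_pow, ← ee_add, ← ee_zero]; congr 1; push_cast; ring
  have e2 : ee (-(2 * x)) ^ 3 = ee (-(3 * x)) ^ 2 := by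
    rw [ee_pow, ee_pow]; congr 1; push_cast; ring
  simp only [ff, pc]
  rw [mul_pow, mul_pow, neg_sq, e2, h1]
  linear_combination (-L0.g₃ / 4 * Q) * e1

theorem pc_snd_ne (x : ℝ) {Q : ℂ} (hQ : ‖Q‖ < rad) : (pc x Q).2 ≠ 0 :=
  mul_ne_zero (ee_ne_zero _) (Gf_ne (by rw [norm_mul_ee]; exact hQ))

theorem pc_ne_zero (x : ℝ) {Q : ℂ} (hQ : ‖Q‖ < rad) : pc x Q ≠ 0 := by
  intro h
  exact pc_snd_ne x hQ (by rw [h]; rfl)

theorem norm_kc (x : ℝ) {Q : ℂ} (hQ : ‖Q‖ < rad) : ‖kc x Q‖ = 1 := norm_Dn (pc_ne_zero x hQ)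

theorem kc_per (x : ℝ) (Q : ℂ) (n : ℤ) : kc (x + n) Q = kc x Q := by
  have e1 : ee (-(3 * (x + n))) = ee (-(3 * x)) := by
    rw [ee_eq_iff]; exact ⟨-(3 * n), by push_cast; ring⟩
  have e2 : ee (-(2 * (x + n))) = ee (-(2 * x)) := by
    rw [ee_eq_iff]; exact ⟨-(2 * n), by push_cast; ring⟩
  have e3 : ee (6 * (x + n)) = ee (6 * x) := by
    rw [ee_eq_iff]; exact ⟨6 * n, by push_cast; ring⟩
  rw [kc, kc, pc, pc, e1, e2, e3]

theorem contDiffAt_pc (x : ℝ) {Q : ℂ} (hQ : ‖Q‖ < rad) :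
    ContDiffAt ℝ ∞ (fun p : ℝ × ℂ => pc p.1 p.2) (x, Q) := by
  have hZ : ContDiffAt ℝ ∞ (fun p : ℝ × ℂ => p.2 * ee (6 * p.1)) (x, Q) := by
    have h1 : ContDiffAt ℝ ∞ (fun p : ℝ × ℂ => ee (6 * p.1)) (x, Q) :=
      (contDiff_ee.contDiffAt).comp (x, Q) (contDiffAt_const.mul contDiffAt_fst)
    exact contDiffAt_snd.mul h1
  have hmem : Q * ee (6 * x) ∈ Metric.ball (0 : ℂ) 1 := by
    rw [mem_ball_zero_iff, norm_mul_ee]; exact norm_lt_one_of_rad hQ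
  have hK : ContDiffAt ℝ ∞ Kf (Q * ee (6 * x)) :=
    ((analyticOn_Kf _ hmem).contDiffAt (n := ∞)).restrict_scalars ℝ
  have hG : ContDiffAt ℝ ∞ Gf (Q * ee (6 * x)) :=
    ((analyticOn_Gf _ hmem).contDiffAt (n := ∞)).restrict_scalars ℝ
  have hK' : ContDiffAt ℝ ∞ (fun p : ℝ × ℂ => Kf (p.2 * ee (6 * p.1))) (x, Q) :=
    ContDiffAt.comp (x, Q) (g := Kf) (f := fun p : ℝ × ℂ => p.2 * ee (6 * p.1)) hK hZ
  have hG' : ContDiffAt ℝ ∞ (fun p : ℝ × ℂ => Gf (p.2 * ee (6 * p.1))) (x, Q) :=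
    ContDiffAt.comp (x, Q) (g := Gf) (f := fun p : ℝ × ℂ => p.2 * ee (6 * p.1)) hG hZ
  have h5 : ∀ c : ℝ, ContDiffAt ℝ ∞ (fun p : ℝ × ℂ => ee (-(c * p.1))) (x, Q) := fun c =>
    (contDiff_ee.contDiffAt).comp (x, Q) (contDiffAt_const.mul contDiffAt_fst).neg
  exact ((h5 3).neg.mul hK').prodMk ((h5 2).mul hG')

theorem contDiffAt_kc (x : ℝ) {Q : ℂ} (hQ : ‖Q‖ < rad) :
    ContDiffAt ℝ ∞ (fun p : ℝ × ℂ => kc p.1 p.2) (x, Q) :=
  (contDiffAt_Dn (pc_ne_zero x hQ)).comp (x, Q) (contDiffAt_pc x hQ)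

theorem kc_imm (x : ℝ) {Q : ℂ} (hQ : ‖Q‖ < rad) (v : ℝ × ℂ)
    (h : fderiv ℝ (fun p : ℝ × ℂ => kc p.1 p.2) (x, Q) v = 0) : v = 0 := by
  have hgd := (contDiffAt_pc x hQ).differentiableAt (by simp)
  have hDd : DifferentiableAt ℝ Dn (pc x Q) :=
    (contDiffAt_Dn (pc_ne_zero x hQ)).differentiableAt (by simp)
  have h1 : fderiv ℝ (fun p : ℝ × ℂ => kc p.1 p.2) (x, Q) =
      (fderiv ℝ Dn (pc x Q)).comp (fderiv ℝ (fun p : ℝ × ℂ => pc p.1 p.2) (x, Q)) :=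
    fderiv_comp (x, Q) (f := fun p : ℝ × ℂ => pc p.1 p.2) (g := Dn) hDd hgd
  rw [h1] at h
  obtain ⟨c, hc⟩ := Dn_ker (pc_ne_zero x hQ) h
  have hP : HasDerivAt (fun τ : ℝ => ((x, Q) : ℝ × ℂ) + τ • v) v 0 := by
    have := ((hasDerivAt_id (0 : ℝ)).smul_const v).const_add ((x, Q) : ℝ × ℂ)
    simpa using this
  have hP0 : ((x, Q) : ℝ × ℂ) + (0 : ℝ) • v = (x, Q) := by simp
  have hgc : HasDerivAt (fun τ : ℝ => pc (x + τ * v.1) (Q + τ * v.2))
      (fderiv ℝ (fun p : ℝ × ℂ => pc p.1 p.2) (x, Q) v) 0 := by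
    have h2 : HasFDerivAt (fun p : ℝ × ℂ => pc p.1 p.2)
      (fderiv ℝ (fun p : ℝ × ℂ => pc p.1 p.2) (x, Q)) (((x, Q) : ℝ × ℂ) + (0 : ℝ) • v) := by
      rw [hP0]; exact hgd.hasFDerivAt
    have h3 := h2.comp_hasDerivAt 0 hP
    refine h3.congr_of_eventuallyEq (Eventually.of_forall fun τ => ?_)
    simp
  rw [show (fderiv ℝ (fun p : ℝ × ℂ => pc p.1 p.2) (x, Q)) v = _ from hc] at hgc
  have hx : HasDerivAt (fun τ : ℝ => x + τ * v.1) v.1 0 := by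
    have := ((hasDerivAt_id (0 : ℝ)).mul_const v.1).const_add x
    simpa using this
  have hQc : HasDerivAt (fun τ : ℝ => Q + τ * v.2) v.2 0 := by
    have h2 := ((Complex.ofRealCLM.hasDerivAt (x := (0 : ℝ))).mul_const v.2).const_add Q
    simpa using! h2
  have hg1 : HasDerivAt (fun τ : ℝ => (pc (x + τ * v.1) (Q + τ * v.2)).1)
      (((3 * c : ℝ) : ℂ) * (pc x Q).1) 0 := by
    have := (ContinuousLinearMap.fst ℝ ℂ ℂ).hasFDerivAt.comp_hasDerivAt (0 : ℝ) hgc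
    exact this
  have hg2 : HasDerivAt (fun τ : ℝ => (pc (x + τ * v.1) (Q + τ * v.2)).2)
      (((2 * c : ℝ) : ℂ) * (pc x Q).2) 0 := by
    have := (ContinuousLinearMap.snd ℝ ℂ ℂ).hasFDerivAt.comp_hasDerivAt (0 : ℝ) hgc
    exact this
  have hx0 : x + 0 * v.1 = x := by simp
  have hQ0 : Q + ((0 : ℝ) : ℂ) * v.2 = Q := by simp
  -- derivative of `ee (c x)`
  have hee : ∀ a : ℝ, HasDerivAt (fun τ : ℝ => ee (a * (x + τ * v.1)))
      ((a * v.1 : ℝ) * (2 * Real.pi * I * ee (a * x))) 0 := by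
    intro a
    have h2 : HasDerivAt ee (2 * Real.pi * I * ee (a * x)) (a * (x + 0 * v.1)) := by
      rw [hx0]; exact hasDerivAt_ee _
    have h3 := h2.scomp (0 : ℝ) (hx.const_mul a)
    simpa using! h3
  set W : ℂ := v.2 * ee (6 * x) + Q * ((6 * v.1 : ℝ) * (2 * Real.pi * I * ee (6 * x))) with hW
  have hZ : HasDerivAt (fun τ : ℝ => (Q + τ * v.2) * ee (6 * (x + τ * v.1))) W 0 := by
    have h2 := hQc.mul (hee 6)
    simp only [hx0, hQ0] at h2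
    exact h2
  set Z := Q * ee (6 * x) with hZdef
  have hZn : ‖Z‖ < rad := by rw [hZdef, norm_mul_ee]; exact hQ
  have hmem : Z ∈ Metric.ball (0 : ℂ) 1 := by
    rw [mem_ball_zero_iff]; exact norm_lt_one_of_rad hZn
  have hKd : HasDerivAt (fun τ : ℝ => Kf ((Q + τ * v.2) * ee (6 * (x + τ * v.1))))
      (W * deriv Kf Z) 0 := by
    have h2 : HasDerivAt Kf (deriv Kf Z) ((Q + ((0 : ℝ) : ℂ) * v.2) * ee (6 * (x + 0 * v.1))) := by
      rw [hQ0, hx0]; exact (analyticOn_Kf Z hmem).differentiableAt.hasDerivAt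
    exact h2.scomp (0 : ℝ) hZ
  have hGd : HasDerivAt (fun τ : ℝ => Gf ((Q + τ * v.2) * ee (6 * (x + τ * v.1))))
      (W * deriv Gf Z) 0 := by
    have h2 : HasDerivAt Gf (deriv Gf Z) ((Q + ((0 : ℝ) : ℂ) * v.2) * ee (6 * (x + 0 * v.1))) := by
      rw [hQ0, hx0]; exact (analyticOn_Gf Z hmem).differentiableAt.hasDerivAt
    exact HasDerivAt.scomp (h := fun τ : ℝ => (Q + τ * v.2) * ee (6 * (x + τ * v.1)))
      (g₁ := Gf) (0 : ℝ) h2 hZ
  have hneg : ∀ a y : ℝ, -(a * y) = (-a) * y := fun a y => by ring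
  have k1 : HasDerivAt (fun τ : ℝ => (pc (x + τ * v.1) (Q + τ * v.2)).1)
      (-(((-3 * v.1 : ℝ) : ℂ) * (2 * Real.pi * I * ee (-3 * x))) * Kf Z +
        -ee (-3 * x) * (W * deriv Kf Z)) 0 := by
    have h2 := (hee (-3)).fun_neg.mul hKd
    simp only [hx0, hQ0, ← hZdef] at h2
    refine h2.congr_of_eventuallyEq (Eventually.of_forall fun τ => ?_)
    simp only [pc, hneg]
    rfl
  have k2 : HasDerivAt (fun τ : ℝ => (pc (x + τ * v.1) (Q + τ * v.2)).2)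
      ((((-2 * v.1 : ℝ) : ℂ) * (2 * Real.pi * I * ee (-2 * x))) * Gf Z +
        ee (-2 * x) * (W * deriv Gf Z)) 0 := by
    have h2 := (hee (-2)).mul hGd
    simp only [hx0, hQ0, ← hZdef] at h2
    refine h2.congr_of_eventuallyEq (Eventually.of_forall fun τ => ?_)
    simp only [pc, hneg]
    rfl
  have e1 := hg1.unique k1
  have e2 := hg2.unique k2
  have hw := KG_wronski (norm_lt_one_of_rad hZn) (Kf_ne hZn)
  simp only [pc, ← hZdef, hneg] at e1 e2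
  have hne3 := ee_ne_zero (-3 * x)
  have hne2 := ee_ne_zero (-2 * x)
  have hW0 : W = 0 := by
    have key : ee (-3 * x) * ee (-2 * x) * (L0.g₃ / 4) * W = 0 := by
      have hw' : L0.g₃ / 4 = -(2 * Gf Z * deriv Kf Z - 3 * Kf Z * deriv Gf Z) := by
        rw [hw]; ring
      rw [hw']
      push_cast at e1 e2
      linear_combination (-2 * ee (-2 * x) * Gf Z) * e1 - (3 * ee (-3 * x) * Kf Z) * e2
    have hg : L0.g₃ / 4 ≠ 0 := div_ne_zero g3_ne_zero (by norm_num)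
    exact (mul_eq_zero.mp key).resolve_left (mul_ne_zero (mul_ne_zero hne3 hne2) hg)
  rw [hW0] at e2
  have hGne := Gf_ne hZn
  have e3 : ((2 * c : ℝ) : ℂ) = ((-2 * v.1 : ℝ) : ℂ) * (2 * Real.pi * I) := by
    have : ee (-2 * x) * Gf Z ≠ 0 := mul_ne_zero hne2 hGne
    apply mul_right_cancel₀ this
    linear_combination e2
  have e4 := congrArg Complex.im e3
  simp [Real.pi_ne_zero] at e4
  have hv2 : v.2 = 0 := by
    rw [hW, e4] at hW0
    simp at hW0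
    exact hW0.resolve_right (ee_ne_zero _)
  exact Prod.ext e4 hv2

/-- gluing of the collar with the open book -/
theorem kc_glue (x t : ℝ) {ρ : ℝ} (h0 : 0 < ρ) (h1 : ρ < rad) :
    kc x (ρ * ee t) = hh (((ρ ^ (1 / 6 : ℝ) : ℝ) : ℂ) * ee (t / 6) * ee x) t := by
  set m : ℝ := ρ ^ (1 / 6 : ℝ) with hm
  have hm0 : 0 < m := Real.rpow_pos_of_pos h0 _
  have hm6 : m ^ 6 = ρ := by
    rw [hm, ← Real.rpow_natCast, ← Real.rpow_mul h0.le]; norm_num
  have hm1 : m < 1 := Real.rpow_lt_one h0.le (by have := rad_lt; linarith) (by norm_num)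
  set z : ℂ := (m : ℂ) * ee (t / 6) * ee x with hz
  have hzn : ‖z‖ < 1 := by
    rw [hz, norm_mul, norm_mul, norm_ee, norm_ee, Complex.norm_real, Real.norm_of_nonneg hm0.le]
    linarith
  have hmC : (m : ℂ) ≠ 0 := by exact_mod_cast hm0.ne'
  have hz0 : z ≠ 0 := mul_ne_zero (mul_ne_zero hmC (ee_ne_zero _)) (ee_ne_zero _)
  have hz6 : z ^ 6 = ρ * ee t * ee (6 * x) := by
    rw [hz, mul_pow, mul_pow, ee_pow, ee_pow, ← Complex.ofReal_pow, hm6]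
    congr 3
    push_cast; ring
  rw [kc, hh]
  have hmi : 0 < m⁻¹ := inv_pos.mpr hm0
  have : gam z t = (((m⁻¹ : ℝ) : ℂ) ^ 3 * (pc x (ρ * ee t)).1,
      ((m⁻¹ : ℝ) : ℂ) ^ 2 * (pc x (ρ * ee t)).2) := by
    have e1 := wp_eq_Gf hzn hz0
    have e2 := wpd_eq_Kf hzn hz0
    rw [gam, e1, e2, hz6, pc]
    have a3 : z ^ 3 = (m : ℂ) ^ 3 * (ee (t / 2) * ee (3 * x)) := by
      rw [hz, mul_pow, mul_pow, ee_pow, ee_pow, mul_assoc]
      congr 3
      push_cast; ring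
    have a2 : z ^ 2 = (m : ℂ) ^ 2 * (ee (t / 3) * ee (2 * x)) := by
      rw [hz, mul_pow, mul_pow, ee_pow, ee_pow, mul_assoc]
      congr 3
      push_cast; ring
    have b3 : ee (-(3 * x)) = (ee (3 * x))⁻¹ := by
      apply eq_inv_of_mul_eq_one_left; rw [← ee_add, ← ee_zero]; congr 1; ring
    have b2 : ee (-(2 * x)) = (ee (2 * x))⁻¹ := by
      apply eq_inv_of_mul_eq_one_left; rw [← ee_add, ← ee_zero]; congr 1; ring
    have n3 := ee_ne_zero (3 * x)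
    have n2 := ee_ne_zero (2 * x)
    have nt2 := ee_ne_zero (t / 2)
    have nt3 := ee_ne_zero (t / 3)
    rw [a3, a2, b3, b2]
    push_cast
    refine Prod.ext ?_ ?_
    · simp only
      field_simp
    · simp only
      field_simp
  rw [this, Dn_weight hmi]

/-- the binding is disjoint from the pages -/
theorem kc_zero_ne_hh (x : ℝ) {z : ℂ} (hz : z ∈ U0) (t : ℝ) : kc x 0 ≠ hh z t := by
  intro h
  have hr : ‖(0 : ℂ)‖ < rad := by rw [norm_zero]; exact rad_pos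
  obtain ⟨μ, hμ, e⟩ := Dn_inj (gam_ne_zero hz t) (pc_ne_zero x hr) h.symm
  have h1 : ff (gam z t) = (μ : ℂ) ^ 6 * ff (pc x 0) := by rw [e, ff_weight]
  rw [ff_pc x hr, mul_zero, mul_zero] at h1
  exact ff_gam_ne hz t h1

/-- the collar is injective -/
theorem kc_inj {x x' : ℝ} {Q Q' : ℂ} (hQ : ‖Q‖ < rad) (hQ' : ‖Q'‖ < rad)
    (h : kc x Q = kc x' Q') : Q = Q' ∧ ∃ n : ℤ, x = x' + n := by
  have hg : L0.g₃ ≠ 0 := g3_ne_zero
  obtain ⟨μ, hμ, e⟩ := Dn_inj (pc_ne_zero x hQ) (pc_ne_zero x' hQ') h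
  have h1 : ff (pc x Q) = (μ : ℂ) ^ 6 * ff (pc x' Q') := by rw [e, ff_weight]
  rw [ff_pc x hQ, ff_pc x' hQ'] at h1
  have h2 : Q = (μ : ℂ) ^ 6 * Q' := by
    have : (-L0.g₃ / 4) ≠ 0 := div_ne_zero (neg_ne_zero.mpr hg) (by norm_num)
    apply mul_left_cancel₀ this
    linear_combination h1
  by_cases hQ0 : Q' = 0
  · have hQz : Q = 0 := by rw [h2, hQ0, mul_zero]
    refine ⟨by rw [hQz, hQ0], ?_⟩
    subst hQ0
    subst hQz
    have e1 := congrArg Prod.fst e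
    have e2 := congrArg Prod.snd e
    simp only [pc, zero_mul, Gf_zero, Kf_zero, mul_one] at e1 e2
    have hμ1 : μ = 1 := by
      have := congrArg norm e2
      rw [norm_mul, norm_ee, norm_ee, norm_pow, Complex.norm_real, Real.norm_of_nonneg hμ.le,
        mul_one] at this
      exact (pow_eq_one_iff_of_nonneg hμ.le (by norm_num)).mp this.symm
    subst hμ1
    simp only [ofReal_one, one_pow, one_mul, neg_inj] at e1 e2
    obtain ⟨a, ha⟩ := ee_eq_iff.mp e1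
    obtain ⟨b, hb⟩ := ee_eq_iff.mp e2
    exact ⟨b - a, by push_cast; linarith⟩
  · have hQz : Q ≠ 0 := by
      rw [h2]; exact mul_ne_zero (pow_ne_zero 6 (by exact_mod_cast hμ.ne')) hQ0
    -- polar coordinates
    have pol : ∀ {R : ℂ}, R ≠ 0 → ‖R‖ < rad → ∃ t : ℝ, 0 ≤ t ∧ t < 1 ∧ R = (‖R‖ : ℂ) * ee t := by
      intro R hR _
      refine ⟨Int.fract (arg R / (2 * Real.pi)), Int.fract_nonneg _, Int.fract_lt_one _, ?_⟩
      have h4 : ee (Int.fract (arg R / (2 * Real.pi))) = ee (arg R / (2 * Real.pi)) := by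
        rw [ee_eq_iff]
        refine ⟨-⌊arg R / (2 * Real.pi)⌋, ?_⟩
        rw [Int.fract]; push_cast; ring
      have h5 : ee (arg R / (2 * Real.pi)) = Complex.exp (arg R * I) := by
        rw [ee]; congr 1
        have : (Real.pi : ℂ) ≠ 0 := by exact_mod_cast Real.pi_ne_zero
        push_cast
        field_simp
      rw [h4, h5, Complex.norm_mul_exp_arg_mul_I]
    obtain ⟨t, ht0, ht1, et⟩ := pol hQz hQ
    obtain ⟨t', ht0', ht1', et'⟩ := pol hQ0 hQ'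
    have hρ := norm_pos_iff.mpr hQz
    have hρ' := norm_pos_iff.mpr hQ0
    rw [et, et', kc_glue x t hρ hQ, kc_glue x' t' hρ' hQ'] at h
    have small : ∀ (ρ : ℝ), 0 < ρ → ρ < rad → ∀ a b : ℝ,
        ‖((ρ ^ (1 / 6 : ℝ) : ℝ) : ℂ) * ee a * ee b‖ < 1 / 2 ∧
        ((ρ ^ (1 / 6 : ℝ) : ℝ) : ℂ) * ee a * ee b ≠ 0 := by
      intro ρ hρ hρ1 a b
      have hm0 : 0 < ρ ^ (1 / 6 : ℝ) := Real.rpow_pos_of_pos hρ _
      have hm6 : (ρ ^ (1 / 6 : ℝ)) ^ 6 = ρ := by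
        rw [← Real.rpow_natCast, ← Real.rpow_mul hρ.le]; norm_num
      constructor
      · rw [norm_mul, norm_mul, norm_ee, norm_ee, Complex.norm_real, Real.norm_of_nonneg hm0.le,
          mul_one, mul_one]
        by_contra hcon
        push Not at hcon
        have : (1 / 2 : ℝ) ^ 6 ≤ (ρ ^ (1 / 6 : ℝ)) ^ 6 := by gcongr
        rw [hm6] at this
        have h3 := rad_lt
        norm_num at this
        linarith
      · have : (((ρ ^ (1 / 6 : ℝ) : ℝ)) : ℂ) ≠ 0 := by exact_mod_cast hm0.ne'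
        exact mul_ne_zero (mul_ne_zero this (ee_ne_zero _)) (ee_ne_zero _)
    have s1 := small ‖Q‖ hρ hQ (t / 6) x
    have s2 := small ‖Q'‖ hρ' hQ' (t' / 6) x'
    have hU1 := mem_U0_of_norm (by linarith [s1.1]) s1.2
    have hU2 := mem_U0_of_norm (by linarith [s2.1]) s2.2
    obtain ⟨htt, hl⟩ := hh_inj hU1 hU2 ht0 ht1 ht0' ht1' h
    have hd : ((‖Q'‖ ^ (1 / 6 : ℝ) : ℝ) : ℂ) * ee (t' / 6) * ee x' -
        ((‖Q‖ ^ (1 / 6 : ℝ) : ℝ) : ℂ) * ee (t / 6) * ee x = 0 := by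
      by_contra hne
      have h3 := one_le_norm hl hne
      have h4 := norm_sub_le (((‖Q'‖ ^ (1 / 6 : ℝ) : ℝ) : ℂ) * ee (t' / 6) * ee x')
        (((‖Q‖ ^ (1 / 6 : ℝ) : ℝ) : ℂ) * ee (t / 6) * ee x)
      linarith [s1.1, s2.1]
    have hd' := sub_eq_zero.mp hd
    have hm : ‖Q'‖ ^ (1 / 6 : ℝ) = ‖Q‖ ^ (1 / 6 : ℝ) := by
      have := congrArg norm hd'
      rw [norm_mul, norm_mul, norm_mul, norm_mul, norm_ee, norm_ee, norm_ee, norm_ee,
        Complex.norm_real, Complex.norm_real, Real.norm_of_nonneg (by positivity),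
        Real.norm_of_nonneg (by positivity)] at this
      simpa using this
    have hm6 : ∀ ρ : ℝ, 0 ≤ ρ → (ρ ^ (1 / 6 : ℝ)) ^ 6 = ρ := by
      intro ρ hρ
      rw [← Real.rpow_natCast, ← Real.rpow_mul hρ]; norm_num
    have hnn : ‖Q'‖ = ‖Q‖ := by
      rw [← hm6 ‖Q'‖ (norm_nonneg _), hm, hm6 _ (norm_nonneg _)]
    constructor
    · rw [et, et', htt, hnn]
    · rw [hm, htt] at hd'
      have hc : (((‖Q‖ ^ (1 / 6 : ℝ) : ℝ) : ℂ) * ee (t' / 6)) ≠ 0 := by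
        have : ((‖Q‖ ^ (1 / 6 : ℝ) : ℝ) : ℂ) ≠ 0 := by
          exact_mod_cast (Real.rpow_pos_of_pos hρ _).ne'
        exact mul_ne_zero this (ee_ne_zero _)
      have h6 := mul_left_cancel₀ hc hd'
      obtain ⟨n, hn⟩ := ee_eq_iff.mp h6
      exact ⟨-n, by push_cast; linarith⟩

/-- every unit quaternion is on a page or on the binding -/
theorem sphere_cover {q : ℍ[ℝ]} (hq : ‖q‖ = 1) :
    (∃ z ∈ U0, ∃ t : ℝ, 0 ≤ t ∧ t < 1 ∧ hh z t = q) ∨ ∃ x : ℝ, kc x 0 = q := by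
  obtain ⟨p, hp, rfl⟩ := Dn_surj hq
  by_cases hf : ff p = 0
  · right
    have hp2 : p.2 ≠ 0 := by
      intro h
      apply hp
      refine Prod.ext ?_ h
      rw [ff, h] at hf
      simpa using hf
    have hn := norm_pos_iff.mpr hp2
    set x : ℝ := -(arg p.2 / (4 * Real.pi)) with hx
    have e2 : ee (-(2 * x)) = Complex.exp (arg p.2 * I) := by
      rw [ee, hx]; congr 1
      have : (Real.pi : ℂ) ≠ 0 := by exact_mod_cast Real.pi_ne_zero
      push_cast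
      field_simp
      ring
    have e2' : p.2 = (‖p.2‖ : ℂ) * ee (-(2 * x)) := by
      rw [e2, Complex.norm_mul_exp_arg_mul_I]
    set μ : ℝ := Real.sqrt ‖p.2‖ with hμ
    have hμ0 : 0 < μ := Real.sqrt_pos.mpr hn
    have hμ2 : μ ^ 2 = ‖p.2‖ := Real.sq_sqrt hn.le
    have hμC : (μ : ℂ) ≠ 0 := by exact_mod_cast hμ0.ne'
    have e2'' : p.2 = (μ : ℂ) ^ 2 * ee (-(2 * x)) := by
      rw [← Complex.ofReal_pow, hμ2]; exact e2'
    have e1 : p.1 ^ 2 = ((μ : ℂ) ^ 3 * ee (-(3 * x))) ^ 2 := by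
      have h3 : p.1 ^ 2 = p.2 ^ 3 := sub_eq_zero.mp hf
      have h4 : ee (-(2 * x)) ^ 3 = ee (-(3 * x)) ^ 2 := by
        rw [ee_pow, ee_pow]; congr 1; push_cast; ring
      rw [h3, e2'', mul_pow, mul_pow, h4]
      ring
    rcases sq_eq_sq_iff_eq_or_eq_neg.mp e1 with h3 | h3
    · refine ⟨x + 1 / 2, ?_⟩
      have a1 : ee (-(3 * (x + 1 / 2))) = -ee (-(3 * x)) := by
        have : -(3 * (x + 1 / 2)) = -(3 * x) + 1 / 2 + ((-2 : ℤ) : ℝ) := by push_cast; ring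
        rw [this, ee_add, ee_add, ee_half, ee_int]; ring
      have a2 : ee (-(2 * (x + 1 / 2))) = ee (-(2 * x)) := by
        rw [ee_eq_iff]; exact ⟨-1, by push_cast; ring⟩
      have : p = ((μ : ℂ) ^ 3 * (pc (x + 1 / 2) 0).1, (μ : ℂ) ^ 2 * (pc (x + 1 / 2) 0).2) := by
        refine Prod.ext ?_ ?_
        · simp only [pc, zero_mul, Kf_zero, mul_one, a1, neg_neg]; exact h3
        · simp only [pc, zero_mul, Gf_zero, mul_one, a2]; exact e2''
      rw [kc]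
      conv_rhs => rw [this, Dn_weight hμ0]
    · refine ⟨x, ?_⟩
      have : p = ((μ : ℂ) ^ 3 * (pc x 0).1, (μ : ℂ) ^ 2 * (pc x 0).2) := by
        refine Prod.ext ?_ ?_
        · simp only [pc, zero_mul, Kf_zero, mul_one]
          rw [h3]; ring
        · simp only [pc, zero_mul, Gf_zero, mul_one]; exact e2''
      rw [kc]
      conv_rhs => rw [this, Dn_weight hμ0]
  · left
    obtain ⟨z, hz, t, ht0, ht1, h⟩ := hh_cover hf
    exact ⟨z, hz, t, ht0, ht1, h⟩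

end

end Pool.Agent.TRF
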