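import Pool.Agent.CSG.LDb

/-!
# TRF/LDS: local diffeomorphisms into the sphere `S⁴`
-/

open scoped Manifold ContDiff Topology
open Set Filter Metric

namespace Pool.Agent.TRF

noncomputable section

abbrev E5 := EuclideanSpace ℝ (Fin 5)
/-- the unit sphere of `ℝ⁵` -/
abbrev X4 := sphere (0 : E5) 1

/-- the chart of the sphere, as a partial diffeomorphism -/
def chartPD (v : X4) : PartialDiffeomorph (𝓡 4) 𝓘(ℝ, EuclideanSpace ℝ (Fin 4)) X4
    (EuclideanSpace ℝ (Fin 4)) ∞ where
  toPartialEquiv := (chartAt (EuclideanSpace ℝ (Fin 4)) v).toPartialEquiv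
  open_source := (chartAt (EuclideanSpace ℝ (Fin 4)) v).open_source
  open_target := (chartAt (EuclideanSpace ℝ (Fin 4)) v).open_target
  contMDiffOn_toFun := contMDiffOn_chart
  contMDiffOn_invFun := contMDiffOn_chart_symm

theorem ld_chart_symm (v : X4) : IsLocalDiffeomorphAt 𝓘(ℝ, EuclideanSpace ℝ (Fin 4)) (𝓡 4) ∞
    (chartAt (EuclideanSpace ℝ (Fin 4)) v).symm (chartAt (EuclideanSpace ℝ (Fin 4)) v v) := by
  refine ⟨(chartPD v).symm, ?_, fun y _ => rfl⟩
  exact (chartAt (EuclideanSpace ℝ (Fin 4)) v).map_source (mem_chart_source _ v)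

theorem chart_smooth (v w : X4) (hw : w ∈ (chartAt (EuclideanSpace ℝ (Fin 4)) v).source) :
    ∃ g : E5 → EuclideanSpace ℝ (Fin 4), ContDiffAt ℝ ∞ g w ∧
      ∀ u : X4, g u = chartAt (EuclideanSpace ℝ (Fin 4)) v u := by
  have := Fact.mk (@finrank_euclideanSpace_fin ℝ _ (4 + 1))
  let U : _ ≃ₗᵢ[ℝ] _ :=
    (OrthonormalBasis.fromOrthogonalSpanSingleton (𝕜 := ℝ) 4
        (ne_zero_of_mem_unit_sphere (-v))).repr
  refine ⟨fun x => U (stereoToFun ((-v : X4) : E5) x), ?_, ?_⟩
  · have h1 : ContDiffAt ℝ ∞ (stereoToFun ((-v : X4) : E5)) (w : E5) := by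
      have h2 := (contDiffOn_stereoToFun (n := ∞) (v := ((-v : X4) : E5)))
      apply h2.contDiffAt
      have hopen : IsOpen {x : E5 | innerSL ℝ ((-v : X4) : E5) x ≠ (1 : ℝ)} :=
        isOpen_ne_fun (innerSL ℝ ((-v : X4) : E5)).continuous continuous_const
      apply hopen.mem_nhds
      have h3 : w ∈ (stereographic' 4 (-v)).source := hw
      rw [stereographic'_source] at h3
      intro h4
      apply h3
      simp only [mem_singleton_iff]
      symm
      rw [sphere_ext_iff]
      exact h4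
    exact U.contDiff.contDiffAt.comp (w : E5) h1
  · intro u
    rfl

theorem chart_symm_smooth (v : X4) :
    ContDiff ℝ ∞ fun y : EuclideanSpace ℝ (Fin 4) =>
      (((chartAt (EuclideanSpace ℝ (Fin 4)) v).symm y : X4) : E5) := by
  have := Fact.mk (@finrank_euclideanSpace_fin ℝ _ (4 + 1))
  let U : _ ≃ₗᵢ[ℝ] _ :=
    (OrthonormalBasis.fromOrthogonalSpanSingleton (𝕜 := ℝ) 4
        (ne_zero_of_mem_unit_sphere (-v))).repr
  exact ((contDiff_stereoInvFunAux.comp (ℝ ∙ ((-v : X4) : E5))ᗮ.subtypeL.contDiff).comp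
          U.symm.contDiff)

theorem ld_sphere {V : Type*} [NormedAddCommGroup V] [NormedSpace ℝ V] [FiniteDimensional ℝ V]
    (f : V → X4) (x : V) (hf : ∀ᶠ y in 𝓝 x, ContDiffAt ℝ ∞ (fun y => (f y : E5)) y)
    (hdim : Module.finrank ℝ V = 4)
    (hinj : ∀ v, fderiv ℝ (fun y => (f y : E5)) x v = 0 → v = 0) :
    IsLocalDiffeomorphAt 𝓘(ℝ, V) (𝓡 4) ∞ f x := by
  set c := chartAt (EuclideanSpace ℝ (Fin 4)) (f x) with hc
  have hfc : ContinuousAt f x := by
    rw [Topology.IsInducing.subtypeVal.continuousAt_iff]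
    exact hf.self_of_nhds.continuousAt
  have hsrc : ∀ᶠ y in 𝓝 x, f y ∈ c.source := by
    apply hfc.eventually_mem
    exact c.open_source.mem_nhds (mem_chart_source _ (f x))
  -- the composite with the chart
  have hg : ∀ᶠ y in 𝓝 x, ContDiffAt ℝ ∞ (fun y => c (f y)) y := by
    filter_upwards [hf, hsrc] with y hy hys
    obtain ⟨g, hg1, hg2⟩ := chart_smooth (f x) (f y) hys
    have h1 : (fun y => c (f y)) = fun y => g (f y) := by
      ext1 z; rw [hg2]
    rw [h1]
    exact ContDiffAt.comp y hg1 hy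
  have hS := chart_symm_smooth (f x)
  have hld : IsLocalDiffeomorphAt 𝓘(ℝ, V) 𝓘(ℝ, EuclideanSpace ℝ (Fin 4)) ∞
      (fun y => c (f y)) x := by
    apply CSG.ld_of_fderiv hg
    · rw [hdim]; simp
    · intro v hv
      apply hinj
      have h1 : (fun y => (f y : E5)) =ᶠ[𝓝 x]
          (fun z : EuclideanSpace ℝ (Fin 4) => ((c.symm z : X4) : E5)) ∘ fun y => c (f y) := by
        filter_upwards [hsrc] with y hy
        simp only [Function.comp]
        rw [c.left_inv hy]
      rw [h1.fderiv_eq]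
      rw [fderiv_comp x (hS.contDiffAt.differentiableAt (by simp))
        (hg.self_of_nhds.differentiableAt (by simp))]
      simp only [ContinuousLinearMap.comp_apply]
      rw [hv, map_zero]
  have h2 := IsLocalDiffeomorphAt.comp (𝓡 4) X4 hld (ld_chart_symm (f x))
  apply CSG.ld_congr h2
  filter_upwards [hsrc] with y hy
  simp only [Function.comp]
  rw [c.left_inv hy]

end

end Pool.Agent.TRF
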