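import Mathlib

/-!
# TRF/Lat: the hexagonal lattice and its Weierstrass function
-/

open Complex PeriodPair

namespace Pool.Agent.TRF

noncomputable section

/-- primitive sixth root of unity -/
def om : ℂ := ⟨1 / 2, Real.sqrt 3 / 2⟩

theorem om_sq : om ^ 2 = om - 1 := by
  have h : Real.sqrt 3 * Real.sqrt 3 = 3 := Real.mul_self_sqrt (by norm_num)
  apply Complex.ext
  · simp [om, pow_two]; nlinarith
  · simp [om, pow_two]; ring

theorem om_pow_three : om ^ 3 = -1 := by
  have := om_sq
  linear_combination (om + 1) * this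

theorem om_pow_six : om ^ 6 = 1 := by
  have := om_pow_three
  linear_combination (om ^ 3 - 1) * this

theorem om_ne_zero : om ≠ 0 := by
  intro h
  have := om_pow_six
  rw [h] at this
  norm_num at this

theorem om_norm : ‖om‖ = 1 := by
  have h : ‖om‖ ^ 6 = 1 := by rw [← norm_pow, om_pow_six, norm_one]
  exact (pow_eq_one_iff_of_nonneg (norm_nonneg _) (by norm_num)).mp h

theorem om_eq_exp : om = Complex.exp (Real.pi / 3 * I) := by
  have h : ((Real.pi : ℂ) / 3) = ((Real.pi / 3 : ℝ) : ℂ) := by push_cast; ring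
  rw [h, Complex.exp_mul_I, ← Complex.ofReal_cos, ← Complex.ofReal_sin,
    Real.cos_pi_div_three, Real.sin_pi_div_three]
  apply Complex.ext <;> simp [om]

theorem om_indep : LinearIndependent ℝ ![(1 : ℂ), om] := by
  rw [LinearIndependent.pair_iff]
  intro s t h
  have h2 := congrArg Complex.im h
  have h1 := congrArg Complex.re h
  simp [om] at h1 h2
  subst h2
  exact ⟨by simpa using h1, rfl⟩

/-- the hexagonal period pair -/
def L0 : PeriodPair := ⟨1, om, om_indep⟩

theorem mem_Lam {z : ℂ} : z ∈ L0.lattice ↔ ∃ m n : ℤ, (m : ℂ) + n * om = z := by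
  rw [PeriodPair.mem_lattice]
  simp [L0]

theorem om_mul_mem {z : ℂ} (h : z ∈ L0.lattice) : om * z ∈ L0.lattice := by
  rw [mem_Lam] at h ⊢
  obtain ⟨m, n, rfl⟩ := h
  refine ⟨-n, m + n, ?_⟩
  have := om_sq
  push_cast
  linear_combination (-n : ℂ) * this

theorem om_mul_mem_iff {z : ℂ} : om * z ∈ L0.lattice ↔ z ∈ L0.lattice := by
  constructor
  · intro h
    have h2 := om_mul_mem (om_mul_mem (om_mul_mem (om_mul_mem (om_mul_mem h))))
    have : om * (om * (om * (om * (om * (om * z))))) = om ^ 6 * z := by ring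
    rwa [this, om_pow_six, one_mul] at h2
  · exact om_mul_mem

/-- multiplication by `om` on the lattice -/
def omE : L0.lattice ≃ L0.lattice where
  toFun l := ⟨om * l.1, om_mul_mem l.2⟩
  invFun l := ⟨om⁻¹ * l.1, by
    rw [← om_mul_mem_iff, ← mul_assoc, mul_inv_cancel₀ om_ne_zero, one_mul]; exact l.2⟩
  left_inv l := by
    ext
    simp [← mul_assoc, inv_mul_cancel₀ om_ne_zero]
  right_inv l := by
    ext
    simp [← mul_assoc, mul_inv_cancel₀ om_ne_zero]

theorem one_le_norm {l : ℂ} (h : l ∈ L0.lattice) (h0 : l ≠ 0) : 1 ≤ ‖l‖ := by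
  rw [mem_Lam] at h
  obtain ⟨m, n, rfl⟩ := h
  have h3 : Real.sqrt 3 * Real.sqrt 3 = 3 := Real.mul_self_sqrt (by norm_num)
  have key : ‖(m : ℂ) + n * om‖ ^ 2 = ((m ^ 2 + m * n + n ^ 2 : ℤ) : ℝ) := by
    rw [← Complex.normSq_eq_norm_sq, Complex.normSq_apply]
    simp [om]
    ring_nf
    rw [show Real.sqrt 3 ^ 2 = 3 by rw [pow_two, h3]]
    ring
  have hpos : (1 : ℤ) ≤ m ^ 2 + m * n + n ^ 2 := by
    by_contra hlt
    have hle : m ^ 2 + m * n + n ^ 2 ≤ 0 := by omega
    have hn : n = 0 := by
      by_contra hn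
      have : 0 < n ^ 2 := by positivity
      nlinarith [sq_nonneg (2 * m + n)]
    subst hn
    have hm : m = 0 := by
      by_contra hm
      have : 0 < m ^ 2 := by positivity
      nlinarith
    subst hm
    simp at h0
  have h1 : (1 : ℝ) ≤ ‖(m : ℂ) + n * om‖ ^ 2 := by
    rw [key]; exact_mod_cast hpos
  nlinarith [norm_nonneg ((m : ℂ) + n * om)]

theorem wp_om (z : ℂ) : om ^ 2 * ℘[L0] (om * z) = ℘[L0] z := by
  simp only [weierstrassP]
  rw [← omE.tsum_eq, ← tsum_mul_left]
  congr 1
  ext l
  have ho := om_ne_zero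
  simp only [omE, Equiv.coe_fn_mk]
  by_cases hz : z - l.1 = 0
  · have : om * z - om * l.1 = 0 := by rw [← mul_sub, hz, mul_zero]
    rw [this, hz]
    by_cases hl : l.1 = 0
    · simp [hl]
    · field_simp
      simp
  · by_cases hl : l.1 = 0
    · rw [hl]
      simp only [mul_zero, sub_zero]
      have : z ≠ 0 := by simpa [hl] using hz
      field_simp
      simp
    · rw [← mul_sub]
      field_simp

theorem wpd_om (z : ℂ) : ℘'[L0] (om * z) = - ℘'[L0] z := by
  simp only [derivWeierstrassP]
  rw [← omE.tsum_eq]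
  congr 1
  rw [← tsum_neg]
  congr 1
  ext l
  have ho := om_pow_three
  simp only [omE, Equiv.coe_fn_mk]
  rw [← mul_sub, mul_pow, ho]
  rw [neg_one_mul, div_neg]

theorem G_om (n : ℕ) (h : ¬ 6 ∣ n) : L0.G n = 0 := by
  have h1 : om ^ n * L0.G n = L0.G n := by
    simp only [PeriodPair.G]
    conv_lhs => rw [← omE.tsum_eq, ← tsum_mul_left]
    congr 1
    ext l
    have ho : om ^ n ≠ 0 := pow_ne_zero _ om_ne_zero
    simp only [omE, Equiv.coe_fn_mk]
    rw [mul_pow, mul_inv, ← mul_assoc, mul_inv_cancel₀ ho, one_mul]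
  have h2 : om ^ n ≠ 1 := by
    intro h3
    apply h
    have h4 : om ^ n = om ^ (n % 6) := by
      conv_lhs => rw [← Nat.div_add_mod n 6, pow_add, pow_mul, om_pow_six, one_pow, one_mul]
    rw [h4] at h3
    have h5 : n % 6 < 6 := Nat.mod_lt _ (by norm_num)
    have h3' : Real.sqrt 3 ≠ 0 := by
      have : (0:ℝ) < Real.sqrt 3 := Real.sqrt_pos.mpr (by norm_num)
      exact this.ne'
    have him : om.im ≠ 0 := by simp [om]
    have hre : om.re = 1 / 2 := by simp [om]
    have hs := om_sq
    have ht := om_pow_three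
    rw [Nat.dvd_iff_mod_eq_zero]
    generalize n % 6 = k at *
    interval_cases k
    · rfl
    · exfalso
      rw [pow_one] at h3
      rw [h3] at him
      simp at him
    · exfalso
      rw [hs] at h3
      have := congrArg Complex.im h3
      simp at this
      exact him this
    · exfalso
      rw [ht] at h3
      norm_num at h3
    · exfalso
      have : om ^ 4 = -om := by linear_combination om * ht
      rw [this] at h3
      have := congrArg Complex.im h3
      simp at this
      exact him this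
    · exfalso
      have : om ^ 5 = -om + 1 := by linear_combination om ^ 2 * ht - hs
      rw [this] at h3
      have := congrArg Complex.im h3
      simp at this
      exact him this
  have h3 : (om ^ n - 1) * L0.G n = 0 := by rw [sub_mul, h1, one_mul, sub_self]
  rcases mul_eq_zero.mp h3 with h4 | h4
  · exact absurd (sub_eq_zero.mp h4) h2
  · exact h4

theorem g2_zero : L0.g₂ = 0 := by
  rw [PeriodPair.g₂, G_om 4 (by norm_num), mul_zero]

theorem wp_sq (z : ℂ) (hz : z ∉ L0.lattice) :
    ℘'[L0] z ^ 2 = 4 * ℘[L0] z ^ 3 - L0.g₃ := by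
  rw [derivWeierstrassP_sq _ z hz, g2_zero]
  ring

end

end Pool.Agent.TRF
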