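import Mathlib

/-!
# TRF/Nrm: projection of `ℂ² - 0` to the unit quaternions along the weighted orbits
`(μ ^ 3 a, μ ^ 2 b)`
-/

open Complex Set Filter
open scoped Topology ContDiff Quaternion

namespace Pool.Agent.TRF

noncomputable section

/-- `(a, b)` as a quaternion -/
def qq (a b : ℂ) : ℍ[ℝ] := ⟨a.re, a.im, b.re, b.im⟩

theorem qq_add (a b a' b' : ℂ) : qq (a + a') (b + b') = qq a b + qq a' b' := by
  ext <;> simp [qq]

theorem qq_smul (c : ℝ) (a b : ℂ) : qq (c * a) (c * b) = c • qq a b := by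
  ext <;> simp [qq]

theorem qq_inj {a b a' b' : ℂ} (h : qq a b = qq a' b') : a = a' ∧ b = b' := by
  have h1 := congrArg QuaternionAlgebra.re h
  have h2 := congrArg QuaternionAlgebra.imI h
  have h3 := congrArg QuaternionAlgebra.imJ h
  have h4 := congrArg QuaternionAlgebra.imK h
  exact ⟨Complex.ext h1 h2, Complex.ext h3 h4⟩

theorem qq_surj (q : ℍ[ℝ]) : qq ⟨q.re, q.imI⟩ ⟨q.imJ, q.imK⟩ = q := by
  ext <;> simp [qq]

theorem qq_norm_sq (a b : ℂ) : ‖qq a b‖ ^ 2 = ‖a‖ ^ 2 + ‖b‖ ^ 2 := by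
  have h1 : ‖qq a b‖ ^ 2 = Quaternion.normSq (qq a b) := by
    rw [pow_two, Quaternion.normSq_eq_norm_mul_self]
  rw [h1, Quaternion.normSq_def', ← Complex.normSq_eq_norm_sq, ← Complex.normSq_eq_norm_sq,
    Complex.normSq_apply, Complex.normSq_apply]
  simp [qq]
  ring

/-- `qq` as a linear map -/
def qqL : (ℂ × ℂ) →L[ℝ] ℍ[ℝ] :=
  LinearMap.toContinuousLinearMap
    { toFun := fun p => qq p.1 p.2
      map_add' := fun p p' => qq_add _ _ _ _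
      map_smul' := fun c p => by
        have := qq_smul c p.1 p.2
        simpa using this }

@[simp] theorem qqL_apply (p : ℂ × ℂ) : qqL p = qq p.1 p.2 := rfl

/-- `|a| ^ 4 + |b| ^ 6` -/
def n6 (p : ℂ × ℂ) : ℝ := (‖p.1‖ ^ 2) ^ 2 + (‖p.2‖ ^ 2) ^ 3

/-- its 12th root -/
def sc (p : ℂ × ℂ) : ℝ := (n6 p) ^ (1 / 12 : ℝ)

theorem n6_pos {p : ℂ × ℂ} (hp : p ≠ 0) : 0 < n6 p := by
  unfold n6
  by_cases h1 : p.1 = 0
  · have h2 : p.2 ≠ 0 := by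
      intro h; exact hp (Prod.ext h1 h)
    have := norm_pos_iff.mpr h2
    positivity
  · have := norm_pos_iff.mpr h1
    positivity

theorem sc_pos {p : ℂ × ℂ} (hp : p ≠ 0) : 0 < sc p := Real.rpow_pos_of_pos (n6_pos hp) _

theorem sc_pow (p : ℂ × ℂ) : sc p ^ 12 = n6 p := by
  have h : 0 ≤ n6 p := by unfold n6; positivity
  rw [sc, ← Real.rpow_natCast, ← Real.rpow_mul h]
  norm_num

theorem contDiff_n6 : ContDiff ℝ ∞ n6 := by
  unfold n6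
  have h1 : ContDiff ℝ ∞ fun p : ℂ × ℂ => ‖p.1‖ ^ 2 := contDiff_fst.norm_sq ℝ
  have h2 : ContDiff ℝ ∞ fun p : ℂ × ℂ => ‖p.2‖ ^ 2 := contDiff_snd.norm_sq ℝ
  exact (h1.pow 2).add (h2.pow 3)

theorem contDiffAt_sc {p : ℂ × ℂ} (hp : p ≠ 0) : ContDiffAt ℝ ∞ sc p := by
  unfold sc
  exact (contDiff_n6.contDiffAt).rpow_const_of_ne (n6_pos hp).ne'

/-- numerator -/
def ww (p : ℂ × ℂ) : ℍ[ℝ] := qq (((sc p)⁻¹ : ℝ) * p.1) p.2

theorem ww_ne_zero {p : ℂ × ℂ} (hp : p ≠ 0) : ww p ≠ 0 := by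
  intro h
  have h0 : ww p = qq 0 0 := by rw [h]; ext <;> simp [qq]
  obtain ⟨h1, h2⟩ := qq_inj h0
  apply hp
  have h3 := sc_pos hp
  rcases mul_eq_zero.mp h1 with h4 | h4
  · exfalso
    have : ((sc p)⁻¹ : ℝ) = 0 := by exact_mod_cast h4
    exact (inv_pos.mpr h3).ne' this
  · exact Prod.ext h4 h2

/-- projection -/
def Dn (p : ℂ × ℂ) : ℍ[ℝ] := ‖ww p‖⁻¹ • ww p

theorem norm_Dn {p : ℂ × ℂ} (hp : p ≠ 0) : ‖Dn p‖ = 1 := by
  have := norm_ne_zero_iff.mpr (ww_ne_zero hp)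
  rw [Dn, norm_smul, norm_inv, norm_norm, inv_mul_cancel₀ this]

theorem contDiffAt_ww {p : ℂ × ℂ} (hp : p ≠ 0) : ContDiffAt ℝ ∞ ww p := by
  have h1 : ContDiffAt ℝ ∞ (fun p : ℂ × ℂ => (((sc p)⁻¹ : ℝ) : ℂ) * p.1) p := by
    have h2 : ContDiffAt ℝ ∞ (fun p : ℂ × ℂ => (sc p)⁻¹) p :=
      (contDiffAt_sc hp).inv (sc_pos hp).ne'
    have h3 : ContDiffAt ℝ ∞ (fun p : ℂ × ℂ => (((sc p)⁻¹ : ℝ) : ℂ)) p :=
      (Complex.ofRealCLM.contDiff.contDiffAt).comp p h2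
    exact h3.mul contDiffAt_fst
  exact (qqL.contDiff.contDiffAt).comp p (h1.prodMk contDiffAt_snd)

theorem contDiffAt_Dn {p : ℂ × ℂ} (hp : p ≠ 0) : ContDiffAt ℝ ∞ Dn p := by
  have h1 := contDiffAt_ww hp
  have h2 : ContDiffAt ℝ ∞ (fun p => ‖ww p‖) p := h1.norm ℝ (ww_ne_zero hp)
  exact (h2.inv (norm_ne_zero_iff.mpr (ww_ne_zero hp))).smul h1

theorem sc_weight {μ : ℝ} (hμ : 0 < μ) (p : ℂ × ℂ) :
    sc ((μ : ℂ) ^ 3 * p.1, (μ : ℂ) ^ 2 * p.2) = μ * sc p := by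
  have h0 : ‖(μ : ℂ)‖ = μ := by rw [Complex.norm_real]; exact abs_of_pos hμ
  have h1 : n6 ((μ : ℂ) ^ 3 * p.1, (μ : ℂ) ^ 2 * p.2) = μ ^ 12 * n6 p := by
    simp only [n6, norm_mul, norm_pow, h0]
    ring
  have h2 : 0 ≤ n6 p := by unfold n6; positivity
  rw [sc, h1, Real.mul_rpow (by positivity) h2, ← Real.rpow_natCast, ← Real.rpow_mul hμ.le]
  norm_num [sc]

theorem ww_weight {μ : ℝ} (hμ : 0 < μ) (p : ℂ × ℂ) :
    ww ((μ : ℂ) ^ 3 * p.1, (μ : ℂ) ^ 2 * p.2) = (μ ^ 2) • ww p := by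
  rw [ww, sc_weight hμ, ww, ← qq_smul]
  congr 1
  · push_cast
    have : (μ : ℂ) ≠ 0 := by exact_mod_cast hμ.ne'
    simp only [mul_inv]
    field_simp
  · push_cast; rfl

theorem normalize_smul {c : ℝ} (hc : 0 < c) (v : ℍ[ℝ]) : ‖c • v‖⁻¹ • (c • v) = ‖v‖⁻¹ • v := by
  rw [norm_smul, Real.norm_of_nonneg hc.le, mul_inv, smul_smul]
  congr 1
  field_simp

theorem Dn_weight {μ : ℝ} (hμ : 0 < μ) (p : ℂ × ℂ) :
    Dn ((μ : ℂ) ^ 3 * p.1, (μ : ℂ) ^ 2 * p.2) = Dn p := by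
  rw [Dn, ww_weight hμ, normalize_smul (by positivity), Dn]

theorem weight_ne_zero {μ : ℝ} (hμ : 0 < μ) {p : ℂ × ℂ} (hp : p ≠ 0) :
    ((μ : ℂ) ^ 3 * p.1, (μ : ℂ) ^ 2 * p.2) ≠ 0 := by
  intro h
  have h1 := (Prod.ext_iff.mp h).1
  have h2 := (Prod.ext_iff.mp h).2
  simp at h1 h2
  apply hp
  exact Prod.ext (h1.resolve_left hμ.ne') (h2.resolve_left hμ.ne')

/-- monotonicity step -/
theorem sc_eq_of_ww_eq {p p' : ℂ × ℂ} (hp : p ≠ 0) (hp' : p' ≠ 0) (h : ww p = ww p') : p = p' := by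
  obtain ⟨h1, h2⟩ := qq_inj h
  have s1 := sc_pos hp
  have s2 := sc_pos hp'
  have e1 := sc_pow p
  have e2 := sc_pow p'
  -- `x = |a| / s`
  set x := ‖(((sc p)⁻¹ : ℝ) : ℂ) * p.1‖ with hx
  have hx' : x = ‖(((sc p')⁻¹ : ℝ) : ℂ) * p'.1‖ := by rw [hx, h1]
  have n1 : ‖p.1‖ = sc p * x := by
    rw [hx, norm_mul, Complex.norm_real, norm_inv, Real.norm_of_nonneg s1.le]
    field_simp
  have n2 : ‖p'.1‖ = sc p' * x := by
    rw [hx', norm_mul, Complex.norm_real, norm_inv, Real.norm_of_nonneg s2.le]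
    field_simp
  have hx0 : 0 ≤ x := norm_nonneg _
  rw [n6, n1] at e1
  rw [n6, n2, ← h2] at e2
  have hs : sc p = sc p' := by
    by_contra hne
    have key : ∀ s s' : ℝ, 0 < s → s < s' → s ^ 12 = ((s * x) ^ 2) ^ 2 + (‖p.2‖ ^ 2) ^ 3 →
        s' ^ 12 = ((s' * x) ^ 2) ^ 2 + (‖p.2‖ ^ 2) ^ 3 → False := by
      intro s s' hs hss k1 k2
      have hs' : 0 < s' := hs.trans hss
      -- s^8 >= x^4
      have a1 : x ^ 4 ≤ s ^ 8 := by
        have : s ^ 4 * x ^ 4 ≤ s ^ 4 * s ^ 8 := by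
          have hb : 0 ≤ (‖p.2‖ ^ 2) ^ 3 := by positivity
          nlinarith
        exact le_of_mul_le_mul_left this (by positivity)
      have a2 : s ^ 8 < s' ^ 8 := by gcongr
      have a3 : s ^ 4 < s' ^ 4 := by gcongr
      have a4 : s ^ 4 * (s ^ 8 - x ^ 4) = s' ^ 4 * (s' ^ 8 - x ^ 4) := by
        linear_combination k1 - k2
      have a5 : s ^ 4 * (s ^ 8 - x ^ 4) ≤ s' ^ 4 * (s ^ 8 - x ^ 4) :=
        mul_le_mul_of_nonneg_right a3.le (by linarith)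
      have a6 : s' ^ 4 * (s ^ 8 - x ^ 4) < s' ^ 4 * (s' ^ 8 - x ^ 4) :=
        mul_lt_mul_of_pos_left (by linarith) (by positivity)
      linarith
    rcases lt_or_gt_of_ne hne with hlt | hlt
    · exact key _ _ s1 hlt e1 e2
    · exact key _ _ s2 hlt e2 e1
  refine Prod.ext ?_ h2
  rw [hs] at h1
  have : (((sc p')⁻¹ : ℝ) : ℂ) ≠ 0 := by
    exact_mod_cast (inv_pos.mpr s2).ne'
  exact mul_left_cancel₀ this h1

theorem Dn_inj {p p' : ℂ × ℂ} (hp : p ≠ 0) (hp' : p' ≠ 0) (h : Dn p = Dn p') :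
    ∃ μ : ℝ, 0 < μ ∧ p = ((μ : ℂ) ^ 3 * p'.1, (μ : ℂ) ^ 2 * p'.2) := by
  have n1 := norm_pos_iff.mpr (ww_ne_zero hp)
  have n2 := norm_pos_iff.mpr (ww_ne_zero hp')
  set c := ‖ww p‖ * ‖ww p'‖⁻¹ with hc
  have hc0 : 0 < c := by positivity
  have h1 : ww p = c • ww p' := by
    have : ‖ww p‖ • Dn p = ww p := by
      rw [Dn, smul_smul, mul_inv_cancel₀ n1.ne', one_smul]
    rw [← this, h, Dn, smul_smul]
  refine ⟨Real.sqrt c, Real.sqrt_pos.mpr hc0, ?_⟩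
  apply sc_eq_of_ww_eq hp (weight_ne_zero (Real.sqrt_pos.mpr hc0) hp')
  rw [ww_weight (Real.sqrt_pos.mpr hc0), Real.sq_sqrt hc0.le, h1]

theorem Dn_surj {q : ℍ[ℝ]} (hq : ‖q‖ = 1) : ∃ p : ℂ × ℂ, p ≠ 0 ∧ Dn p = q := by
  set a : ℂ := ⟨q.re, q.imI⟩
  set b : ℂ := ⟨q.imJ, q.imK⟩
  have hab : qq a b = q := qq_surj q
  have hn : ‖a‖ ^ 2 + ‖b‖ ^ 2 = 1 := by rw [← qq_norm_sq, hab, hq]; norm_num
  -- find s
  obtain ⟨s, hs0, hs⟩ : ∃ s : ℝ, 0 < s ∧ s ^ 12 = ((s * ‖a‖) ^ 2) ^ 2 + (‖b‖ ^ 2) ^ 3 := by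
    by_cases hb : b = 0
    · refine ⟨1, one_pos, ?_⟩
      rw [hb] at hn ⊢
      simp at hn ⊢
      rcases hn with h | h
      · rw [h]; norm_num
      · rw [h]; norm_num
    · have hb' := norm_pos_iff.mpr hb
      let φ : ℝ → ℝ := fun s => s ^ 12 - (((s * ‖a‖) ^ 2) ^ 2 + (‖b‖ ^ 2) ^ 3)
      have hcont : ContinuousOn φ (Icc 0 2) := by fun_prop
      have h0 : φ 0 ≤ 0 := by
        simp only [φ]
        have : 0 ≤ (‖b‖ ^ 2) ^ 3 := by positivity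
        norm_num
      have h2 : 0 ≤ φ 2 := by
        simp only [φ]
        have ha : ‖a‖ ^ 2 ≤ 1 := by nlinarith [sq_nonneg ‖b‖]
        have hb2 : ‖b‖ ^ 2 ≤ 1 := by nlinarith [sq_nonneg ‖a‖]
        have h3 : (‖b‖ ^ 2) ^ 3 ≤ 1 := pow_le_one₀ (by positivity) hb2
        have h4 : (‖a‖ ^ 2) ^ 2 ≤ 1 := pow_le_one₀ (by positivity) ha
        have h5 : ((2 * ‖a‖) ^ 2) ^ 2 = 16 * (‖a‖ ^ 2) ^ 2 := by ring
        rw [h5]
        linarith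
      obtain ⟨s, hs, hs2⟩ := intermediate_value_Icc (by norm_num : (0:ℝ) ≤ 2) hcont ⟨h0, h2⟩
      refine ⟨s, ?_, by simpa [φ, sub_eq_zero] using hs2⟩
      rcases eq_or_lt_of_le hs.1 with h | h
      · exfalso
        rw [← h] at hs2
        simp only [φ] at hs2
        have : 0 < (‖b‖ ^ 2) ^ 3 := by positivity
        norm_num at hs2
        exact hb hs2
      · exact h
  have hp : ((s : ℂ) * a, b) ≠ (0 : ℂ × ℂ) := by
    intro h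
    have h1 := (Prod.ext_iff.mp h).1
    have h2 := (Prod.ext_iff.mp h).2
    simp [hs0.ne'] at h1 h2
    rw [h1, h2] at hn
    norm_num at hn
  have hsc : sc ((s : ℂ) * a, b) = s := by
    have h1 := sc_pow ((s : ℂ) * a, b)
    have h2 : n6 ((s : ℂ) * a, b) = s ^ 12 := by
      rw [n6, hs, norm_mul, Complex.norm_real, Real.norm_of_nonneg hs0.le]
    rw [h2] at h1
    exact (pow_left_inj₀ (sc_pos hp).le hs0.le (by norm_num)).mp h1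
  refine ⟨((s : ℂ) * a, b), hp, ?_⟩
  have hww : ww ((s : ℂ) * a, b) = q := by
    rw [ww, hsc, ← hab]
    congr 1
    push_cast
    have : (s : ℂ) ≠ 0 := by exact_mod_cast hs0.ne'
    field_simp
  rw [Dn, hww, hq, inv_one, one_smul]

end

end Pool.Agent.TRF
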