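import Pool.Agent.TRF.Kc

/-!
# TRF/PsiR: radial reparametrisation of the page near the lattice points
-/

open Complex Set Filter
open scoped Topology ContDiff

namespace Pool.Agent.TRF

noncomputable section

/-- half of the collar radius -/
def ra : ℝ := rad / 2

theorem ra_pos : 0 < ra := half_pos rad_pos

theorem ra_lt : ra < 1 / 128 := by have := rad_lt; unfold ra; linarith

/-- the cut-off -/
def chi (r : ℝ) : ℝ := Real.smoothTransition ((r - ra) / ra)

theorem chi_zero {r : ℝ} (h : r ≤ ra) : chi r = 0 :=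
  Real.smoothTransition.zero_of_nonpos (div_nonpos_of_nonpos_of_nonneg (by linarith) ra_pos.le)

theorem chi_one {r : ℝ} (h : 2 * ra ≤ r) : chi r = 1 :=
  Real.smoothTransition.one_of_one_le (by rw [le_div_iff₀ ra_pos]; linarith)

theorem chi_nonneg (r : ℝ) : 0 ≤ chi r := Real.smoothTransition.nonneg _

theorem chi_le_one (r : ℝ) : chi r ≤ 1 := Real.smoothTransition.le_one _

theorem contDiff_chi : ContDiff ℝ ∞ chi :=
  Real.smoothTransition.contDiff.comp ((contDiff_id.sub contDiff_const).div_const _)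

theorem chi_mono : Monotone chi := by
  intro x y h
  apply Real.smoothTransition.monotone
  exact div_le_div_of_nonneg_right (by linarith) ra_pos.le

/-- the sixth root part -/
def sr (r : ℝ) : ℝ := ra ^ (5 / 6 : ℝ) * r ^ (1 / 6 : ℝ)

theorem sr_pos {r : ℝ} (h : 0 < r) : 0 < sr r :=
  mul_pos (Real.rpow_pos_of_pos ra_pos _) (Real.rpow_pos_of_pos h _)

theorem sr_pow {r : ℝ} (h : 0 < r) : sr r ^ 6 = ra ^ 5 * r := by
  rw [sr, mul_pow, ← Real.rpow_natCast, ← Real.rpow_natCast, ← Real.rpow_mul ra_pos.le,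
    ← Real.rpow_mul h.le]
  norm_num

theorem sr_mono {r s : ℝ} (h : 0 < r) (hs : r < s) : sr r < sr s := by
  have h1 := sr_pow h
  have h2 := sr_pow (h.trans hs)
  have h3 : sr r ^ 6 < sr s ^ 6 := by
    rw [h1, h2]
    exact mul_lt_mul_of_pos_left hs (pow_pos ra_pos 5)
  exact lt_of_pow_lt_pow_left₀ 6 (sr_pos (h.trans hs)).le h3

theorem sr_le {r : ℝ} (h : ra ≤ r) : sr r ≤ r := by
  have h0 : 0 < r := lt_of_lt_of_le ra_pos h
  have h1 := sr_pow h0
  have h3 : sr r ^ 6 ≤ r ^ 6 := by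
    rw [h1]
    have : ra ^ 5 ≤ r ^ 5 := by gcongr; exact ra_pos.le
    calc ra ^ 5 * r ≤ r ^ 5 * r := mul_le_mul_of_nonneg_right this h0.le
      _ = r ^ 6 := by ring
  exact le_of_pow_le_pow_left₀ (by norm_num) h0.le h3

/-- the radial function -/
def phR (r : ℝ) : ℝ := (1 - chi r) * sr r + chi r * r

theorem phR_small {r : ℝ} (h : r ≤ ra) : phR r = sr r := by rw [phR, chi_zero h]; ring

theorem phR_large {r : ℝ} (h : 2 * ra ≤ r) : phR r = r := by rw [phR, chi_one h]; ring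

theorem phR_pos {r : ℝ} (h : 0 < r) : 0 < phR r := by
  rw [phR]
  have h1 := chi_nonneg r
  have h2 := chi_le_one r
  have h3 := sr_pos h
  rcases eq_or_lt_of_le h1 with h4 | h4
  · rw [← h4]; simpa using h3
  · have : 0 ≤ (1 - chi r) * sr r := mul_nonneg (by linarith) h3.le
    have : 0 < chi r * r := mul_pos h4 h
    linarith

theorem phR_strictMono {r s : ℝ} (h : 0 < r) (hs : r < s) : phR r < phR s := by
  have c1 := chi_nonneg r
  have c2 := chi_le_one s
  have c3 := chi_mono hs.le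
  have s1 := sr_mono h hs
  by_cases hra : s ≤ ra
  · rw [phR_small hra, phR_small (hs.le.trans hra)]; exact s1
  · push Not at hra
    have s2 := sr_le hra.le
    rw [phR, phR]
    have a1 : (1 - chi r) * sr r + chi r * r < (1 - chi r) * sr s + chi r * s ∨
        ((1 - chi r) * sr r + chi r * r ≤ (1 - chi r) * sr s + chi r * s ∧ False) := by
      left
      rcases eq_or_lt_of_le c1 with h4 | h4
      · rw [← h4]; simpa using s1
      · have b1 : (1 - chi r) * sr r ≤ (1 - chi r) * sr s :=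
          mul_le_mul_of_nonneg_left s1.le (by linarith)
        have b2 : chi r * r < chi r * s := mul_lt_mul_of_pos_left hs h4
        linarith
    have a2 : (1 - chi r) * sr s + chi r * s ≤ (1 - chi s) * sr s + chi s * s := by
      nlinarith
    rcases a1 with a | a
    · linarith
    · exact a.2.elim

theorem contDiffAt_sr {r : ℝ} (h : 0 < r) : ContDiffAt ℝ ∞ sr r := by
  unfold sr
  exact contDiffAt_const.mul (contDiffAt_id.rpow_const_of_ne h.ne')

theorem contDiffAt_phR {r : ℝ} (h : 0 < r) : ContDiffAt ℝ ∞ phR r := by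
  unfold phR
  have h1 := contDiff_chi.contDiffAt (x := r)
  exact ((contDiffAt_const.sub h1).mul (contDiffAt_sr h)).add (h1.mul contDiffAt_id)

theorem phR_deriv_pos {r : ℝ} (h : 0 < r) : 0 < deriv phR r := by
  have hc : HasDerivAt chi (deriv chi r) r :=
    (contDiff_chi.contDiffAt.differentiableAt (by simp)).hasDerivAt
  have hc0 : 0 ≤ deriv chi r := chi_mono.deriv_nonneg
  have hs : HasDerivAt sr (ra ^ (5 / 6 : ℝ) * ((1 / 6) * r ^ ((1 / 6 : ℝ) - 1))) r := by
    have := (Real.hasDerivAt_rpow_const (x := r) (p := 1 / 6) (Or.inl h.ne')).const_mul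
      (ra ^ (5 / 6 : ℝ))
    exact this
  set s' := ra ^ (5 / 6 : ℝ) * ((1 / 6) * r ^ ((1 / 6 : ℝ) - 1)) with hs'
  have hs'0 : 0 < s' := by
    have := Real.rpow_pos_of_pos ra_pos (5 / 6)
    have := Real.rpow_pos_of_pos h ((1 / 6 : ℝ) - 1)
    positivity
  have hd : HasDerivAt phR (-deriv chi r * sr r + (1 - chi r) * s' +
      (deriv chi r * r + chi r * 1)) r := by
    have h1 := ((hc.const_sub 1).mul hs).add (hc.mul (hasDerivAt_id r))
    exact h1
  rw [hd.deriv]
  have c1 := chi_nonneg r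
  have c2 := chi_le_one r
  have key : 0 < (1 - chi r) * s' + chi r * 1 := by
    rcases eq_or_lt_of_le c1 with h4 | h4
    · rw [← h4]; simpa using hs'0
    · have : 0 ≤ (1 - chi r) * s' := mul_nonneg (by linarith) hs'0.le
      linarith
  have key2 : 0 ≤ deriv chi r * (r - sr r) := by
    by_cases hra : ra ≤ r
    · exact mul_nonneg hc0 (by have := sr_le hra; linarith)
    · push Not at hra
      have : deriv chi r = 0 := by
        have he : chi =ᶠ[𝓝 r] fun _ => 0 := by
          filter_upwards [Iio_mem_nhds hra] with x hx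
          exact chi_zero (le_of_lt hx)
        rw [he.deriv_eq]; simp
      rw [this]; simp
  linarith

theorem phR_lt_half {r : ℝ} (h : 0 < r) (h1 : r < 1 / 2) : phR r < 1 / 2 := by
  have := phR_strictMono h h1
  rwa [phR_large (r := 1 / 2) (by have := ra_lt; linarith)] at this

theorem phR_surj {s : ℝ} (hs : 0 < s) : ∃ r : ℝ, 0 < r ∧ phR r = s := by
  by_cases h : 2 * ra ≤ s
  · exact ⟨s, hs, phR_large h⟩
  push Not at h
  -- small point
  set r₀ : ℝ := min ra (s ^ 6) with hr₀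
  have hr₀0 : 0 < r₀ := lt_min ra_pos (pow_pos hs 6)
  have h1 : phR r₀ ≤ s := by
    rw [phR_small (min_le_left _ _)]
    have h2 := sr_pow hr₀0
    have h3 : sr r₀ ^ 6 ≤ s ^ 6 := by
      rw [h2]
      have h4 : ra ^ 5 ≤ 1 := pow_le_one₀ ra_pos.le (by have := ra_lt; linarith)
      calc ra ^ 5 * r₀ ≤ 1 * r₀ := mul_le_mul_of_nonneg_right h4 hr₀0.le
        _ ≤ s ^ 6 := by rw [one_mul]; exact min_le_right _ _
    exact le_of_pow_le_pow_left₀ (by norm_num) hs.le h3
  have h5 : s ≤ phR (2 * ra) := by rw [phR_large le_rfl]; exact h.le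
  have hle : r₀ ≤ 2 * ra := by
    have := min_le_left ra (s ^ 6)
    have := ra_pos
    linarith
  have hcont : ContinuousOn phR (Icc r₀ (2 * ra)) := by
    intro x hx
    exact (contDiffAt_phR (lt_of_lt_of_le hr₀0 hx.1)).continuousAt.continuousWithinAt
  obtain ⟨r, hr, hr2⟩ := intermediate_value_Icc hle hcont ⟨h1, h5⟩
  exact ⟨r, lt_of_lt_of_le hr₀0 hr.1, hr2⟩

/-- the radial map of `ℂ` -/
def radC (w : ℂ) : ℂ := ((phR ‖w‖ / ‖w‖ : ℝ) : ℂ) * w

theorem norm_radC {w : ℂ} (h : w ≠ 0) : ‖radC w‖ = phR ‖w‖ := by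
  have h1 := norm_pos_iff.mpr h
  rw [radC, norm_mul, Complex.norm_real, Real.norm_of_nonneg (div_nonneg (phR_pos h1).le h1.le)]
  field_simp

theorem radC_large {w : ℂ} (h : 2 * ra ≤ ‖w‖) : radC w = w := by
  have h0 : 0 < ‖w‖ := lt_of_lt_of_le (by have := ra_pos; linarith) h
  rw [radC, phR_large h, div_self h0.ne', ofReal_one, one_mul]

theorem radC_ne {w : ℂ} (h : w ≠ 0) : radC w ≠ 0 := by
  rw [← norm_pos_iff, norm_radC h]; exact phR_pos (norm_pos_iff.mpr h)

theorem radC_rot {w u : ℂ} (hu : ‖u‖ = 1) : radC (u * w) = u * radC w := by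
  rw [radC, radC, norm_mul, hu, one_mul]; ring

theorem radC_inj {w w' : ℂ} (h : w ≠ 0) (h' : w' ≠ 0) (he : radC w = radC w') : w = w' := by
  have h1 := norm_pos_iff.mpr h
  have h1' := norm_pos_iff.mpr h'
  have hn : ‖w‖ = ‖w'‖ := by
    have e : phR ‖w‖ = phR ‖w'‖ := by rw [← norm_radC h, ← norm_radC h', he]
    rcases lt_trichotomy ‖w‖ ‖w'‖ with hl | hl | hl
    · exact absurd e (phR_strictMono h1 hl).ne
    · exact hl
    · exact absurd e (phR_strictMono h1' hl).ne'
  rw [radC, radC, hn] at he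
  have : ((phR ‖w'‖ / ‖w'‖ : ℝ) : ℂ) ≠ 0 := by
    exact_mod_cast (div_pos (phR_pos h1') h1').ne'
  exact mul_left_cancel₀ this he

theorem radC_surj {w : ℂ} (h : w ≠ 0) : ∃ v : ℂ, v ≠ 0 ∧ radC v = w := by
  have h1 := norm_pos_iff.mpr h
  obtain ⟨r, hr, hr2⟩ := phR_surj h1
  refine ⟨((r / ‖w‖ : ℝ) : ℂ) * w, ?_, ?_⟩
  · apply mul_ne_zero _ h
    exact_mod_cast (div_pos hr h1).ne'
  · have hn : ‖((r / ‖w‖ : ℝ) : ℂ) * w‖ = r := by
      rw [norm_mul, Complex.norm_real, Real.norm_of_nonneg (div_pos hr h1).le]; field_simp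
    rw [radC, hn, hr2, ← mul_assoc, ← Complex.ofReal_mul]
    rw [show ‖w‖ / r * (r / ‖w‖) = 1 by field_simp]
    simp

theorem contDiffAt_radC {w : ℂ} (h : w ≠ 0) : ContDiffAt ℝ ∞ radC w := by
  have h1 := norm_pos_iff.mpr h
  have hn : ContDiffAt ℝ ∞ (fun w : ℂ => ‖w‖) w := contDiffAt_norm ℝ h
  have h2 : ContDiffAt ℝ ∞ (fun w : ℂ => phR ‖w‖ / ‖w‖) w :=
    (ContDiffAt.comp w (g := phR) (f := fun w : ℂ => ‖w‖) (contDiffAt_phR h1) hn).div hn h1.ne'
  exact (Complex.ofRealCLM.contDiff.contDiffAt.comp w h2).mul contDiffAt_id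

theorem radC_imm {w : ℂ} (h : w ≠ 0) (v : ℂ) (hv : fderiv ℝ radC w v = 0) : v = 0 := by
  have h1 := norm_pos_iff.mpr h
  have hP : HasDerivAt (fun τ : ℝ => w + τ • v) v 0 := by
    have := ((hasDerivAt_id (0 : ℝ)).smul_const v).const_add w
    simpa using this
  have hP0 : w + (0 : ℝ) • v = w := by simp
  have hR : HasDerivAt (fun τ : ℝ => radC (w + τ • v)) 0 0 := by
    have h2 : HasFDerivAt radC (fderiv ℝ radC w) (w + (0 : ℝ) • v) := by
      rw [hP0]; exact ((contDiffAt_radC h).differentiableAt (by simp)).hasFDerivAt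
    have h3 := h2.comp_hasDerivAt 0 hP
    rw [hv] at h3
    exact h3
  have hne : ∀ᶠ τ in 𝓝 (0 : ℝ), w + τ • v ≠ 0 := by
    apply hP.continuousAt.eventually_ne
    rw [hP0]; exact h
  -- derivative of the norm
  have hN : HasDerivAt (fun τ : ℝ => ‖radC (w + τ • v)‖) 0 0 := by
    have h2 : HasFDerivAt (fun z : ℂ => ‖z‖) (fderiv ℝ (fun z : ℂ => ‖z‖) (radC w))
        (radC (w + (0 : ℝ) • v)) := by
      rw [hP0]
      exact ((contDiffAt_norm ℝ (radC_ne h)).differentiableAt (by simp : (1 : WithTop ℕ∞) ≠ 0)).hasFDerivAt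
    have h3 := h2.comp_hasDerivAt 0 hR
    rw [map_zero] at h3
    exact h3
  obtain ⟨n', hn'⟩ : ∃ n' : ℝ, HasDerivAt (fun τ : ℝ => ‖w + τ • v‖) n' 0 := by
    have h2 : HasFDerivAt (fun z : ℂ => ‖z‖) (fderiv ℝ (fun z : ℂ => ‖z‖) w)
        (w + (0 : ℝ) • v) := by
      rw [hP0]
      exact ((contDiffAt_norm ℝ h).differentiableAt (by simp : (1 : WithTop ℕ∞) ≠ 0)).hasFDerivAt
    exact ⟨_, h2.comp_hasDerivAt 0 hP⟩
  have hph : HasDerivAt phR (deriv phR ‖w‖) (‖w + (0 : ℝ) • v‖) := by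
    rw [hP0]; exact ((contDiffAt_phR h1).differentiableAt (by simp)).hasDerivAt
  have hN2 : HasDerivAt (fun τ : ℝ => ‖radC (w + τ • v)‖) (deriv phR ‖w‖ * n') 0 := by
    have h2 := hph.comp (0 : ℝ) hn'
    refine h2.congr_of_eventuallyEq ?_
    filter_upwards [hne] with τ hτ
    exact norm_radC hτ
  have hn0 : n' = 0 := by
    have := hN.unique hN2
    have hp := phR_deriv_pos h1
    rcases mul_eq_zero.mp this.symm with h3 | h3
    · exact absurd h3 hp.ne'
    · exact h3
  subst hn0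
  -- the scalar factor has zero derivative
  have hg : HasDerivAt (fun τ : ℝ => (((phR ‖w + τ • v‖ / ‖w + τ • v‖)⁻¹ : ℝ) : ℂ)) 0 0 := by
    have h2 : HasDerivAt (fun τ : ℝ => (phR ‖w + τ • v‖ / ‖w + τ • v‖)⁻¹) 0 0 := by
      have h3 := hph.comp (0 : ℝ) hn'
      rw [mul_zero] at h3
      have h4 := h3.div hn' (by rw [hP0]; exact h1.ne')
      have h5 := h4.inv (by
        simp only [Pi.div_apply, Function.comp, hP0]
        exact (div_pos (phR_pos h1) h1).ne')
      simp only [mul_zero, zero_mul, sub_zero, zero_div, neg_zero] at h5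
      exact h5
    have := h2.ofReal_comp
    simpa using this
  have hfin := hg.mul hR
  have e : (fun τ : ℝ => w + τ • v) =ᶠ[𝓝 0]
      ((fun τ : ℝ => (((phR ‖w + τ • v‖ / ‖w + τ • v‖)⁻¹ : ℝ) : ℂ)) *
        fun τ : ℝ => radC (w + τ • v)) := by
    filter_upwards [hne] with τ hτ
    have hpos := norm_pos_iff.mpr hτ
    have hq : ((phR ‖w + τ • v‖ / ‖w + τ • v‖ : ℝ) : ℂ) ≠ 0 := by
      exact_mod_cast (div_pos (phR_pos hpos) hpos).ne'
    simp only [Pi.mul_apply, radC]
    rw [Complex.ofReal_inv, ← mul_assoc, inv_mul_cancel₀ hq, one_mul]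
  have := hP.unique (hfin.congr_of_eventuallyEq e)
  rw [this]; simp

end

end Pool.Agent.TRF
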