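import Pool.Agent.TRF.Gam
import Pool.Agent.CSG.FFp

/-!
# TRF/Shr: a shear near the surgered circle

`H0 e (x, t) = Hb e (Sh x t, t)`, where `Sh x t = pt (x 0) (x 1 + sx (x 0) (x 2) t) (x 2)`; the function `sx` is `v₀`
near `x 0 = 1/2 + v₀`, `x 2 = 1/2`, `t = 1/2`.
-/

open Complex Set Filter
open scoped Topology ContDiff Quaternion Manifold

namespace Pool.Agent.TRF
open Pool.Agent.CSG Pool.Agent.TS

noncomputable section

/-- `x - 1/2` near `1/2`, `0` near `0` -/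
def Ash (x : ℝ) : ℝ := (1 - bt x) * (Int.fract x - 1 / 2)

theorem Ash_smooth : ContDiff ℝ ∞ Ash := by
  apply FFp_smooth_of (fun x => (1 - stp (1 / 100) (1 / 25) ((x - 1 / 2) ^ 2)) * (x - 1 / 2)) ?_ 0
  · intro x _ hx
    simp only [FFp_bt_one (x := x) (Or.inl (by linarith))]
    ring
  · intro x hx _
    simp only [FFp_bt_one (x := x) (Or.inr (by linarith))]
    ring
  · apply ContDiff.mul
    · exact contDiff_const.sub ((stp_smooth _ _).comp ((contDiff_id.sub contDiff_const).pow 2))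
    · exact contDiff_id.sub contDiff_const

theorem bt_int (x : ℝ) (m : ℤ) : bt (x + m) = bt x := by simp [bt]
theorem Ash_int (x : ℝ) (m : ℤ) : Ash (x + m) = Ash x := by simp [Ash, bt_int]

theorem bt_of_int (m : ℤ) : bt m = 1 := by
  have := FFp_bt_one (x := 0) (Or.inl (by norm_num))
  simpa [bt] using this

/-- cut-off in `t` -/
def tb (t : ℝ) : ℝ := 1 - stp (1 / 100) (1 / 25) ((t - 1 / 2) ^ 2)

theorem tb_smooth : ContDiff ℝ ∞ tb :=
  contDiff_const.sub ((stp_smooth _ _).comp ((contDiff_id.sub contDiff_const).pow 2))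

theorem tb_zero {t : ℝ} (h : t ≤ 3 / 10 ∨ 7 / 10 ≤ t) : tb t = 0 := by
  rw [tb, FFp_bt_one h]; ring

theorem tb_one {t : ℝ} (h : |t - 1 / 2| ≤ 1 / 10) : tb t = 1 := by
  have h2 : (t - 1 / 2) ^ 2 ≤ 1 / 100 := by
    rw [← sq_abs]
    nlinarith [abs_nonneg (t - 1 / 2)]
  rw [tb, stp_zero (by norm_num) h2]; ring

/-- the shear function -/
def sx (a b t : ℝ) : ℝ := Ash a * (1 - bt b) * tb t

theorem sx_smooth {V : Type*} [NormedAddCommGroup V] [NormedSpace ℝ V] {f g h : V → ℝ}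
    (hf : ContDiff ℝ ∞ f) (hg : ContDiff ℝ ∞ g) (hh : ContDiff ℝ ∞ h) :
    ContDiff ℝ ∞ fun v => sx (f v) (g v) (h v) :=
  ((Ash_smooth.comp hf).mul (contDiff_const.sub (bt_smooth.comp hg))).mul (tb_smooth.comp hh)

theorem sx_int (a b t : ℝ) (m n : ℤ) : sx (a + m) (b + n) t = sx a b t := by
  simp only [sx, Ash_int, bt_int]

theorem fract_half {v : ℝ} (h : |v| < 1 / 10) : Int.fract (1 / 2 + v) = 1 / 2 + v := by
  rw [Int.fract_eq_self]
  have := abs_lt.mp h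
  constructor <;> linarith

theorem bt_near {v : ℝ} (h : |v| < 1 / 10) : bt (1 / 2 + v) = 0 := by
  rw [bt, fract_half h]
  apply stp_zero (by norm_num)
  have : (1 / 2 + v - 1 / 2) ^ 2 = |v| ^ 2 := by rw [sq_abs]; ring
  rw [this]
  nlinarith [abs_nonneg v]

theorem sx_near {a b c : ℝ} (ha : |a| < 1 / 10) (hb : |b| < 1 / 10) (hc : |c| < 1 / 10) :
    sx (1 / 2 + a) (1 / 2 + b) (1 / 2 + c) = a := by
  rw [sx, Ash, bt_near ha, bt_near hb, fract_half ha, tb_one (by rw [add_sub_cancel_left]; exact hc.le)]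
  ring

/-- the shear -/
def Sh (x : E3) (t : ℝ) : E3 := pt (x 0) (x 1 + sx (x 0) (x 2) t) (x 2)

@[simp] theorem Sh_0 (x : E3) (t : ℝ) : Sh x t 0 = x 0 := rfl
@[simp] theorem Sh_1 (x : E3) (t : ℝ) : Sh x t 1 = x 1 + sx (x 0) (x 2) t := rfl
@[simp] theorem Sh_2 (x : E3) (t : ℝ) : Sh x t 2 = x 2 := rfl

theorem E3_ext {x y : E3} (h0 : x 0 = y 0) (h1 : x 1 = y 1) (h2 : x 2 = y 2) : x = y := by
  ext i; fin_cases i
  · exact h0
  · exact h1
  · exact h2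

theorem Sh_of_far (x : E3) {t : ℝ} (h : t ≤ 3 / 10 ∨ 7 / 10 ≤ t) : Sh x t = x := by
  apply E3_ext
  · simp
  · simp [sx, tb_zero h]
  · simp

theorem Sh_of_ax {x : E3} (t : ℝ) {n : ℤ} (h : x 2 = n) : Sh x t = x := by
  apply E3_ext
  · simp
  · simp [sx, h, bt_of_int]
  · simp

theorem Sh_vec (x : E3) (t : ℝ) (m : Fin 3 → ℤ) : Sh (x + vec m) t = Sh x t + vec m := by
  have e0 : ∀ z : E3, (z + vec m) 0 = z 0 + (m 0 : ℝ) := fun _ => rfl
  have e1 : ∀ z : E3, (z + vec m) 1 = z 1 + (m 1 : ℝ) := fun _ => rfl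
  have e2 : ∀ z : E3, (z + vec m) 2 = z 2 + (m 2 : ℝ) := fun _ => rfl
  apply E3_ext
  · rw [e0]; simp [e0]
  · rw [e1, Sh_1, Sh_1, e0, e1, e2, sx_int]; ring
  · rw [e2]; simp [e2]

theorem offAx_Sh {x : E3} {t : ℝ} : OffAx (Sh x t) ↔ OffAx x := by
  by_cases h : ∃ n : ℤ, x 2 = n
  · obtain ⟨n, hn⟩ := h
    rw [Sh_of_ax t hn]
  · simp [OffAx, h]

theorem onC_Sh {x : E3} {t : ℝ} : OnC (Sh x t) t ↔ OnC x t := by simp [OnC]

variable (e : ℤ)

/-- the map `H` of the base case -/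
def H0 (p : E3 × ℝ) : X4 := Hb e (Sh p.1 p.2, p.2)

theorem H0_per (x : E3) (t : ℝ) (m : Fin 3 → ℤ) : H0 e (x + vec m, t) = H0 e (x, t) := by
  simp only [H0]
  rw [Sh_vec, Hb_per]

theorem H0_mon (x : E3) {t : ℝ} (h0 : -(1 / 8) < t) (h1 : t < 1 / 8) :
    H0 e (act C0 x, t) = H0 e (x, t + 1) := by
  simp only [H0]
  rw [Sh_of_far _ (Or.inl (by linarith)), Sh_of_far _ (Or.inr (by linarith)), Hb_mon]

theorem H0_inj {x y : E3} {s t : ℝ} (hx : OffAx x) (hxC : ¬ OnC x s) (hy : OffAx y)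
    (hyC : ¬ OnC y t) (hs : 0 ≤ s) (hs1 : s < 1) (ht : 0 ≤ t) (ht1 : t < 1)
    (h : H0 e (x, s) = H0 e (y, t)) : s = t ∧ ∃ m, y = x + vec m := by
  have h2 := Hb_inj e (offAx_Sh.mpr hx) (mt onC_Sh.mp hxC) (offAx_Sh.mpr hy) (mt onC_Sh.mp hyC)
    hs hs1 ht ht1 h
  obtain ⟨rfl, m, hm⟩ := h2
  refine ⟨rfl, m, ?_⟩
  rw [← Sh_vec] at hm
  have e0 := congrArg (fun z : E3 => z 0) hm
  have e2 := congrArg (fun z : E3 => z 2) hm
  have e1 := congrArg (fun z : E3 => z 1) hm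
  simp only [Sh_0] at e0
  simp only [Sh_2] at e2
  simp only [Sh_1] at e1
  rw [e0, e2] at e1
  exact E3_ext e0 (by linarith) e2

/-- the coordinate change -/
def DqE : (E3 × ℝ) ≃ ((ℂ × ℝ) × ℝ) where
  toFun p := ((zz (Sh p.1 p.2), p.2), ss (Sh p.1 p.2))
  invFun q :=
    let b := q.1.1.im / om.im
    let a := q.1.1.re - b * om.re
    (pt (q.2 + a) (a - sx (q.2 + a) b q.1.2) b, q.1.2)
  left_inv := by
    rintro ⟨x, t⟩
    have hne := om_im_pos.ne'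
    have hb : (zz (Sh x t)).im / om.im = x 2 := by
      simp only [zz, zp, Sh_1, Sh_2]
      simp
      field_simp
    have ha : (zz (Sh x t)).re - x 2 * om.re = x 1 + sx (x 0) (x 2) t := by
      simp [zz, zp]
    simp only [hb, ha]
    have hs : ss (Sh x t) + (x 1 + sx (x 0) (x 2) t) = x 0 := by
      simp [ss]
    simp only [hs]
    apply Prod.ext
    · apply E3_ext
      · simp
      · simp
      · simp
    · rfl
  right_inv := by
    rintro ⟨⟨z, t⟩, s⟩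
    have hne := om_im_pos.ne'
    dsimp only
    set b := z.im / om.im with hb
    set a := z.re - b * om.re with ha
    have h1 : zz (Sh (pt (s + a) (a - sx (s + a) b t) b) t) = z := by
      simp only [zz, Sh_1, Sh_2, pt_zero', pt_one', pt_two']
      apply Complex.ext
      · simp [zp, ha]
      · simp [zp, hb]
        field_simp
    have h2 : ss (Sh (pt (s + a) (a - sx (s + a) b t) b) t) = s := by
      simp [ss]
    rw [h1, h2]

theorem contDiff_pt {V : Type*} [NormedAddCommGroup V] [NormedSpace ℝ V] {f g h : V → ℝ}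
    (hf : ContDiff ℝ ∞ f) (hg : ContDiff ℝ ∞ g) (hh : ContDiff ℝ ∞ h) :
    ContDiff ℝ ∞ fun v => pt (f v) (g v) (h v) := by
  rw [contDiff_euclidean]
  intro i
  fin_cases i
  · simpa using! hf
  · simpa using! hg
  · simpa using! hh

theorem contDiff_E3_apply (i : Fin 3) : ContDiff ℝ ∞ fun x : E3 => x i :=
  contDiff_euclidean.mp contDiff_id i

theorem Sh_smooth : ContDiff ℝ ∞ fun p : E3 × ℝ => Sh p.1 p.2 := by
  have h : ∀ i, ContDiff ℝ ∞ fun p : E3 × ℝ => p.1 i := fun i =>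
    (contDiff_E3_apply i).comp contDiff_fst
  exact contDiff_pt (h 0) ((h 1).add (sx_smooth (h 0) (h 2) contDiff_snd)) (h 2)

theorem contDiff_zz : ContDiff ℝ ∞ zz := contDiff_zp (contDiff_E3_apply 1) (contDiff_E3_apply 2)
theorem contDiff_ss : ContDiff ℝ ∞ ss := (contDiff_E3_apply 0).sub (contDiff_E3_apply 1)

theorem DqE_ld (p : E3 × ℝ) :
    IsLocalDiffeomorphAt 𝓘(ℝ, E3 × ℝ) 𝓘(ℝ, (ℂ × ℝ) × ℝ) ∞ DqE p := by
  apply ld_of_perm
  · exact ((contDiff_zz.comp Sh_smooth).prodMk contDiff_snd).prodMk (contDiff_ss.comp Sh_smooth)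
  · have hz : ContDiff ℝ ∞ fun q : (ℂ × ℝ) × ℝ => q.1.1 := contDiff_fst.comp contDiff_fst
    have ht : ContDiff ℝ ∞ fun q : (ℂ × ℝ) × ℝ => q.1.2 := contDiff_snd.comp contDiff_fst
    have hs : ContDiff ℝ ∞ fun q : (ℂ × ℝ) × ℝ => q.2 := contDiff_snd
    have hb : ContDiff ℝ ∞ fun q : (ℂ × ℝ) × ℝ => q.1.1.im / om.im :=
      (Complex.imCLM.contDiff.comp hz).div_const _
    have ha : ContDiff ℝ ∞ fun q : (ℂ × ℝ) × ℝ => q.1.1.re - q.1.1.im / om.im * om.re :=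
      (Complex.reCLM.contDiff.comp hz).sub (hb.mul contDiff_const)
    exact (contDiff_pt (hs.add ha) (ha.sub (sx_smooth (hs.add ha) hb ht)) hb).prodMk ht

theorem H0_loc {x : E3} {t : ℝ} (ht : -(1 / 8) < t) (ht1 : t < 9 / 8) (hx : OffAx x)
    (hC : ¬ OnC x t) : IsLocalDiffeomorphAt 𝓘(ℝ, E3 × ℝ) (𝓡 4) ∞ (H0 e) (x, t) := by
  have hU : zz (Sh x t) ∈ U0 := offAx_iff.mp (offAx_Sh.mpr hx)
  have hne : HH (zz (Sh x t)) t ≠ Gam (ss (Sh x t)) := by
    intro h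
    exact hC (onC_Sh.mp ((onC_iff (offAx_Sh.mpr hx) ht ht1).mpr h))
  have h1 := TT_ld qloop_Gam e (V := ℂ × ℝ) (by simp) (fun p : ℂ × ℝ => HH p.1 p.2)
    (zz (Sh x t), t) (ss (Sh x t)) (by
      have : ∀ᶠ p : ℂ × ℝ in 𝓝 (zz (Sh x t), t), p.1 ∈ U0 :=
        (continuous_fst.tendsto _).eventually (isOpen_U0.mem_nhds hU)
      filter_upwards [this] with p hp
      exact ⟨contDiffAt_HH hp _, norm_HH hp _⟩) (HH_imm hU t) hne
  exact IsLocalDiffeomorphAt.comp (hf := DqE_ld (x, t)) (hg := h1) ..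

end

end Pool.Agent.TRF
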