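import Pool.Agent.TRF.LDS
import Pool.Agent.TRF.Hmap

/-!
# TRF/Str: `S⁴ = (S³ - 1) × S¹ ∪ S²`, straightening of a loop in `S³ × S¹`
-/

open scoped Manifold ContDiff Topology Quaternion
open Set Filter Metric

namespace Pool.Agent.TRF

noncomputable section

/-! ### coordinates of quaternions as continuous linear maps -/

def starH : ℍ[ℝ] →L[ℝ] ℍ[ℝ] :=
  LinearMap.toContinuousLinearMap
    { toFun := star
      map_add' := fun a b => star_add a b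
      map_smul' := fun c a => by simp }

@[simp] theorem starH_apply (q : ℍ[ℝ]) : starH q = star q := rfl

def cR : ℍ[ℝ] →L[ℝ] ℝ :=
  LinearMap.toContinuousLinearMap
    { toFun := fun q => q.re, map_add' := fun a b => by simp, map_smul' := fun c a => by simp }
def cI : ℍ[ℝ] →L[ℝ] ℝ :=
  LinearMap.toContinuousLinearMap
    { toFun := fun q => q.imI, map_add' := fun a b => by simp, map_smul' := fun c a => by simp }
def cJ : ℍ[ℝ] →L[ℝ] ℝ :=
  LinearMap.toContinuousLinearMap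
    { toFun := fun q => q.imJ, map_add' := fun a b => by simp, map_smul' := fun c a => by simp }
def cK : ℍ[ℝ] →L[ℝ] ℝ :=
  LinearMap.toContinuousLinearMap
    { toFun := fun q => q.imK, map_add' := fun a b => by simp, map_smul' := fun c a => by simp }

theorem norm_sq_quat (q : ℍ[ℝ]) : ‖q‖ ^ 2 = q.re ^ 2 + q.imI ^ 2 + q.imJ ^ 2 + q.imK ^ 2 := by
  rw [pow_two, ← Quaternion.normSq_eq_norm_mul_self, Quaternion.normSq_def']

theorem norm_one_sub_sq {q : ℍ[ℝ]} (h : ‖q‖ = 1) : ‖1 - q‖ ^ 2 = 2 * (1 - q.re) := by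
  have h1 := norm_sq_quat q
  rw [h] at h1
  rw [norm_sq_quat]
  simp
  linarith

theorem star_mul_self_of_norm {q : ℍ[ℝ]} (h : ‖q‖ = 1) : star q * q = 1 := by
  rw [Quaternion.star_mul_self, Quaternion.normSq_eq_norm_mul_self, h]; simp

theorem mul_star_self_of_norm {q : ℍ[ℝ]} (h : ‖q‖ = 1) : q * star q = 1 := by
  rw [Quaternion.self_mul_star, Quaternion.normSq_eq_norm_mul_self, h]; simp

/-! ### the map to `S⁴` -/

/-- projection to the sphere (junk value off the sphere) -/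
def toS (v : E5) : X4 :=
  if h : ‖v‖ = 1 then ⟨v, by simpa using h⟩ else ⟨EuclideanSpace.single 0 1, by simp⟩

theorem coe_toS {v : E5} (h : ‖v‖ = 1) : ((toS v : X4) : E5) = v := by
  rw [toS, dif_pos h]

/-- the vector `(Im q / |1 - q|, c |1 - q| / 2)` -/
def thv (q : ℍ[ℝ]) (c : ℂ) : E5 :=
  WithLp.toLp 2 ![q.imI / ‖1 - q‖, q.imJ / ‖1 - q‖, q.imK / ‖1 - q‖, c.re * (‖1 - q‖ / 2),
    c.im * (‖1 - q‖ / 2)]

theorem norm_thv {q : ℍ[ℝ]} (h : ‖q‖ = 1) (h1 : q ≠ 1) {c : ℂ} (hc : ‖c‖ = 1) : ‖thv q c‖ = 1 := by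
  have hN : 0 < ‖1 - q‖ := norm_pos_iff.mpr (sub_ne_zero.mpr (Ne.symm h1))
  have e1 := norm_one_sub_sq h
  have e2 := norm_sq_quat q
  rw [h] at e2
  have e3 : c.re ^ 2 + c.im ^ 2 = 1 := by
    have := Complex.normSq_eq_norm_sq c
    rw [hc, Complex.normSq_apply] at this
    nlinarith
  rw [EuclideanSpace.norm_eq]
  rw [Real.sqrt_eq_one]
  simp only [thv, Fin.sum_univ_five, Real.norm_eq_abs, sq_abs]
  simp
  set N := ‖1 - q‖
  field_simp
  have e4 : q.imI ^ 2 + q.imJ ^ 2 + q.imK ^ 2 = 1 - q.re ^ 2 := by linarith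
  have e5 : N ^ 4 = (2 * (1 - q.re)) ^ 2 := by rw [← e1]; ring
  nlinarith [e3, e4, e5, e1]

/-- the last complex coordinate -/
def wc (y : E5) : ℂ := ⟨y 3, y 4⟩

/-- the inverse map, quaternion part -/
def qinv (y : E5) : ℍ[ℝ] :=
  ⟨1 - 2 * ‖wc y‖ ^ 2, 2 * ‖wc y‖ * y 0, 2 * ‖wc y‖ * y 1, 2 * ‖wc y‖ * y 2⟩

theorem wc_thv {q : ℍ[ℝ]} {c : ℂ} : wc (thv q c) = (‖1 - q‖ / 2 : ℝ) * c := by
  apply Complex.ext
  · simp [wc, thv]; ring
  · simp [wc, thv]; ring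

theorem norm_wc_thv {q : ℍ[ℝ]} {c : ℂ} (hc : ‖c‖ = 1) : ‖wc (thv q c)‖ = ‖1 - q‖ / 2 := by
  rw [wc_thv, norm_mul, hc, mul_one, Complex.norm_real, Real.norm_of_nonneg (by positivity)]

theorem qinv_thv {q : ℍ[ℝ]} (h : ‖q‖ = 1) (h1 : q ≠ 1) {c : ℂ} (hc : ‖c‖ = 1) :
    qinv (thv q c) = q := by
  have hN : 0 < ‖1 - q‖ := norm_pos_iff.mpr (sub_ne_zero.mpr (Ne.symm h1))
  have e1 := norm_one_sub_sq h
  have e2 := norm_wc_thv (q := q) hc
  ext
  · simp only [qinv, e2]; nlinarith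
  · simp only [qinv, e2]; simp [thv]; field_simp
  · simp only [qinv, e2]; simp [thv]; field_simp
  · simp only [qinv, e2]; simp [thv]; field_simp

theorem cinv_thv {q : ℍ[ℝ]} (h1 : q ≠ 1) {c : ℂ} (hc : ‖c‖ = 1) :
    ((‖wc (thv q c)‖⁻¹ : ℝ) : ℂ) * wc (thv q c) = c := by
  have hN : 0 < ‖1 - q‖ := norm_pos_iff.mpr (sub_ne_zero.mpr (Ne.symm h1))
  rw [norm_wc_thv hc, wc_thv]
  have : (((‖1 - q‖ / 2 : ℝ)) : ℂ) ≠ 0 := by
    exact_mod_cast (by positivity : (‖1 - q‖ / 2 : ℝ) ≠ 0)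
  rw [Complex.ofReal_inv, ← mul_assoc, inv_mul_cancel₀ this, one_mul]

theorem sq_sum_X4 (y : X4) : (y : E5) 0 ^ 2 + (y : E5) 1 ^ 2 + (y : E5) 2 ^ 2 +
    ‖wc (y : E5)‖ ^ 2 = 1 := by
  have h : ‖(y : E5)‖ = 1 := by simp
  rw [EuclideanSpace.norm_eq, Real.sqrt_eq_one] at h
  simp only [Fin.sum_univ_five, Real.norm_eq_abs, sq_abs] at h
  rw [← Complex.normSq_eq_norm_sq, Complex.normSq_apply]
  simp only [wc]
  linarith

theorem norm_qinv (y : X4) : ‖qinv (y : E5)‖ = 1 := by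
  have h := sq_sum_X4 y
  have h2 : ‖qinv (y : E5)‖ ^ 2 = 1 := by
    rw [norm_sq_quat]
    simp only [qinv]
    linear_combination (4 * ‖wc (y : E5)‖ ^ 2) * h
  nlinarith [norm_nonneg (qinv (y : E5))]

theorem qinv_ne_one (y : X4) (hw : wc (y : E5) ≠ 0) : qinv (y : E5) ≠ 1 := by
  intro h
  have h1 := congrArg QuaternionAlgebra.re h
  simp [qinv] at h1
  exact hw h1

theorem thv_qinv (y : X4) (hw : wc (y : E5) ≠ 0) :
    thv (qinv (y : E5)) (((‖wc (y : E5)‖⁻¹ : ℝ) : ℂ) * wc (y : E5)) = y := by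
  have hN : 0 < ‖wc (y : E5)‖ := norm_pos_iff.mpr hw
  have e1 := norm_one_sub_sq (norm_qinv y)
  have e2 : ‖1 - qinv (y : E5)‖ = 2 * ‖wc (y : E5)‖ := by
    have : ‖1 - qinv (y : E5)‖ ^ 2 = (2 * ‖wc (y : E5)‖) ^ 2 := by
      rw [e1]; simp only [qinv]; ring
    exact (pow_left_inj₀ (norm_nonneg _) (by positivity) (by norm_num)).mp this
  ext i
  rw [thv, e2]
  fin_cases i
  · simp [qinv]; field_simp
  · simp [qinv]; field_simp
  · simp [qinv]; field_simp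
  · simp [qinv, wc]; field_simp; exact mul_div_cancel_left₀ _ hN.ne'
  · simp [qinv, wc]; field_simp; exact mul_div_cancel_left₀ _ hN.ne'

end

end Pool.Agent.TRF
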