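import Pool.Agent.TRF.Str

/-!
# TRF/StrB: straightening of a loop in `S³ × S¹`
-/

open scoped Manifold ContDiff Topology Quaternion
open Set Filter Metric

namespace Pool.Agent.TRF

noncomputable section

/-- a smooth loop of unit quaternions -/
structure QLoop (Γ : ℝ → ℍ[ℝ]) : Prop where
  smooth : ContDiff ℝ ∞ Γ
  unit : ∀ s, ‖Γ s‖ = 1
  per : ∀ s, Γ (s + 1) = Γ s

theorem QLoop.per_int {Γ : ℝ → ℍ[ℝ]} (h : QLoop Γ) (s : ℝ) (n : ℤ) : Γ (s + n) = Γ s := by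
  have hp : Function.Periodic Γ 1 := h.per
  have := hp.int_mul n s
  simpa using this

/-- half-angle factor -/
def rho (e : ℤ) (s : ℝ) : ℍ[ℝ] := qq (ee (e * s / 2)) 0

theorem norm_rho (e : ℤ) (s : ℝ) : ‖rho e s‖ = 1 := by
  have h := qq_norm_sq (ee (e * s / 2)) 0
  rw [norm_ee] at h
  have h2 : ‖rho e s‖ ^ 2 = 1 := by rw [rho, h]; simp
  nlinarith [norm_nonneg (rho e s)]

theorem contDiff_rho (e : ℤ) : ContDiff ℝ ∞ (rho e) := by
  unfold rho
  have h1 : ContDiff ℝ ∞ fun s : ℝ => ee (e * s / 2) :=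
    contDiff_ee.comp ((contDiff_const.mul contDiff_id).div_const 2)
  exact qqL.contDiff.comp (h1.prodMk contDiff_const)

/-- the rotation is 1-periodic up to sign -/
theorem rho_int (e : ℤ) (s : ℝ) (n : ℤ) : rho e (s + n) = rho e s ∨ rho e (s + n) = -rho e s := by
  have h1 : ee (e * (s + n) / 2) = ee (e * s / 2) * ee ((e * n : ℤ) / 2) := by
    rw [← ee_add]; congr 1; push_cast; ring
  have h2 : ee (((e * n : ℤ) : ℝ) / 2) = 1 ∨ ee (((e * n : ℤ) : ℝ) / 2) = -1 := by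
    have h3 : (ee (((e * n : ℤ) : ℝ) / 2)) ^ 2 = 1 := by
      rw [ee_pow]
      rw [show ((2 : ℕ) : ℝ) * (((e * n : ℤ) : ℝ) / 2) = ((e * n : ℤ) : ℝ) by push_cast; ring]
      exact ee_int _
    exact sq_eq_one_iff_of_ne_zero_or h3
  rcases h2 with h | h
  · left; rw [rho, h1, h, mul_one, rho]
  · right
    rw [rho, h1, h, mul_neg_one, rho]
    ext <;> simp [qq]
where
  sq_eq_one_iff_of_ne_zero_or {a : ℂ} (h : a ^ 2 = 1) : a = 1 ∨ a = -1 := by
    have : (a - 1) * (a + 1) = 0 := by linear_combination h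
    rcases mul_eq_zero.mp this with h | h
    · left; linear_combination h
    · right; linear_combination h

/-- the straightening -/
def str (Γ : ℝ → ℍ[ℝ]) (e : ℤ) (s : ℝ) (q : ℍ[ℝ]) : ℍ[ℝ] :=
  rho e s * star (Γ s) * q * star (rho e s)

variable {Γ : ℝ → ℍ[ℝ]} (hΓ : QLoop Γ) (e : ℤ)

include hΓ in
theorem norm_str (s : ℝ) (q : ℍ[ℝ]) : ‖str Γ e s q‖ = ‖q‖ := by
  rw [str, norm_mul, norm_mul, norm_mul, Quaternion.norm_star, Quaternion.norm_star, norm_rho,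
    hΓ.unit]
  ring

include hΓ in
theorem str_inv (s : ℝ) (q : ℍ[ℝ]) :
    Γ s * star (rho e s) * str Γ e s q * rho e s = q := by
  have h1 := star_mul_self_of_norm (norm_rho e s)
  have h2 := mul_star_self_of_norm (hΓ.unit s)
  calc Γ s * star (rho e s) * (rho e s * star (Γ s) * q * star (rho e s)) * rho e s
      = Γ s * (star (rho e s) * rho e s) * star (Γ s) * q * (star (rho e s) * rho e s) := by
        noncomm_ring
    _ = q := by rw [h1, mul_one, mul_one, h2, one_mul]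

include hΓ in
theorem str_inv' (s : ℝ) (q : ℍ[ℝ]) :
    str Γ e s (Γ s * star (rho e s) * q * rho e s) = q := by
  have h1 := mul_star_self_of_norm (norm_rho e s)
  have h2 := star_mul_self_of_norm (hΓ.unit s)
  rw [str]
  calc rho e s * star (Γ s) * (Γ s * star (rho e s) * q * rho e s) * star (rho e s)
      = rho e s * (star (Γ s) * Γ s) * star (rho e s) * q * (rho e s * star (rho e s)) := by
        noncomm_ring
    _ = q := by rw [h2, mul_one, h1, mul_one, one_mul]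

include hΓ in
theorem str_eq_one {s : ℝ} {q : ℍ[ℝ]} : str Γ e s q = 1 ↔ q = Γ s := by
  constructor
  · intro h
    have h1 := str_inv hΓ e s q
    rw [h, mul_one] at h1
    rw [← h1, mul_assoc, star_mul_self_of_norm (norm_rho e s), mul_one]
  · rintro rfl
    rw [str, mul_assoc (rho e s), star_mul_self_of_norm (hΓ.unit s), mul_one,
      mul_star_self_of_norm (norm_rho e s)]

include hΓ in
theorem str_int (s : ℝ) (n : ℤ) (q : ℍ[ℝ]) : str Γ e (s + n) q = str Γ e s q := by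
  rw [str, str, hΓ.per_int]
  rcases rho_int e s n with h | h
  · rw [h]
  · rw [h, star_neg]; noncomm_ring

/-- the map to the sphere -/
def TT (Γ : ℝ → ℍ[ℝ]) (e : ℤ) (q : ℍ[ℝ]) (s : ℝ) : X4 := toS (thv (str Γ e s q) (ee s))

include hΓ in
theorem coe_TT {q : ℍ[ℝ]} {s : ℝ} (hq : ‖q‖ = 1) (h : q ≠ Γ s) :
    (TT Γ e q s : E5) = thv (str Γ e s q) (ee s) := by
  apply coe_toS
  apply norm_thv
  · rw [norm_str hΓ, hq]
  · rwa [Ne, str_eq_one hΓ]
  · exact norm_ee s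

include hΓ in
theorem TT_int (q : ℍ[ℝ]) (s : ℝ) (n : ℤ) : TT Γ e q (s + n) = TT Γ e q s := by
  rw [TT, TT, str_int hΓ, ee_add, ee_int, mul_one]

include hΓ in
theorem TT_inj {q q' : ℍ[ℝ]} {s s' : ℝ} (hq : ‖q‖ = 1) (hq' : ‖q'‖ = 1) (h : q ≠ Γ s)
    (h' : q' ≠ Γ s') (heq : TT Γ e q s = TT Γ e q' s') : q = q' ∧ ∃ n : ℤ, s = s' + n := by
  have h1 : (TT Γ e q s : E5) = TT Γ e q' s' := by rw [heq]
  rw [coe_TT hΓ e hq h, coe_TT hΓ e hq' h'] at h1
  have n1 : str Γ e s q ≠ 1 := by rwa [Ne, str_eq_one hΓ]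
  have n2 : str Γ e s' q' ≠ 1 := by rwa [Ne, str_eq_one hΓ]
  have u1 : ‖str Γ e s q‖ = 1 := by rw [norm_str hΓ, hq]
  have u2 : ‖str Γ e s' q'‖ = 1 := by rw [norm_str hΓ, hq']
  have e1 : str Γ e s q = str Γ e s' q' := by
    rw [← qinv_thv u1 n1 (norm_ee s), h1, qinv_thv u2 n2 (norm_ee s')]
  have e2 : ee s = ee s' := by
    rw [← cinv_thv n1 (norm_ee s), h1, cinv_thv n2 (norm_ee s')]
  obtain ⟨n, hn⟩ := ee_eq_iff.mp e2
  refine ⟨?_, n, hn⟩
  rw [hn, str_int hΓ] at e1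
  rw [← str_inv hΓ e s' q, e1, str_inv hΓ]

include hΓ in
theorem TT_cover (y : X4) (hw : wc (y : E5) ≠ 0) : ∃ q : ℍ[ℝ], ‖q‖ = 1 ∧ ∃ s : ℝ,
    0 ≤ s ∧ s < 1 ∧ q ≠ Γ s ∧ TT Γ e q s = y := by
  have hc0 : ‖((‖wc (y : E5)‖⁻¹ : ℝ) : ℂ) * wc (y : E5)‖ = 1 := by
    rw [norm_mul, Complex.norm_real, norm_inv, norm_norm, inv_mul_cancel₀ (norm_ne_zero_iff.mpr hw)]
  obtain ⟨μ, hμ, s, hs0, hs1, hs⟩ := polar_exists (c := ((‖wc (y : E5)‖⁻¹ : ℝ) : ℂ) * wc (y : E5))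
    (c₀ := 1) (by rw [← norm_ne_zero_iff, hc0]; exact one_ne_zero) one_ne_zero
  rw [mul_one] at hs
  have hμ1 : μ = 1 := by
    rw [hs, norm_mul, norm_ee, mul_one, norm_pow, Complex.norm_real, Real.norm_of_nonneg hμ.le]
      at hc0
    exact (pow_eq_one_iff_of_nonneg hμ.le (by norm_num)).mp hc0
  subst hμ1
  simp only [Complex.ofReal_one, one_pow, one_mul] at hs
  refine ⟨Γ s * star (rho e s) * qinv (y : E5) * rho e s, ?_, s, hs0, hs1, ?_, ?_⟩
  · rw [norm_mul, norm_mul, norm_mul, Quaternion.norm_star, norm_rho, norm_qinv, hΓ.unit]; ring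
  · intro h
    rw [← str_eq_one hΓ e, str_inv' hΓ] at h
    exact qinv_ne_one y hw h
  · rw [TT, str_inv' hΓ]
    apply Subtype.ext
    have : thv (qinv (y : E5)) (ee s) = y := by rw [← hs]; exact thv_qinv y hw
    rw [coe_toS, this]
    rw [this]; simp

include hΓ in
theorem wc_TT_ne {q : ℍ[ℝ]} {s : ℝ} (hq : ‖q‖ = 1) (h : q ≠ Γ s) : wc (TT Γ e q s : E5) ≠ 0 := by
  rw [coe_TT hΓ e hq h, wc_thv]
  have n1 : str Γ e s q ≠ 1 := by rwa [Ne, str_eq_one hΓ]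
  have hN : 0 < ‖1 - str Γ e s q‖ := norm_pos_iff.mpr (sub_ne_zero.mpr (Ne.symm n1))
  apply mul_ne_zero _ (ee_ne_zero s)
  exact_mod_cast (by positivity : (‖1 - str Γ e s q‖ / 2 : ℝ) ≠ 0)

end

end Pool.Agent.TRF
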