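import Pool.Agent.TRF.StrB

/-!
# TRF/StrC: `(v, s) ↦ TT (k v) s` is a local diffeomorphism if `k : V → S³` is an immersion
-/

open scoped Manifold ContDiff Topology Quaternion
open Set Filter Metric

namespace Pool.Agent.TRF

noncomputable section

theorem contDiffAt_thv {q : ℍ[ℝ]} {c : ℂ} (h : q ≠ 1) :
    ContDiffAt ℝ ∞ (fun p : ℍ[ℝ] × ℂ => thv p.1 p.2) (q, c) := by
  have h1 : ContDiffAt ℝ ∞ (fun p : ℍ[ℝ] × ℂ => 1 - p.1) (q, c) := contDiffAt_const.sub contDiffAt_fst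
  have hne : (1 - q) ≠ 0 := sub_ne_zero.mpr (Ne.symm h)
  have hN : ContDiffAt ℝ ∞ (fun p : ℍ[ℝ] × ℂ => ‖1 - p.1‖) (q, c) := h1.norm ℝ hne
  have hI : ContDiffAt ℝ ∞ (fun p : ℍ[ℝ] × ℂ => p.1.imI) (q, c) :=
    (cI.contDiff.contDiffAt).comp (q, c) contDiffAt_fst
  have hJ : ContDiffAt ℝ ∞ (fun p : ℍ[ℝ] × ℂ => p.1.imJ) (q, c) :=
    (cJ.contDiff.contDiffAt).comp (q, c) contDiffAt_fst
  have hK : ContDiffAt ℝ ∞ (fun p : ℍ[ℝ] × ℂ => p.1.imK) (q, c) :=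
    (cK.contDiff.contDiffAt).comp (q, c) contDiffAt_fst
  have hr : ContDiffAt ℝ ∞ (fun p : ℍ[ℝ] × ℂ => p.2.re) (q, c) :=
    (Complex.reCLM.contDiff.contDiffAt).comp (q, c) contDiffAt_snd
  have hi : ContDiffAt ℝ ∞ (fun p : ℍ[ℝ] × ℂ => p.2.im) (q, c) :=
    (Complex.imCLM.contDiff.contDiffAt).comp (q, c) contDiffAt_snd
  have hN0 : ‖1 - ((q, c) : ℍ[ℝ] × ℂ).1‖ ≠ 0 := norm_ne_zero_iff.mpr hne
  rw [contDiffAt_euclidean]
  intro i
  fin_cases i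
  · exact hI.div hN hN0
  · exact hJ.div hN hN0
  · exact hK.div hN hN0
  · exact hr.mul (hN.div_const 2)
  · exact hi.mul (hN.div_const 2)

theorem contDiff_wc : ContDiff ℝ ∞ wc := by
  have h : wc = fun y : E5 => ((y 3 : ℝ) : ℂ) + ((y 4 : ℝ) : ℂ) * Complex.I := by
    ext y; apply Complex.ext <;> simp [wc]
  rw [h]
  have h3 : ContDiff ℝ ∞ fun y : E5 => ((y 3 : ℝ) : ℂ) :=
    Complex.ofRealCLM.contDiff.comp (contDiff_euclidean.mp contDiff_id 3)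
  have h4 : ContDiff ℝ ∞ fun y : E5 => ((y 4 : ℝ) : ℂ) :=
    Complex.ofRealCLM.contDiff.comp (contDiff_euclidean.mp contDiff_id 4)
  exact h3.add (h4.mul contDiff_const)

theorem contDiffAt_norm_wc {y : E5} (h : wc y ≠ 0) : ContDiffAt ℝ ∞ (fun y => ‖wc y‖) y :=
  contDiff_wc.contDiffAt.norm ℝ h

theorem contDiffAt_qinv {y : E5} (h : wc y ≠ 0) : ContDiffAt ℝ ∞ qinv y := by
  have hn := contDiffAt_norm_wc h
  have hy : ∀ i : Fin 5, ContDiffAt ℝ ∞ (fun y : E5 => y i) y := fun i =>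
    (contDiff_euclidean.mp contDiff_id i).contDiffAt
  have h1 : ContDiffAt ℝ ∞ (fun y => (⟨1 - 2 * ‖wc y‖ ^ 2, 2 * ‖wc y‖ * y 0⟩ : ℂ)) y := by
    have : (fun y : E5 => (⟨1 - 2 * ‖wc y‖ ^ 2, 2 * ‖wc y‖ * y 0⟩ : ℂ)) =
        fun y => ((1 - 2 * ‖wc y‖ ^ 2 : ℝ) : ℂ) + ((2 * ‖wc y‖ * y 0 : ℝ) : ℂ) * Complex.I := by
      ext y; apply Complex.ext <;> simp [← Complex.ofReal_pow]
    rw [this]
    have a1 : ContDiffAt ℝ ∞ (fun y => (1 - 2 * ‖wc y‖ ^ 2 : ℝ)) y :=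
      contDiffAt_const.sub (contDiffAt_const.mul (hn.pow 2))
    have a2 : ContDiffAt ℝ ∞ (fun y : E5 => (2 * ‖wc y‖ * y 0 : ℝ)) y :=
      (contDiffAt_const.mul hn).mul (hy 0)
    exact (Complex.ofRealCLM.contDiff.contDiffAt.comp y a1).add
      ((Complex.ofRealCLM.contDiff.contDiffAt.comp y a2).mul contDiffAt_const)
  have h2 : ContDiffAt ℝ ∞ (fun y => (⟨2 * ‖wc y‖ * y 1, 2 * ‖wc y‖ * y 2⟩ : ℂ)) y := by
    have : (fun y : E5 => (⟨2 * ‖wc y‖ * y 1, 2 * ‖wc y‖ * y 2⟩ : ℂ)) =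
        fun y => ((2 * ‖wc y‖ * y 1 : ℝ) : ℂ) + ((2 * ‖wc y‖ * y 2 : ℝ) : ℂ) * Complex.I := by
      ext y; apply Complex.ext <;> simp
    rw [this]
    have a1 : ContDiffAt ℝ ∞ (fun y : E5 => (2 * ‖wc y‖ * y 1 : ℝ)) y :=
      (contDiffAt_const.mul hn).mul (hy 1)
    have a2 : ContDiffAt ℝ ∞ (fun y : E5 => (2 * ‖wc y‖ * y 2 : ℝ)) y :=
      (contDiffAt_const.mul hn).mul (hy 2)
    exact (Complex.ofRealCLM.contDiff.contDiffAt.comp y a1).add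
      ((Complex.ofRealCLM.contDiff.contDiffAt.comp y a2).mul contDiffAt_const)
  exact (qqL.contDiff.contDiffAt).comp y (h1.prodMk h2)

theorem contDiffAt_cinv {y : E5} (h : wc y ≠ 0) :
    ContDiffAt ℝ ∞ (fun y => ((‖wc y‖⁻¹ : ℝ) : ℂ) * wc y) y := by
  have hn := (contDiffAt_norm_wc h).inv (norm_ne_zero_iff.mpr h)
  exact (Complex.ofRealCLM.contDiff.contDiffAt.comp y hn).mul contDiff_wc.contDiffAt

variable {Γ : ℝ → ℍ[ℝ]} (hΓ : QLoop Γ) (e : ℤ)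

include hΓ in
theorem contDiff_str : ContDiff ℝ ∞ fun p : ℍ[ℝ] × ℝ => str Γ e p.2 p.1 := by
  unfold str
  have h1 : ContDiff ℝ ∞ fun p : ℍ[ℝ] × ℝ => rho e p.2 := (contDiff_rho e).comp contDiff_snd
  have h2 : ContDiff ℝ ∞ fun p : ℍ[ℝ] × ℝ => star (Γ p.2) :=
    starH.contDiff.comp (hΓ.smooth.comp contDiff_snd)
  have h3 : ContDiff ℝ ∞ fun p : ℍ[ℝ] × ℝ => star (rho e p.2) := starH.contDiff.comp h1
  exact ((h1.mul h2).mul contDiff_fst).mul h3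

include hΓ in
theorem TT_ld {V : Type*} [NormedAddCommGroup V] [NormedSpace ℝ V] [FiniteDimensional ℝ V]
    (hdim : Module.finrank ℝ V = 3) (k : V → ℍ[ℝ]) (v₀ : V) (s₀ : ℝ)
    (hk : ∀ᶠ v in 𝓝 v₀, ContDiffAt ℝ ∞ k v ∧ ‖k v‖ = 1)
    (hinj : ∀ w, fderiv ℝ k v₀ w = 0 → w = 0) (hne : k v₀ ≠ Γ s₀) :
    IsLocalDiffeomorphAt 𝓘(ℝ, V × ℝ) (𝓡 4) ∞ (fun p : V × ℝ => TT Γ e (k p.1) p.2) (v₀, s₀) := by
  have hk1 : ∀ᶠ p : V × ℝ in 𝓝 (v₀, s₀), ContDiffAt ℝ ∞ k p.1 ∧ ‖k p.1‖ = 1 :=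
    (continuous_fst.tendsto (v₀, s₀)).eventually hk
  have hkc : ContinuousAt (fun p : V × ℝ => k p.1) (v₀, s₀) :=
    ContinuousAt.comp (g := k) (f := Prod.fst) hk.self_of_nhds.1.continuousAt continuousAt_fst
  have hΓc : ContinuousAt (fun p : V × ℝ => Γ p.2) (v₀, s₀) :=
    ContinuousAt.comp (g := Γ) (f := Prod.snd) hΓ.smooth.continuous.continuousAt continuousAt_snd
  have hne1 : ∀ᶠ p : V × ℝ in 𝓝 (v₀, s₀), k p.1 ≠ Γ p.2 := by
    have h0 := (hkc.sub hΓc).eventually_ne (sub_ne_zero.mpr hne)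
    filter_upwards [h0] with p hp
    exact sub_ne_zero.mp hp
  -- the vector valued map
  set F : V × ℝ → E5 := fun p => thv (str Γ e p.2 (k p.1)) (ee p.2) with hF
  have hFeq : ∀ᶠ p : V × ℝ in 𝓝 (v₀, s₀), (TT Γ e (k p.1) p.2 : E5) = F p := by
    filter_upwards [hk1, hne1] with p h1 h2
    exact coe_TT hΓ e h1.2 h2
  have hstr : ∀ p : V × ℝ, ContDiffAt ℝ ∞ k p.1 →
      ContDiffAt ℝ ∞ (fun p : V × ℝ => str Γ e p.2 (k p.1)) p := by
    intro p hp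
    have h1 : ContDiffAt ℝ ∞ (fun p : V × ℝ => (k p.1, p.2)) p :=
      (ContDiffAt.comp p (g := k) (f := Prod.fst) hp contDiffAt_fst).prodMk contDiffAt_snd
    exact ContDiffAt.comp p (g := fun p : ℍ[ℝ] × ℝ => str Γ e p.2 p.1)
      (f := fun p : V × ℝ => (k p.1, p.2)) (contDiff_str hΓ e).contDiffAt h1
  have hFs : ∀ᶠ p : V × ℝ in 𝓝 (v₀, s₀), ContDiffAt ℝ ∞ F p := by
    filter_upwards [hk1, hne1] with p h1 h2
    have n1 : str Γ e p.2 (k p.1) ≠ 1 := by rwa [Ne, str_eq_one hΓ]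
    have h3 : ContDiffAt ℝ ∞ (fun p : V × ℝ => (str Γ e p.2 (k p.1), ee p.2)) p :=
      (hstr p h1.1).prodMk ((contDiff_ee.contDiffAt).comp p contDiffAt_snd)
    exact ContDiffAt.comp p (g := fun p : ℍ[ℝ] × ℂ => thv p.1 p.2)
      (f := fun p : V × ℝ => (str Γ e p.2 (k p.1), ee p.2)) (contDiffAt_thv n1) h3
  apply ld_sphere
  · filter_upwards [hFs, hFeq.eventually_nhds] with p hp hp2
    exact hp.congr_of_eventuallyEq hp2
  · simp [hdim]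
  intro w hw
  rw [Filter.EventuallyEq.fderiv_eq hFeq] at hw
  -- curve
  have hP0 : ((v₀, s₀) : V × ℝ) + (0 : ℝ) • w = (v₀, s₀) := by simp
  have hP : HasDerivAt (fun τ : ℝ => ((v₀, s₀) : V × ℝ) + τ • w) w 0 := by
    have := ((hasDerivAt_id (0 : ℝ)).smul_const w).const_add ((v₀, s₀) : V × ℝ)
    simpa using this
  have hPt : Tendsto (fun τ : ℝ => ((v₀, s₀) : V × ℝ) + τ • w) (𝓝 0) (𝓝 (v₀, s₀)) := by
    have := hP.continuousAt.tendsto
    rwa [hP0] at this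
  have hFc : HasDerivAt (fun τ : ℝ => F (((v₀, s₀) : V × ℝ) + τ • w)) 0 0 := by
    have h1 : HasFDerivAt F (fderiv ℝ F (v₀, s₀)) (((v₀, s₀) : V × ℝ) + (0 : ℝ) • w) := by
      rw [hP0]
      exact (hFs.self_of_nhds.differentiableAt (by simp)).hasFDerivAt
    have h2 := h1.comp_hasDerivAt 0 hP
    rw [show (fderiv ℝ F (v₀, s₀)) w = 0 from hw] at h2
    exact h2
  have hqn : str Γ e s₀ (k v₀) ≠ 1 := by rwa [Ne, str_eq_one hΓ]
  have hwc0 : wc (F (v₀, s₀)) ≠ 0 := by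
    rw [hF]
    simp only [wc_thv]
    have hN : 0 < ‖1 - str Γ e s₀ (k v₀)‖ := norm_pos_iff.mpr (sub_ne_zero.mpr (Ne.symm hqn))
    apply mul_ne_zero _ (ee_ne_zero s₀)
    exact_mod_cast (by positivity : (‖1 - str Γ e s₀ (k v₀)‖ / 2 : ℝ) ≠ 0)
  -- the direction has no `s`-component
  have hce : HasDerivAt (fun τ : ℝ => ee (s₀ + τ * w.2)) 0 0 := by
    have h1 : HasFDerivAt (fun y => ((‖wc y‖⁻¹ : ℝ) : ℂ) * wc y)
        (fderiv ℝ (fun y => ((‖wc y‖⁻¹ : ℝ) : ℂ) * wc y) (F (v₀, s₀)))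
        (F (((v₀, s₀) : V × ℝ) + (0 : ℝ) • w)) := by
      rw [hP0]
      exact ((contDiffAt_cinv hwc0).differentiableAt (by simp)).hasFDerivAt
    have h2 := h1.comp_hasDerivAt 0 hFc
    rw [map_zero] at h2
    refine h2.congr_of_eventuallyEq ?_
    filter_upwards [hPt.eventually hne1] with τ hτ
    have n1 : str Γ e (((v₀, s₀) : V × ℝ) + τ • w).2 (k (((v₀, s₀) : V × ℝ) + τ • w).1) ≠ 1 := by
      rwa [Ne, str_eq_one hΓ]
    have := cinv_thv (c := ee (((v₀, s₀) : V × ℝ) + τ • w).2) n1 (norm_ee _)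
    simp only [Function.comp, hF, this]
    simp
  have hse : HasDerivAt (fun τ : ℝ => ee (s₀ + τ * w.2)) (w.2 * (2 * Real.pi * Complex.I * ee s₀)) 0 := by
    have ht : HasDerivAt (fun τ : ℝ => s₀ + τ * w.2) w.2 0 := by
      have := ((hasDerivAt_id (0 : ℝ)).mul_const w.2).const_add s₀
      simpa using this
    have h2 : HasDerivAt ee (2 * Real.pi * Complex.I * ee s₀) (s₀ + 0 * w.2) := by
      rw [zero_mul, add_zero]; exact hasDerivAt_ee s₀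
    have h3 := h2.scomp (0 : ℝ) ht
    simpa using! h3
  have hw2 : w.2 = 0 := by
    have h1 := hce.unique hse
    have h2 : (w.2 : ℂ) * (2 * Real.pi * Complex.I * ee s₀) = 0 := h1.symm
    rcases mul_eq_zero.mp h2 with h | h
    · exact_mod_cast h
    · exfalso
      have : (2 * Real.pi * Complex.I * ee s₀ : ℂ) ≠ 0 := by
        simp [Real.pi_ne_zero, ee_ne_zero]
      exact this h
  -- the quaternion component
  have hqe : HasDerivAt (fun τ : ℝ => str Γ e s₀ (k (v₀ + τ • w.1))) 0 0 := by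
    have h1 : HasFDerivAt qinv (fderiv ℝ qinv (F (v₀, s₀)))
        (F (((v₀, s₀) : V × ℝ) + (0 : ℝ) • w)) := by
      rw [hP0]
      exact ((contDiffAt_qinv hwc0).differentiableAt (by simp)).hasFDerivAt
    have h2 := h1.comp_hasDerivAt 0 hFc
    rw [map_zero] at h2
    refine h2.congr_of_eventuallyEq ?_
    filter_upwards [hPt.eventually hne1, hPt.eventually hk1] with τ hτ hτ2
    have n1 : str Γ e (((v₀, s₀) : V × ℝ) + τ • w).2 (k (((v₀, s₀) : V × ℝ) + τ • w).1) ≠ 1 := by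
      rwa [Ne, str_eq_one hΓ]
    have n2 : ‖str Γ e (((v₀, s₀) : V × ℝ) + τ • w).2 (k (((v₀, s₀) : V × ℝ) + τ • w).1)‖ = 1 := by
      rw [norm_str hΓ, hτ2.2]
    have := qinv_thv (c := ee (((v₀, s₀) : V × ℝ) + τ • w).2) n2 n1 (norm_ee _)
    simp only [Function.comp, hF, this]
    simp [hw2]
  have hke : HasDerivAt (fun τ : ℝ => k (v₀ + τ • w.1)) 0 0 := by
    have h1 := (hqe.const_mul (Γ s₀ * star (rho e s₀))).mul_const (rho e s₀)
    simp only [mul_zero, zero_mul] at h1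
    refine h1.congr_of_eventuallyEq (Eventually.of_forall fun τ => ?_)
    exact (str_inv hΓ e s₀ _).symm
  have hke2 : HasDerivAt (fun τ : ℝ => k (v₀ + τ • w.1)) (fderiv ℝ k v₀ w.1) 0 := by
    have hQ : HasDerivAt (fun τ : ℝ => v₀ + τ • w.1) w.1 0 := by
      have := ((hasDerivAt_id (0 : ℝ)).smul_const w.1).const_add v₀
      simpa using this
    have h1 : HasFDerivAt k (fderiv ℝ k v₀) (v₀ + (0 : ℝ) • w.1) := by
      rw [zero_smul, add_zero]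
      exact (hk.self_of_nhds.1.differentiableAt (by simp)).hasFDerivAt
    exact h1.comp_hasDerivAt 0 hQ
  have hw1 := hinj w.1 (hke2.unique hke)
  exact Prod.ext hw1 hw2

end

end Pool.Agent.TRF
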