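import Pool.Agent.TRF.Shr

/-!
# TRF/Tub: the tube around the surgered circle
-/

open Complex Set Filter
open scoped Topology ContDiff Quaternion Manifold

namespace Pool.Agent.TRF
open Pool.Agent.CSG Pool.Agent.TS

noncomputable section

/-- the vector `r n` of the unit quaternion at distance `2 r` from `1` in direction `n` -/
def Wv (q : ℍ[ℝ]) : E3 :=
  pt (q.imI / Real.sqrt (2 * (1 + q.re))) (q.imJ / Real.sqrt (2 * (1 + q.re)))
    (q.imK / Real.sqrt (2 * (1 + q.re)))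

theorem norm_Wv_sq {q : ℍ[ℝ]} (h : ‖q‖ = 1) (h1 : -1 < q.re) : ‖Wv q‖ ^ 2 = (1 - q.re) / 2 := by
  have e1 := norm_sq_quat q
  rw [h] at e1
  have h2 : 0 < 2 * (1 + q.re) := by linarith
  have h3 := Real.sq_sqrt h2.le
  have h4 := Real.sqrt_pos.mpr h2
  have h5 : ‖Wv q‖ ^ 2 = (Wv q) 0 ^ 2 + (Wv q) 1 ^ 2 + (Wv q) 2 ^ 2 := norm_sq_F3 _
  rw [h5]
  simp only [Wv, pt_zero', pt_one', pt_two', div_pow, h3]
  have h6 : q.imI ^ 2 + q.imJ ^ 2 + q.imK ^ 2 = (1 - q.re) * (1 + q.re) := by nlinarith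
  have h7 : (1 + q.re) ≠ 0 := by linarith
  rw [← add_div, ← add_div, h6]
  field_simp

theorem norm_Wv {q : ℍ[ℝ]} (h : ‖q‖ = 1) (h1 : -1 < q.re) : ‖Wv q‖ = ‖1 - q‖ / 2 := by
  have e1 := norm_Wv_sq h h1
  have e2 := norm_one_sub_sq h
  have e3 : ‖Wv q‖ ^ 2 = (‖1 - q‖ / 2) ^ 2 := by rw [e1, div_pow, e2]; ring
  exact (pow_left_inj₀ (norm_nonneg _) (by positivity) (by norm_num)).mp e3

theorem re_of_norm {q : ℍ[ℝ]} (h : ‖q‖ = 1) (h1 : ‖1 - q‖ < 2) : -1 < q.re := by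
  have e2 := norm_one_sub_sq h
  nlinarith [norm_nonneg (1 - q)]

theorem thv_Wv {q : ℍ[ℝ]} (h : ‖q‖ = 1) (h1 : -1 < q.re) (hq : q ≠ 1) {c : ℂ} (hc : ‖c‖ = 1) :
    thv q c = jv ((dir (Wv q) : S2) : E3) ((‖Wv q‖ : ℂ) * c) := by
  have hN : 0 < ‖1 - q‖ := norm_pos_iff.mpr (sub_ne_zero.mpr (Ne.symm hq))
  have hW := norm_Wv h h1
  have hW0 : 0 < ‖Wv q‖ := by rw [hW]; positivity
  have hWne : Wv q ≠ 0 := norm_pos_iff.mp hW0
  have hd : ((dir (Wv q) : S2) : E3) = ‖Wv q‖⁻¹ • Wv q := by rw [dir, dif_neg hWne]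
  have h2 : ‖(‖Wv q‖ : ℂ) * c‖ = ‖Wv q‖ := by
    rw [norm_mul, hc, mul_one, Complex.norm_real, norm_norm]
  have h3 : 0 < 2 * (1 + q.re) := by linarith
  have h4 := Real.sqrt_pos.mpr h3
  have h5 : Real.sqrt (1 - ‖Wv q‖ ^ 2) = Real.sqrt (2 * (1 + q.re)) / 2 := by
    rw [norm_Wv_sq h h1, Real.sqrt_eq_iff_mul_self_eq (by linarith) (by positivity)]
    nlinarith [Real.sq_sqrt h3.le]
  have key : ∀ a : ℝ, a / ‖1 - q‖ = Real.sqrt (2 * (1 + q.re)) / 2 *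
      (‖Wv q‖⁻¹ * (a / Real.sqrt (2 * (1 + q.re)))) := by
    intro a
    rw [hW]
    field_simp
  ext i
  rw [thv, jv, h2, h5, hd]
  fin_cases i
  · exact key _
  · exact key _
  · exact key _
  · show c.re * (‖1 - q‖ / 2) = ((‖Wv q‖ : ℂ) * c).re
    rw [Complex.re_ofReal_mul, hW]; ring
  · show c.im * (‖1 - q‖ / 2) = ((‖Wv q‖ : ℂ) * c).im
    rw [Complex.im_ofReal_mul, hW]; ring

/-- the inverse of `Wv` -/
def qv (w : E3) : ℍ[ℝ] := ⟨1 - 2 * ‖w‖ ^ 2, 2 * Real.sqrt (1 - ‖w‖ ^ 2) * w 0,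
  2 * Real.sqrt (1 - ‖w‖ ^ 2) * w 1, 2 * Real.sqrt (1 - ‖w‖ ^ 2) * w 2⟩

theorem qv_Wv {q : ℍ[ℝ]} (h : ‖q‖ = 1) (h1 : -1 < q.re) : qv (Wv q) = q := by
  have h3 : 0 < 2 * (1 + q.re) := by linarith
  have h4 := Real.sqrt_pos.mpr h3
  have h5 : Real.sqrt (1 - ‖Wv q‖ ^ 2) = Real.sqrt (2 * (1 + q.re)) / 2 := by
    rw [norm_Wv_sq h h1, Real.sqrt_eq_iff_mul_self_eq (by linarith) (by positivity)]
    nlinarith [Real.sq_sqrt h3.le]
  have key : ∀ a : ℝ, 2 * (Real.sqrt (2 * (1 + q.re)) / 2) * (a / Real.sqrt (2 * (1 + q.re))) = a := by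
    intro a; field_simp
  ext
  · simp only [qv]
    rw [norm_Wv_sq h h1]; ring
  · simp only [qv]; rw [h5]; exact key _
  · simp only [qv]; rw [h5]; exact key _
  · simp only [qv]; rw [h5]; exact key _

theorem contDiffAt_Wv {q : ℍ[ℝ]} (h1 : -1 < q.re) : ContDiffAt ℝ ∞ Wv q := by
  have h3 : 0 < 2 * (1 + q.re) := by linarith
  have hR : ContDiffAt ℝ ∞ (fun p : ℍ[ℝ] => Real.sqrt (2 * (1 + p.re))) q := by
    have h4 : ContDiffAt ℝ ∞ (fun p : ℍ[ℝ] => 2 * (1 + p.re)) q :=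
      contDiffAt_const.mul (contDiffAt_const.add cR.contDiff.contDiffAt)
    exact h4.sqrt h3.ne'
  have h4 := (Real.sqrt_pos.mpr h3).ne'
  rw [contDiffAt_euclidean]
  intro i
  fin_cases i
  · exact (cI.contDiff.contDiffAt (x := q)).div hR h4
  · exact (cJ.contDiff.contDiffAt (x := q)).div hR h4
  · exact (cK.contDiff.contDiffAt (x := q)).div hR h4

theorem differentiableAt_qv {w : E3} (h : ‖w‖ < 1) : DifferentiableAt ℝ qv w := by
  have hsq : ContDiff ℝ ∞ fun w : E3 => ‖w‖ ^ 2 := contDiff_norm_sq ℝ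
  have h1 : 0 < 1 - ‖w‖ ^ 2 := by nlinarith [norm_nonneg w]
  have hR : ContDiffAt ℝ ∞ (fun w : E3 => Real.sqrt (1 - ‖w‖ ^ 2)) w :=
    (contDiffAt_const.sub hsq.contDiffAt).sqrt h1.ne'
  have hc : ∀ i, ContDiffAt ℝ ∞ (fun w : E3 => 2 * Real.sqrt (1 - ‖w‖ ^ 2) * w i) w := fun i =>
    (contDiffAt_const.mul hR).mul (contDiff_E3_apply i).contDiffAt
  have he : ContDiffAt ℝ ∞ (fun w : E3 => (1 - 2 * ‖w‖ ^ 2 : ℝ)) w :=
    contDiffAt_const.sub (contDiffAt_const.mul hsq.contDiffAt)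
  have h2 : ContDiffAt ℝ ∞ (fun w : E3 => ((⟨1 - 2 * ‖w‖ ^ 2, 2 * Real.sqrt (1 - ‖w‖ ^ 2) * w 0⟩ : ℂ),
      (⟨2 * Real.sqrt (1 - ‖w‖ ^ 2) * w 1, 2 * Real.sqrt (1 - ‖w‖ ^ 2) * w 2⟩ : ℂ))) w := by
    have e : ∀ {a b : E3 → ℝ}, ContDiffAt ℝ ∞ a w → ContDiffAt ℝ ∞ b w →
        ContDiffAt ℝ ∞ (fun w => (⟨a w, b w⟩ : ℂ)) w := by
      intro a b ha hb
      have : (fun w => (⟨a w, b w⟩ : ℂ)) = fun w => (a w : ℂ) + (b w : ℂ) * Complex.I := by
        ext y; apply Complex.ext <;> simp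
      rw [this]
      exact (Complex.ofRealCLM.contDiff.contDiffAt.comp w ha).add
        ((Complex.ofRealCLM.contDiff.contDiffAt.comp w hb).mul contDiffAt_const)
    exact (e he (hc 0)).prodMk (e (hc 1) (hc 2))
  exact ((qqL.contDiff.contDiffAt).comp w h2).differentiableAt (by simp)

/-! ### the tube map -/

variable (e : ℤ)

/-- the point of `S³` -/
def kt (p : ℝ × E3) : ℍ[ℝ] := HH (zp (p.1 + p.2 0) (1 / 2 + p.2 2)) (1 / 2 + p.2 1)

/-- the straightened point -/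
def st (p : ℝ × E3) : ℍ[ℝ] := str Gam e (1 / 2 - p.1) (kt p)

/-- the tube function -/
def ft (p : ℝ × E3) : E3 := Wv (st e p)

theorem abs_lt_of_norm {v : E3} {r : ℝ} (h : ‖v‖ < r) (i : Fin 3) : |v i| < r := by
  have h1 : ‖v i‖ ≤ ‖v‖ := PiLp.norm_apply_le v i
  rw [Real.norm_eq_abs] at h1
  linarith

theorem zp_tube_U0 (a : ℝ) {b : ℝ} (h : |b| < 1 / 2) : zp a (1 / 2 + b) ∈ U0 := by
  intro hh
  obtain ⟨_, n, hn⟩ := zp_mem.mp hh
  obtain ⟨h1, h2⟩ := abs_lt.mp h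
  have h3 : (0 : ℝ) < n := by linarith
  have h4 : (n : ℝ) < 1 := by linarith
  have h5 : 0 < n := by exact_mod_cast h3
  have h6 : n < 1 := by exact_mod_cast h4
  omega

theorem norm_kt {u : ℝ} {v : E3} (h : ‖v‖ < 1 / 2) : ‖kt (u, v)‖ = 1 :=
  norm_HH (zp_tube_U0 _ (abs_lt_of_norm h 2)) _

theorem norm_st {u : ℝ} {v : E3} (h : ‖v‖ < 1 / 2) : ‖st e (u, v)‖ = 1 := by
  rw [st, norm_str qloop_Gam, norm_kt h]

theorem contDiffAt_kt {u : ℝ} {v : E3} (h : ‖v‖ < 1 / 2) : ContDiffAt ℝ ∞ kt (u, v) := by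
  have hU := zp_tube_U0 (u + v 0) (abs_lt_of_norm h 2)
  have h0 : ∀ i, ContDiff ℝ ∞ fun p : ℝ × E3 => p.2 i := fun i =>
    (contDiff_E3_apply i).comp contDiff_snd
  have h1 : ContDiff ℝ ∞ fun p : ℝ × E3 => (zp (p.1 + p.2 0) (1 / 2 + p.2 2), 1 / 2 + p.2 1) :=
    (contDiff_zp (contDiff_fst.add (h0 0)) (contDiff_const.add (h0 2))).prodMk
      (contDiff_const.add (h0 1))
  have h2 := ContDiffAt.comp (u, v) (g := fun p : ℂ × ℝ => HH p.1 p.2)
    (f := fun p : ℝ × E3 => (zp (p.1 + p.2 0) (1 / 2 + p.2 2), 1 / 2 + p.2 1))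
    (contDiffAt_HH hU _) h1.contDiffAt
  exact h2

theorem contDiffAt_st {u : ℝ} {v : E3} (h : ‖v‖ < 1 / 2) : ContDiffAt ℝ ∞ (st e) (u, v) := by
  have h1 : ContDiffAt ℝ ∞ (fun p : ℝ × E3 => (kt p, 1 / 2 - p.1)) (u, v) :=
    (contDiffAt_kt h).prodMk (contDiffAt_const.sub contDiffAt_fst)
  have h2 := ContDiffAt.comp (u, v) (g := fun p : ℍ[ℝ] × ℝ => str Gam e p.2 p.1)
    (f := fun p : ℝ × E3 => (kt p, 1 / 2 - p.1)) (contDiff_str qloop_Gam e).contDiffAt h1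
  exact h2

theorem kt_zero (u : ℝ) : kt (u, 0) = Gam (1 / 2 - u) := by
  rw [kt, Gam]
  simp

theorem st_zero (u : ℝ) : st e (u, 0) = 1 := by
  rw [st, kt_zero, str_eq_one qloop_Gam]

theorem kt_per (u : ℝ) (v : E3) : kt (u + 1, v) = kt (u, v) := by
  have h1 : zp (u + 1 + v 0) (1 / 2 + v 2) = zp (u + v 0) (1 / 2 + v 2) + (1 : ℂ) := by
    simp only [zp]; push_cast; ring
  simp only [kt]
  rw [h1, HH_per _ _ one_mem_lattice]

theorem st_per (u : ℝ) (v : E3) : st e (u + 1, v) = st e (u, v) := by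
  have h1 : (1 / 2 - (u + 1) : ℝ) = (1 / 2 - u) + ((-1 : ℤ) : ℝ) := by push_cast; ring
  simp only [st]
  rw [kt_per, h1, str_int qloop_Gam]

theorem st_per_int (u : ℝ) (n : ℤ) (v : E3) : st e (u + n, v) = st e (u, v) := by
  have hp : Function.Periodic (fun u => st e (u, v)) 1 := fun u => st_per e u v
  have := hp.int_mul n u
  simpa using this

/-- the radius of the tube -/
theorem exists_del : ∃ δ : ℝ, 0 < δ ∧ δ ≤ 1 / 10 ∧ ∀ u (v : E3), ‖v‖ < δ → ‖1 - st e (u, v)‖ < 2 := by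
  have h1 : ∀ u : ℝ, ∀ᶠ z : E3 × ℝ in 𝓝 ((0 : E3), u), ‖1 - st e (z.2, z.1)‖ < 2 := by
    intro u
    have h2 : ContinuousAt (fun z : E3 × ℝ => ‖1 - st e (z.2, z.1)‖) ((0 : E3), u) := by
      have h3 : ContinuousAt (st e) (u, (0 : E3)) :=
        (contDiffAt_st e (by rw [norm_zero]; norm_num)).continuousAt
      have h4 : ContinuousAt (fun z : E3 × ℝ => st e (z.2, z.1)) ((0 : E3), u) :=
        ContinuousAt.comp (g := st e) (f := fun z : E3 × ℝ => (z.2, z.1)) (x := ((0 : E3), u)) h3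
          (continuousAt_snd.prodMk continuousAt_fst)
      exact (continuousAt_const.sub h4).norm
    apply h2.eventually_lt continuousAt_const
    rw [st_zero]; simp
  have h5 := isCompact_Icc (a := (0 : ℝ)) (b := 1) |>.eventually_forall_of_forall_eventually
    (x₀ := (0 : E3)) (P := fun v u => ‖1 - st e (u, v)‖ < 2) fun u _ => h1 u
  obtain ⟨ε, hε, h6⟩ := Metric.eventually_nhds_iff.mp h5
  refine ⟨min ε (1 / 10), lt_min hε (by norm_num), min_le_right _ _, ?_⟩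
  intro u v hv
  have h7 := h6 (y := v) (by rw [dist_zero_right]; exact lt_of_lt_of_le hv (min_le_left _ _))
    (Int.fract u) ⟨Int.fract_nonneg u, (Int.fract_lt_one u).le⟩
  have h8 : st e (Int.fract u, v) = st e (u, v) := by
    have := st_per_int e (Int.fract u) ⌊u⌋ v
    rw [Int.fract_add_floor] at this
    exact this.symm
  rwa [h8] at h7

/-- the radius of the tube -/
def del : ℝ := (exists_del e).choose
theorem del_pos : 0 < del e := (exists_del e).choose_spec.1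
theorem del_le : del e ≤ 1 / 10 := (exists_del e).choose_spec.2.1
theorem del_spec {u : ℝ} {v : E3} (h : ‖v‖ < del e) : ‖1 - st e (u, v)‖ < 2 :=
  (exists_del e).choose_spec.2.2 u v h

theorem half_of_del {v : E3} (h : ‖v‖ < del e) : ‖v‖ < 1 / 2 := by
  have := del_le e; linarith

theorem re_st {u : ℝ} {v : E3} (h : ‖v‖ < del e) : -1 < (st e (u, v)).re :=
  re_of_norm (norm_st e (half_of_del e h)) (del_spec e h)

theorem st_ne_one {u : ℝ} {v : E3} (h : ‖v‖ < del e) (hv : v ≠ 0) : st e (u, v) ≠ 1 := by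
  intro h1
  rw [st, str_eq_one qloop_Gam] at h1
  have hd := del_le e
  have b0 := abs_lt.mp (abs_lt_of_norm h 0)
  have b1 := abs_lt.mp (abs_lt_of_norm h 1)
  have b2 := abs_lt.mp (abs_lt_of_norm h 2)
  obtain ⟨h2, h3⟩ := HH_eq_Gam (zp_tube_U0 (u + v 0) (abs_lt_of_norm (half_of_del e h) 2))
    (t := 1 / 2 + v 1) (by linarith) (by linarith) h1
  rw [zp_sub, zp_mem] at h3
  obtain ⟨⟨m, hm⟩, ⟨n, hn⟩⟩ := h3
  have hm0 : m = 0 := by
    have a1 : (m : ℝ) < 1 := by linarith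
    have a2 : (-1 : ℝ) < m := by linarith
    have a3 : m < 1 := by exact_mod_cast a1
    have a4 : -1 < m := by exact_mod_cast a2
    omega
  have hn0 : n = 0 := by
    have a1 : (n : ℝ) < 1 := by linarith
    have a2 : (-1 : ℝ) < n := by linarith
    have a3 : n < 1 := by exact_mod_cast a1
    have a4 : -1 < n := by exact_mod_cast a2
    omega
  apply hv
  rw [hm0] at hm
  rw [hn0] at hn
  push_cast at hm hn
  apply E3_ext
  · show v 0 = 0
    linarith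
  · show v 1 = 0
    linarith
  · show v 2 = 0
    linarith

theorem ft_zero (u : ℝ) : ft e (u, 0) = 0 := by
  rw [ft, st_zero]
  apply E3_ext <;> simp [Wv]

theorem ft_per (u : ℝ) (v : E3) : ft e (u + 1, v) = ft e (u, v) := by
  rw [ft, st_per, ft]

theorem norm_ft {u : ℝ} {v : E3} (h : ‖v‖ < del e) : ‖ft e (u, v)‖ = ‖1 - st e (u, v)‖ / 2 :=
  norm_Wv (norm_st e (half_of_del e h)) (re_st e h)

theorem ft_lt {u : ℝ} {v : E3} (h : ‖v‖ < del e) : ‖ft e (u, v)‖ < 1 := by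
  rw [norm_ft e h]; linarith [del_spec e (u := u) h]

theorem ft_ne {u : ℝ} {v : E3} (h : ‖v‖ < del e) (hv : v ≠ 0) : ft e (u, v) ≠ 0 := by
  rw [← norm_pos_iff, norm_ft e h]
  have := norm_pos_iff.mpr (sub_ne_zero.mpr (Ne.symm (st_ne_one e (u := u) h hv)))
  linarith

theorem contDiffAt_ft {u : ℝ} {v : E3} (h : ‖v‖ < del e) : ContDiffAt ℝ ∞ (ft e) (u, v) :=
  ContDiffAt.comp (u, v) (g := Wv) (f := st e) (contDiffAt_Wv (re_st e h))
    (contDiffAt_st e (half_of_del e h))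

/-- the chart around the core sphere -/
def jcP (p : S2 × ℂ) : X4 := jc (p.1, -(starRingEnd ℂ) p.2)

theorem neg_conj_ex (r u : ℝ) : -(starRingEnd ℂ) ((r : ℂ) * ex u) = (r : ℂ) * ee (1 / 2 - u) := by
  have h1 : (starRingEnd ℂ) (ex u) = ee (-u) := by
    rw [ex, ee, ← Complex.exp_conj]
    congr 1
    rw [map_mul, Complex.conj_ofReal, Complex.conj_I]
    push_cast
    ring
  rw [map_mul, Complex.conj_ofReal, h1, sub_eq_add_neg, ee_add, ee_half]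
  ring

theorem ft_glue (u : ℝ) {v : E3} (h : ‖v‖ < del e) (hv : v ≠ 0) :
    H0 e (pt (1 / 2 + v 0) u (1 / 2 + v 2), 1 / 2 + v 1) =
      jcP (dir (ft e (u, v)), (‖ft e (u, v)‖ : ℂ) * ex u) := by
  have hd := del_le e
  have hs : sx (1 / 2 + v 0) (1 / 2 + v 2) (1 / 2 + v 1) = v 0 :=
    sx_near (lt_of_lt_of_le (abs_lt_of_norm h 0) hd) (lt_of_lt_of_le (abs_lt_of_norm h 2) hd)
      (lt_of_lt_of_le (abs_lt_of_norm h 1) hd)
  have h1 : H0 e (pt (1 / 2 + v 0) u (1 / 2 + v 2), 1 / 2 + v 1) =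
      TT Gam e (kt (u, v)) (1 / 2 - u) := by
    have e1 : zz (Sh (pt (1 / 2 + v 0) u (1 / 2 + v 2)) (1 / 2 + v 1)) =
        zp (u + v 0) (1 / 2 + v 2) := by
      rw [zz, Sh_1, Sh_2, pt_zero', pt_one', pt_two', hs]
    have e2 : ss (Sh (pt (1 / 2 + v 0) u (1 / 2 + v 2)) (1 / 2 + v 1)) = 1 / 2 - u := by
      rw [ss, Sh_0, Sh_1, pt_zero', pt_one', pt_two', hs]; ring
    simp only [H0, Hb]
    rw [e1, e2]
    rfl
  rw [h1, TT, jcP]
  simp only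
  rw [neg_conj_ex, jc]
  simp only
  congr 1
  exact thv_Wv (norm_st e (half_of_del e h)) (re_st e h) (st_ne_one e h hv) (norm_ee _)

end

end Pool.Agent.TRF
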