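import Pool.Agent.TRF.Tub

/-!
# TRF/TubN: the derivative of the tube function
-/

open Complex Set Filter
open scoped Topology ContDiff Quaternion Manifold

namespace Pool.Agent.TRF
open Pool.Agent.CSG Pool.Agent.TS

noncomputable section

variable (e : ℤ)

theorem ft_hasFDeriv {u : ℝ} {v : E3} (h : ‖v‖ < del e) :
    HasFDerivAt (fun v => ft e (u, v)) ((fderiv ℝ (ft e) (u, v)).comp (ContinuousLinearMap.inr ℝ ℝ E3)) v := by
  have h1 : HasFDerivAt (ft e) (fderiv ℝ (ft e) (u, v)) (u, v) :=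
    ((contDiffAt_ft e h).differentiableAt (by simp)).hasFDerivAt
  have h2 := HasFDerivAt.comp v h1 (hasFDerivAt_prodMk_right u v)
  exact h2

/-- the derivative at `0` -/
def NtL (u : ℝ) : E3 →L[ℝ] E3 :=
  (fderiv ℝ (ft e) (u, (0 : E3))).comp (ContinuousLinearMap.inr ℝ ℝ E3)

theorem zero_lt_del : ‖(0 : E3)‖ < del e := by rw [norm_zero]; exact del_pos e

theorem NtL_deriv (u : ℝ) : HasFDerivAt (fun v => ft e (u, v)) (NtL e u) 0 :=
  ft_hasFDeriv e (zero_lt_del e)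

theorem NtL_inj (u : ℝ) {w : E3} (hw : NtL e u w = 0) : w = 0 := by
  -- the curve
  have hP : HasDerivAt (fun τ : ℝ => τ • w) w 0 := by
    have := (hasDerivAt_id (0 : ℝ)).smul_const w
    simpa using this
  have hP0 : (0 : ℝ) • w = 0 := zero_smul _ _
  have hPt : Tendsto (fun τ : ℝ => τ • w) (𝓝 0) (𝓝 0) := by
    have := hP.continuousAt.tendsto
    rwa [hP0] at this
  have hf : HasDerivAt (fun τ : ℝ => ft e (u, τ • w)) 0 0 := by
    have h1 : HasFDerivAt (fun v => ft e (u, v)) (NtL e u) ((0 : ℝ) • w) := by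
      rw [hP0]; exact NtL_deriv e u
    have h2 := h1.comp_hasDerivAt (0 : ℝ) hP
    rw [hw] at h2
    exact h2
  have hnear : ∀ᶠ τ : ℝ in 𝓝 0, ‖τ • w‖ < del e := by
    have := (continuous_norm.tendsto (0 : E3)).comp hPt
    exact this.eventually (gt_mem_nhds (zero_lt_del e))
  have hq : HasDerivAt (fun τ : ℝ => st e (u, τ • w)) 0 0 := by
    have h1 : HasFDerivAt qv (fderiv ℝ qv (ft e (u, (0 : ℝ) • w))) (ft e (u, (0 : ℝ) • w)) := by
      refine (differentiableAt_qv ?_).hasFDerivAt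
      rw [hP0]; exact ft_lt e (zero_lt_del e)
    have h2 := h1.comp_hasDerivAt (0 : ℝ) hf
    rw [map_zero] at h2
    refine h2.congr_of_eventuallyEq ?_
    filter_upwards [hnear] with τ hτ
    exact (qv_Wv (norm_st e (half_of_del e hτ)) (re_st e hτ)).symm
  have hk : HasDerivAt (fun τ : ℝ => kt (u, τ • w)) 0 0 := by
    have h1 := (hq.const_mul (Gam (1 / 2 - u) * star (rho e (1 / 2 - u)))).mul_const
      (rho e (1 / 2 - u))
    simp only [mul_zero, zero_mul] at h1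
    refine h1.congr_of_eventuallyEq (Eventually.of_forall fun τ => ?_)
    exact (str_inv qloop_Gam e (1 / 2 - u) _).symm
  -- derivative of `kt`
  have hU : zp (u + (0 : E3) 0) (1 / 2 + (0 : E3) 2) ∈ U0 := zp_tube_U0 _ (by simp)
  have hin : HasDerivAt (fun τ : ℝ => (zp (u + (τ • w) 0) (1 / 2 + (τ • w) 2), 1 / 2 + (τ • w) 1))
      (zp (w 0) (w 2), w 1) 0 := by
    have a0 : ∀ i, HasDerivAt (fun τ : ℝ => (τ • w) i) (w i) 0 := by
      intro i
      have := (hasDerivAt_id (0 : ℝ)).mul_const (w i)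
      simpa using this
    have a1 : HasDerivAt (fun τ : ℝ => ((u + (τ • w) 0 : ℝ) : ℂ)) ((w 0 : ℝ) : ℂ) 0 :=
      ((a0 0).const_add u).ofReal_comp
    have a2 : HasDerivAt (fun τ : ℝ => ((1 / 2 + (τ • w) 2 : ℝ) : ℂ)) ((w 2 : ℝ) : ℂ) 0 :=
      ((a0 2).const_add (1 / 2)).ofReal_comp
    exact (a1.add (a2.mul_const om)).prodMk ((a0 1).const_add _)
  have hk2 : HasDerivAt (fun τ : ℝ => kt (u, τ • w))
      (fderiv ℝ (fun p : ℂ × ℝ => HH p.1 p.2)
        (zp (u + (0 : E3) 0) (1 / 2 + (0 : E3) 2), 1 / 2 + (0 : E3) 1) (zp (w 0) (w 2), w 1)) 0 := by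
    have h1 : HasFDerivAt (fun p : ℂ × ℝ => HH p.1 p.2)
      (fderiv ℝ (fun p : ℂ × ℝ => HH p.1 p.2)
        (zp (u + (0 : E3) 0) (1 / 2 + (0 : E3) 2), 1 / 2 + (0 : E3) 1))
      (zp (u + ((0 : ℝ) • w) 0) (1 / 2 + ((0 : ℝ) • w) 2), 1 / 2 + ((0 : ℝ) • w) 1) := by
      rw [hP0]
      exact ((contDiffAt_HH hU _).differentiableAt (by simp)).hasFDerivAt
    have h2 := h1.comp_hasDerivAt (0 : ℝ) hin
    exact h2
  have h3 := hk2.unique hk
  have h4 := HH_imm hU _ _ h3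
  have h5 : zp (w 0) (w 2) = 0 := congrArg Prod.fst h4
  have h6 : w 1 = 0 := congrArg Prod.snd h4
  have h7 : zp (w 0) (w 2) = zp 0 0 := by rw [h5]; simp [zp]
  obtain ⟨h8, h9⟩ := zp_inj h7
  exact E3_ext h8 h6 h9

/-- the derivative at `0`, as an isomorphism -/
def Nt (u : ℝ) : E3 ≃L[ℝ] E3 :=
  (LinearEquiv.ofInjectiveEndo (NtL e u : E3 →ₗ[ℝ] E3) (by
    rw [← LinearMap.ker_eq_bot, LinearMap.ker_eq_bot']
    exact fun w hw => NtL_inj e u hw)).toContinuousLinearEquiv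

theorem Nt_apply (u : ℝ) (w : E3) : Nt e u w = NtL e u w := rfl

theorem coe_Nt (u : ℝ) : (Nt e u : E3 →L[ℝ] E3) = NtL e u := by
  ext w; rfl

theorem Nt_deriv (u : ℝ) : HasFDerivAt (fun v => ft e (u, v)) (Nt e u : E3 →L[ℝ] E3) 0 := by
  rw [coe_Nt]; exact NtL_deriv e u

theorem Nt_smooth : ContDiff ℝ ∞ fun q : ℝ × E3 => Nt e q.1 q.2 := by
  rw [contDiff_iff_contDiffAt]
  rintro ⟨u, w⟩
  have h1 : ContDiffAt ℝ ∞ (fderiv ℝ (ft e)) (u, (0 : E3)) :=
    (contDiffAt_ft e (u := u) (zero_lt_del e)).fderiv_right (m := ∞) (by simp)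
  have h2 : ContDiffAt ℝ ∞ (fun q : ℝ × E3 => fderiv ℝ (ft e) (q.1, (0 : E3))) (u, w) := by
    have := ContDiffAt.comp (u, w) (g := fderiv ℝ (ft e)) (f := fun q : ℝ × E3 => (q.1, (0 : E3)))
      h1 (contDiffAt_fst.prodMk contDiffAt_const)
    exact this
  have h3 : ContDiffAt ℝ ∞ (fun q : ℝ × E3 => ((0 : ℝ), q.2)) (u, w) :=
    contDiffAt_const.prodMk contDiffAt_snd
  have h4 := h2.clm_apply h3
  exact h4

/-! ### dependence on `e` -/

theorem qq_conj (a x y : ℂ) (ha : ‖a‖ = 1) :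
    qq a 0 * qq x y * star (qq a 0) = qq x (a ^ 2 * y) := by
  have h1 : a.re ^ 2 + a.im ^ 2 = 1 := by
    have := Complex.normSq_eq_norm_sq a
    rw [ha, Complex.normSq_apply] at this
    nlinarith
  have hsq : a ^ 2 = ⟨a.re ^ 2 - a.im ^ 2, 2 * a.re * a.im⟩ := by
    apply Complex.ext <;> simp [pow_two] <;> ring
  rw [hsq]
  ext
  · simp [qq]
    linear_combination x.re * h1
  · simp [qq]
    linear_combination x.im * h1
  · simp [qq]; ring
  · simp [qq]; ring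

theorem st_rel (p : ℝ × E3) : st e p = qq (ee (e * (1 / 2 - p.1) / 2)) 0 * st 0 p *
    star (qq (ee (e * (1 / 2 - p.1) / 2)) 0) := by
  have h0 : rho 0 (1 / 2 - p.1) = 1 := by
    rw [rho]
    simp only [Int.cast_zero, zero_mul, zero_div, ee_zero]
    ext <;> simp [qq]
  rw [st, st, str, str, h0, rho, star_one, one_mul, mul_one]
  noncomm_ring

theorem cmul_0 (c : ℂ) (z : E3) : cmul c z 0 = z 0 := by simp [cmul]
theorem cmul_1 (c : ℂ) (z : E3) : cmul c z 1 = c.re * z 1 - c.im * z 2 := by simp [cmul]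
theorem cmul_2 (c : ℂ) (z : E3) : cmul c z 2 = c.re * z 2 + c.im * z 1 := by simp [cmul]

theorem ft_rel (p : ℝ × E3) : ft e p = cmul (ee (e * (1 / 2 - p.1))) (ft 0 p) := by
  have h1 := st_rel e p
  have h2 : st 0 p = qq ⟨(st 0 p).re, (st 0 p).imI⟩ ⟨(st 0 p).imJ, (st 0 p).imK⟩ := (qq_surj _).symm
  rw [h2, qq_conj _ _ _ (norm_ee _), ee_pow] at h1
  have h3 : ((2 : ℕ) : ℝ) * ((e : ℝ) * (1 / 2 - p.1) / 2) = e * (1 / 2 - p.1) := by
    push_cast; ring
  rw [h3] at h1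
  have r1 : (st e p).re = (st 0 p).re := by rw [h1]; rfl
  have r2 : (st e p).imI = (st 0 p).imI := by rw [h1]; rfl
  have r3 : (st e p).imJ = (ee (e * (1 / 2 - p.1)) * ⟨(st 0 p).imJ, (st 0 p).imK⟩).re := by
    rw [h1]; rfl
  have r4 : (st e p).imK = (ee (e * (1 / 2 - p.1)) * ⟨(st 0 p).imJ, (st 0 p).imK⟩).im := by
    rw [h1]; rfl
  set c := ee (e * (1 / 2 - p.1)) with hc
  apply E3_ext
  · rw [cmul_0]; simp only [ft, Wv, pt_zero', r1, r2]
  · rw [cmul_1]; simp only [ft, Wv, pt_one', pt_two', r1, r3, Complex.mul_re]; ring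
  · rw [cmul_2]; simp only [ft, Wv, pt_one', pt_two', r1, r4, Complex.mul_im]; ring

/-- `cmul c` as a linear map -/
def cmulL (c : ℂ) : E3 →L[ℝ] E3 :=
  LinearMap.toContinuousLinearMap
    { toFun := cmul c
      map_add' := fun x y => by
        apply E3_ext <;> simp [cmul] <;> ring
      map_smul' := fun a x => by
        apply E3_ext <;> simp [cmul] <;> ring }

theorem cmulL_apply (c : ℂ) (x : E3) : cmulL c x = cmul c x := rfl

theorem Nt_rel (u : ℝ) (w : E3) : Nt e u w = cmul (ee (e * (1 / 2 - u))) (Nt 0 u w) := by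
  have h1 : HasFDerivAt (fun v => ft e (u, v))
      ((cmulL (ee (e * (1 / 2 - u)))).comp (Nt 0 u : E3 →L[ℝ] E3)) 0 := by
    have h2 := HasFDerivAt.comp (0 : E3) ((cmulL (ee (e * (1 / 2 - u)))).hasFDerivAt
      (x := ft 0 (u, (0 : E3)))) (Nt_deriv 0 u)
    have h3 : (fun v => ft e (u, v)) = (cmulL (ee (e * (1 / 2 - u)))) ∘ fun v => ft 0 (u, v) := by
      funext v
      exact ft_rel e (u, v)
    rw [h3]
    exact h2
  have h4 := h1.unique (Nt_deriv e u)
  have h5 := congrArg (fun L : E3 →L[ℝ] E3 => L w) h4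
  exact h5.symm

end

end Pool.Agent.TRF
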