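import Pool.Agent.TRF.Lat

/-!
# TRF/Wp: the Weierstrass curve of the hexagonal lattice

`P = ℘[L0]`, `Q = ℘'[L0]`: `Q' = 6 P ^ 2`, `g₃ ≠ 0`, `(P, Q)` is a bijection from
`(ℂ - Λ) / Λ` onto the affine curve `Q ^ 2 = 4 P ^ 3 - g₃`.
-/

open Complex PeriodPair Filter Set
open scoped Topology

namespace Pool.Agent.TRF

noncomputable section

/-- complement of the lattice -/
def U0 : Set ℂ := {z | z ∉ L0.lattice}

theorem isOpen_U0 : IsOpen U0 := L0.isClosed_lattice.isOpen_compl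

theorem wp_analytic : AnalyticOnNhd ℂ ℘[L0] U0 := L0.analyticOnNhd_weierstrassP

theorem wpd_analytic : AnalyticOnNhd ℂ ℘'[L0] U0 := L0.analyticOnNhd_derivWeierstrassP

theorem lam_countable : (L0.lattice : Set ℂ).Countable := by
  exact countable_of_Lindelof_of_discrete (X := L0.lattice)

theorem preconnected_U0 : IsPreconnected U0 := by
  exact (Set.Countable.isConnected_compl_of_one_lt_rank (by simp) lam_countable).2

theorem wp_near_zero (z : ℂ) : ℘[L0] z = ℘[L0 - (0 : ℂ)] z + 1 / z ^ 2 := by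
  have := L0.weierstrassPExcept_def 0 z
  simp at this
  rw [this]
  simp

theorem wpd_near_zero (z : ℂ) : ℘'[L0] z = ℘'[L0 - (0 : ℂ)] z - 2 / z ^ 3 := by
  have := L0.derivWeierstrassPExcept_def 0 z
  simp at this
  rw [this]
  ring

theorem tendsto_sq_mul_wp : Tendsto (fun z : ℂ => z ^ 2 * ℘[L0] z) (𝓝[≠] 0) (𝓝 1) := by
  have h1 : ContinuousAt (fun z : ℂ => z ^ 2 * ℘[L0 - (0 : ℂ)] z + 1) 0 := by
    have := (L0.analyticAt_weierstrassPExcept 0).continuousAt
    fun_prop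
  have h2 : Tendsto (fun z : ℂ => z ^ 2 * ℘[L0 - (0 : ℂ)] z + 1) (𝓝[≠] 0) (𝓝 1) := by
    have h3 := h1.tendsto.mono_left (nhdsWithin_le_nhds (s := {0}ᶜ))
    simpa using h3
  refine h2.congr' ?_
  filter_upwards [self_mem_nhdsWithin] with z hz
  rw [wp_near_zero z]
  have : z ≠ 0 := hz
  field_simp

theorem tendsto_cb_mul_wpd : Tendsto (fun z : ℂ => z ^ 3 * ℘'[L0] z) (𝓝[≠] 0) (𝓝 (-2)) := by
  have h1 : ContinuousAt (fun z : ℂ => z ^ 3 * ℘'[L0 - (0 : ℂ)] z - 2) 0 := by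
    have := (L0.analyticAt_derivWeierstrassPExcept 0).continuousAt
    fun_prop
  have h2 : Tendsto (fun z : ℂ => z ^ 3 * ℘'[L0 - (0 : ℂ)] z - 2) (𝓝[≠] 0) (𝓝 (-2)) := by
    have h3 := h1.tendsto.mono_left (nhdsWithin_le_nhds (s := {0}ᶜ))
    simpa using h3
  refine h2.congr' ?_
  filter_upwards [self_mem_nhdsWithin] with z hz
  rw [wpd_near_zero z]
  have : z ≠ 0 := hz
  field_simp

theorem U0_mem_nhds_zero : U0 ∈ 𝓝[≠] (0 : ℂ) := by
  have := L0.compl_lattice_sdiff_singleton_mem_nhds 0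
  filter_upwards [self_mem_nhdsWithin, mem_nhdsWithin_of_mem_nhds this] with z hz hz2 hz3
  exact hz2 ⟨hz3, hz⟩

theorem tendsto_wp_cobounded : Tendsto (fun z : ℂ => ‖℘[L0] z‖) (𝓝[≠] 0) atTop := by
  have h1 := tendsto_sq_mul_wp.norm
  have h2 : Tendsto (fun z : ℂ => ‖z ^ 2‖⁻¹) (𝓝[≠] 0) atTop := by
    have h3 : Tendsto (fun z : ℂ => ‖z ^ 2‖) (𝓝[≠] 0) (𝓝[>] 0) := by
      rw [tendsto_nhdsWithin_iff]
      constructor
      · have : ContinuousAt (fun z : ℂ => ‖z ^ 2‖) 0 := by fun_prop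
        have h4 := this.tendsto.mono_left (nhdsWithin_le_nhds (s := {0}ᶜ))
        simpa using h4
      · filter_upwards [self_mem_nhdsWithin] with z hz
        have : z ≠ 0 := hz
        exact norm_pos_iff.mpr (pow_ne_zero 2 this)
    exact tendsto_inv_nhdsGT_zero.comp h3
  have h3 := h2.atTop_mul_pos (by norm_num : (0:ℝ) < ‖(1:ℂ)‖) h1
  refine h3.congr' ?_
  filter_upwards [self_mem_nhdsWithin] with z hz
  have hz' : z ≠ 0 := hz
  rw [norm_mul, ← mul_assoc, inv_mul_cancel₀, one_mul]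
  exact norm_ne_zero_iff.mpr (pow_ne_zero 2 hz')

theorem not_wp_zero : ¬ ∀ z ∈ U0, ℘[L0] z = 0 := by
  intro h
  have h1 : Tendsto (fun z : ℂ => z ^ 2 * ℘[L0] z) (𝓝[≠] 0) (𝓝 0) := by
    refine tendsto_const_nhds.congr' ?_
    filter_upwards [U0_mem_nhds_zero] with z hz
    rw [h z hz, mul_zero]
  have := tendsto_nhds_unique h1 tendsto_sq_mul_wp
  norm_num at this

theorem not_wpd_zero : ¬ ∀ z ∈ U0, ℘'[L0] z = 0 := by
  intro h
  have h1 : Tendsto (fun z : ℂ => z ^ 3 * ℘'[L0] z) (𝓝[≠] 0) (𝓝 0) := by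
    refine tendsto_const_nhds.congr' ?_
    filter_upwards [U0_mem_nhds_zero] with z hz
    rw [h z hz, mul_zero]
  have := tendsto_nhds_unique h1 tendsto_cb_mul_wpd
  norm_num at this

theorem wp_hasDerivAt {z : ℂ} (hz : z ∈ U0) : HasDerivAt ℘[L0] (℘'[L0] z) z := by
  have h := (wp_analytic z hz).differentiableAt.hasDerivAt
  rwa [L0.deriv_weierstrassP] at h

/-- `℘'' = 6 ℘ ^ 2` -/
theorem wpd_deriv {z : ℂ} (hz : z ∈ U0) : deriv ℘'[L0] z = 6 * ℘[L0] z ^ 2 := by
  have h1 : AnalyticOnNhd ℂ (fun z => deriv ℘'[L0] z - 6 * ℘[L0] z ^ 2) U0 := by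
    intro w hw
    have h2 := (wpd_analytic w hw).deriv
    have h3 := wp_analytic w hw
    fun_prop
  have h2 : ∀ w ∈ U0, ℘'[L0] w * (deriv ℘'[L0] w - 6 * ℘[L0] w ^ 2) = 0 := by
    intro w hw
    have e : (fun x => ℘'[L0] x ^ 2) =ᶠ[𝓝 w] (fun x => 4 * ℘[L0] x ^ 3 - L0.g₃) := by
      filter_upwards [isOpen_U0.mem_nhds hw] with x hx
      exact wp_sq x hx
    have d1 : HasDerivAt (fun x => ℘'[L0] x ^ 2) (2 * ℘'[L0] w * deriv ℘'[L0] w) w := by
      have := (wpd_analytic w hw).differentiableAt.hasDerivAt.pow 2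
      refine this.congr_deriv ?_
      norm_num
    have d2 : HasDerivAt (fun x => 4 * ℘[L0] x ^ 3 - L0.g₃)
        (4 * (3 * ℘[L0] w ^ 2 * ℘'[L0] w)) w := by
      have := ((wp_hasDerivAt hw).pow 3).const_mul 4 |>.sub_const L0.g₃
      refine this.congr_deriv ?_
      norm_num
    have := d1.unique (d2.congr_of_eventuallyEq e)
    linear_combination this / 2
  rcases wpd_analytic.eq_zero_or_eq_zero_of_mul_eq_zero h1 h2 preconnected_U0 with h | h
  · exact absurd h not_wpd_zero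
  · exact sub_eq_zero.mp (h z hz)

/-- uniqueness for `D'' = q D` -/
theorem ode_zero {D q : ℂ → ℂ} {z₀ : ℂ} (hD : AnalyticAt ℂ D z₀) (hq : AnalyticAt ℂ q z₀)
    (h0 : D z₀ = 0) (h1 : deriv D z₀ = 0)
    (h2 : ∀ᶠ z in 𝓝 z₀, deriv (deriv D) z = q z * D z) : ∀ᶠ z in 𝓝 z₀, D z = 0 := by
  rw [← analyticOrderAt_eq_top]
  by_contra hne
  have e1 : analyticOrderAt (deriv D) z₀ + 1 = analyticOrderAt D z₀ := by
    simpa [h0] using hD.analyticOrderAt_deriv_add_one
  have e2 : analyticOrderAt (deriv (deriv D)) z₀ + 1 = analyticOrderAt (deriv D) z₀ := by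
    simpa [h1] using hD.deriv.analyticOrderAt_deriv_add_one
  have e3 : analyticOrderAt (deriv (deriv D)) z₀ = analyticOrderAt q z₀ + analyticOrderAt D z₀ := by
    rw [← analyticOrderAt_mul hq hD]
    exact analyticOrderAt_congr h2
  obtain ⟨n, hn⟩ := ENat.ne_top_iff_exists.mp hne
  have e4 : analyticOrderAt D z₀ ≤ analyticOrderAt (deriv (deriv D)) z₀ := by
    rw [e3]; exact le_add_self
  have e5 : analyticOrderAt (deriv (deriv D)) z₀ + 1 + 1 = analyticOrderAt D z₀ := by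
    rw [e2, e1]
  rw [← hn] at e4 e5
  have e6 : analyticOrderAt (deriv (deriv D)) z₀ ≠ ⊤ := by
    intro h
    rw [h] at e5
    simp at e5
  obtain ⟨m, hm⟩ := ENat.ne_top_iff_exists.mp e6
  rw [← hm] at e4 e5
  have e7 : n ≤ m := by exact_mod_cast e4
  have e8 : m + 1 + 1 = n := by exact_mod_cast e5
  omega

theorem half_mem_U0 : (1 / 2 : ℂ) ∈ U0 := by
  have := L0.ω₁_div_two_notMem_lattice
  exact this

theorem one_mem_lattice : (1 : ℂ) ∈ L0.lattice := L0.ω₁_mem_lattice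

theorem wpd_half : ℘'[L0] (1 / 2) = 0 := by
  have h1 : ℘'[L0] (-(1 / 2)) = - ℘'[L0] (1 / 2) := L0.derivWeierstrassP_neg _
  have h2 := L0.derivWeierstrassP_add_coe (-(1 / 2)) ⟨1, one_mem_lattice⟩
  simp only at h2
  have h3 : (-(1 / 2) + 1 : ℂ) = 1 / 2 := by norm_num
  rw [h3, h1] at h2
  linear_combination h2 / 2

theorem g3_ne_zero : L0.g₃ ≠ 0 := by
  intro h
  have h1 := wp_sq (1 / 2) half_mem_U0
  rw [wpd_half, h] at h1
  have h2 : ℘[L0] (1 / 2) = 0 := by
    have : ℘[L0] (1 / 2) ^ 3 = 0 := by linear_combination -h1 / 4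
    exact pow_eq_zero_iff (by norm_num) |>.mp this
  have ha := wp_analytic _ half_mem_U0
  have h3 : ∀ᶠ z in 𝓝 (1 / 2 : ℂ), ℘[L0] z = 0 := by
    refine ode_zero (q := fun z => 6 * ℘[L0] z) ha (by fun_prop) h2 ?_ ?_
    · rw [L0.deriv_weierstrassP]; exact wpd_half
    · filter_upwards [isOpen_U0.mem_nhds half_mem_U0] with z hz
      rw [L0.deriv_weierstrassP, wpd_deriv hz]
      ring
  exact not_wp_zero (wp_analytic.eqOn_zero_of_preconnected_of_eventuallyEq_zero preconnected_U0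
    half_mem_U0 h3)

/-- `(℘', ℘'')` has no common zero. -/
theorem wpd_or {z : ℂ} (hz : z ∈ U0) : ℘'[L0] z ≠ 0 ∨ deriv ℘'[L0] z ≠ 0 := by
  by_contra h
  push Not at h
  obtain ⟨h1, h2⟩ := h
  rw [wpd_deriv hz] at h2
  have h3 : ℘[L0] z = 0 := by
    have : ℘[L0] z ^ 2 = 0 := by linear_combination h2 / 6
    exact pow_eq_zero_iff (by norm_num) |>.mp this
  have h4 := wp_sq z hz
  rw [h1, h3] at h4
  apply g3_ne_zero
  linear_combination h4

/-- surjectivity of `℘` -/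
theorem wp_surj (c : ℂ) : ∃ z ∈ U0, ℘[L0] z = c := by
  by_contra hcon
  push Not at hcon
  classical
  let F : ℂ → ℂ := fun z => if z ∈ L0.lattice then 0 else (℘[L0] z - c)⁻¹
  have hper : ∀ z w, w ∈ L0.lattice → F (z + w) = F z := by
    intro z w hw
    have h1 : z + w ∈ L0.lattice ↔ z ∈ L0.lattice := by
      constructor
      · intro h; simpa using sub_mem h hw
      · intro h; exact add_mem h hw
    simp only [F, h1]
    rw [show z + w = z + ((⟨w, hw⟩ : L0.lattice) : ℂ) from rfl, L0.weierstrassP_add_coe]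
  have hdU : ∀ z ∈ U0, DifferentiableAt ℂ F z := by
    intro z hz
    have h1 : F =ᶠ[𝓝 z] fun z => (℘[L0] z - c)⁻¹ := by
      filter_upwards [isOpen_U0.mem_nhds hz] with w hw
      exact if_neg hw
    rw [h1.differentiableAt_iff]
    exact ((wp_analytic z hz).differentiableAt.sub_const c).inv (sub_ne_zero.mpr (hcon z hz))
  have hc0 : ContinuousAt F 0 := by
    have h0 : F 0 = 0 := if_pos (zero_mem _)
    rw [← continuousWithinAt_compl_self, ContinuousWithinAt, h0]
    have h1 : Tendsto (fun z => ‖(℘[L0] z - c)‖) (𝓝[≠] 0) atTop := by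
      refine tendsto_atTop_mono (fun z => ?_)
        (tendsto_wp_cobounded.atTop_add (tendsto_const_nhds (x := -‖c‖)))
      have := norm_sub_norm_le (℘[L0] z) c
      linarith
    have h2 := h1.inv_tendsto_atTop
    rw [tendsto_zero_iff_norm_tendsto_zero]
    refine h2.congr' ?_
    filter_upwards [U0_mem_nhds_zero] with z hz
    have : F z = (℘[L0] z - c)⁻¹ := if_neg hz
    rw [this, norm_inv]
    rfl
  have hd0 : DifferentiableAt ℂ F 0 := by
    refine (analyticAt_of_differentiable_on_punctured_nhds_of_continuousAt ?_ hc0).differentiableAt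
    filter_upwards [U0_mem_nhds_zero] with z hz
    exact hdU z hz
  have hd : Differentiable ℂ F := by
    intro z
    by_cases hz : z ∈ L0.lattice
    · have h1 : F = fun x => F (x - z) := by
        ext x
        have := hper x (-z) (neg_mem hz)
        rw [sub_eq_add_neg, this]
      rw [h1]
      have h2 : DifferentiableAt ℂ F (z - z) := by rw [sub_self]; exact hd0
      exact DifferentiableAt.comp (f := fun x : ℂ => x - z) z h2 (by fun_prop)
    · exact hdU z hz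
  have hb := (IsZLattice.isCompact_range_of_periodic L0.lattice F hd.continuous hper).isBounded
  have h1 := hd.apply_eq_apply_of_bounded hb (1 / 2) 0
  have h2 : F 0 = 0 := if_pos (zero_mem _)
  have h3 : F (1 / 2) = (℘[L0] (1 / 2) - c)⁻¹ := if_neg half_mem_U0
  rw [h2, h3] at h1
  exact inv_ne_zero (sub_ne_zero.mpr (hcon _ half_mem_U0)) h1

/-- surjectivity onto the affine curve -/
theorem curve_surj {a b : ℂ} (h : a ^ 2 = 4 * b ^ 3 - L0.g₃) :
    ∃ z ∈ U0, ℘[L0] z = b ∧ ℘'[L0] z = a := by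
  obtain ⟨z, hz, hb⟩ := wp_surj b
  have h1 := wp_sq z hz
  rw [hb, ← h] at h1
  rcases sq_eq_sq_iff_eq_or_eq_neg.mp h1 with h2 | h2
  · exact ⟨z, hz, hb, h2⟩
  · refine ⟨-z, ?_, ?_, ?_⟩
    · intro hh; exact hz (by simpa using neg_mem hh)
    · rw [L0.weierstrassP_neg]; exact hb
    · rw [L0.derivWeierstrassP_neg, h2, neg_neg]

/-- injectivity onto the affine curve -/
theorem curve_inj {z w : ℂ} (hz : z ∈ U0) (hw : w ∈ U0) (h1 : ℘[L0] z = ℘[L0] w)
    (h2 : ℘'[L0] z = ℘'[L0] w) : w - z ∈ L0.lattice := by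
  by_contra hδ
  set δ := w - z with hδdef
  -- the open connected set where both functions are analytic
  let V : Set ℂ := ((L0.lattice : Set ℂ) ∪ ((fun x => x - δ) '' (L0.lattice : Set ℂ)))ᶜ
  have hVmem : ∀ x, x ∈ V ↔ x ∈ U0 ∧ x + δ ∈ U0 := by
    intro x
    simp only [V, mem_compl_iff, mem_union, mem_image, not_or, SetLike.mem_coe, not_exists, not_and]
    constructor
    · rintro ⟨h3, h4⟩
      refine ⟨h3, fun h5 => h4 _ h5 (by ring)⟩
    · rintro ⟨h3, h4⟩
      refine ⟨h3, fun y hy hy2 => h4 ?_⟩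
      rw [← hy2]; simpa using hy
  have hVc : IsPreconnected V :=
    (Set.Countable.isConnected_compl_of_one_lt_rank (by simp)
      (lam_countable.union (lam_countable.image _))).2
  let D : ℂ → ℂ := fun x => ℘[L0] (x + δ) - ℘[L0] x
  have hDa : AnalyticOnNhd ℂ D V := by
    intro x hx
    rw [hVmem] at hx
    have h3 := wp_analytic x hx.1
    have h4 : AnalyticAt ℂ (fun x => ℘[L0] (x + δ)) x :=
      (wp_analytic (x + δ) hx.2).comp_of_eq (f := fun y => y + δ) (by fun_prop) rfl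
    exact h4.sub h3
  have hVo : IsOpen V := by
    have : V = U0 ∩ (fun x => x + δ) ⁻¹' U0 := by
      ext x; rw [hVmem]; rfl
    rw [this]
    exact isOpen_U0.inter (isOpen_U0.preimage (by fun_prop))
  have hd1 : ∀ x ∈ V, deriv D x = ℘'[L0] (x + δ) - ℘'[L0] x := by
    intro x hx
    rw [hVmem] at hx
    have h4 : HasDerivAt (fun x => ℘[L0] (x + δ)) (℘'[L0] (x + δ)) x :=
      (wp_hasDerivAt hx.2).comp_add_const x δ
    exact (h4.sub (wp_hasDerivAt hx.1)).deriv
  have hzV : z ∈ V := by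
    rw [hVmem]
    refine ⟨hz, ?_⟩
    have : z + δ = w := by rw [hδdef]; ring
    rw [this]; exact hw
  have hzd : z + δ = w := by rw [hδdef]; ring
  have hD0 : ∀ᶠ x in 𝓝 z, D x = 0 := by
    refine ode_zero (q := fun x => 6 * (℘[L0] (x + δ) + ℘[L0] x)) (hDa z hzV) ?_ ?_ ?_ ?_
    · have h3 := wp_analytic z hz
      have h4 : AnalyticAt ℂ (fun x => ℘[L0] (x + δ)) z :=
        (wp_analytic (z + δ) (hzd ▸ hw)).comp_of_eq (f := fun y => y + δ) (by fun_prop) rfl
      fun_prop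
    · simp only [D, hzd, h1, sub_self]
    · rw [hd1 z hzV, hzd, h2, sub_self]
    · filter_upwards [hVo.mem_nhds hzV] with x hx
      have h5 : deriv D =ᶠ[𝓝 x] fun x => ℘'[L0] (x + δ) - ℘'[L0] x := by
        filter_upwards [hVo.mem_nhds hx] with y hy
        exact hd1 y hy
      rw [h5.deriv_eq]
      rw [hVmem] at hx
      have h6 : HasDerivAt (fun x => ℘'[L0] (x + δ)) (deriv ℘'[L0] (x + δ)) x :=
        ((wpd_analytic _ hx.2).differentiableAt.hasDerivAt).comp_add_const x δ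
      have h7 := (wpd_analytic _ hx.1).differentiableAt.hasDerivAt
      have h8 : deriv (fun x => ℘'[L0] (x + δ) - ℘'[L0] x) x =
          deriv ℘'[L0] (x + δ) - deriv ℘'[L0] x := (h6.sub h7).deriv
      rw [h8, wpd_deriv hx.1, wpd_deriv hx.2]
      simp only [D]
      ring
  have hDz := hDa.eqOn_zero_of_preconnected_of_eventuallyEq_zero hVc hzV hD0
  -- contradiction near zero
  have h0 : ∀ᶠ x in 𝓝[≠] (0 : ℂ), x ∈ V := by
    have hc : ∀ᶠ x in 𝓝 (0 : ℂ), x + δ ∈ U0 := by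
      have : ContinuousAt (fun x : ℂ => x + δ) 0 := by fun_prop
      apply this.eventually_mem
      rw [zero_add]
      exact isOpen_U0.mem_nhds hδ
    filter_upwards [U0_mem_nhds_zero, mem_nhdsWithin_of_mem_nhds hc] with x h3 h4
    rw [hVmem]; exact ⟨h3, h4⟩
  have hlim : Tendsto (fun x => ‖℘[L0] (x + δ)‖) (𝓝[≠] 0) (𝓝 ‖℘[L0] δ‖) := by
    have hc : ContinuousAt (fun x => ℘[L0] (x + δ)) 0 := by
      have h4 : AnalyticAt ℂ (fun x => ℘[L0] (x + δ)) 0 :=
        (wp_analytic δ hδ).comp_of_eq (f := fun y => y + δ) (by fun_prop) (by simp)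
      exact h4.continuousAt
    have := hc.tendsto.mono_left (nhdsWithin_le_nhds (s := {0}ᶜ))
    simpa using this.norm
  have hcb : Tendsto (fun x => ‖℘[L0] (x + δ)‖) (𝓝[≠] 0) atTop := by
    refine tendsto_wp_cobounded.congr' ?_
    filter_upwards [h0] with x hx
    have := hDz hx
    simp only [D, Pi.zero_apply, sub_eq_zero] at this
    rw [this]
  exact not_tendsto_nhds_of_tendsto_atTop hcb _ hlim

end

end Pool.Agent.TRF
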